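import Mathlib

/-!
# Graphs of large girth on surfaces: definitions

Definitions used for `MP_9b9b31_co`: embedding schemes of graphs (the combinatorial description of
embeddings of graphs on closed surfaces), the class of graphs of girth at least `l` that embed on
some surface of Euler genus `g`, and `(0,k)`-colourability.
-/

namespace Pool.Agent.Helper60

variable {V : Type*}

/-- A (cellular) embedding scheme of a graph `G`: the combinatorial description of a cellular
embedding of a connected graph in a closed surface, orientable or not.

Every edge is thickened to a band with two sides.  A pair `(d, s)`, where `d` is a dart (an edge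
with a chosen end `d.fst`) and `s` is a truth value, stands for the side `s` of the edge `d.edge`
near its end `d.fst`; the side `s` of an edge runs from `(d, s)` to `(d.symm, s)`.  The map
`corner` pairs up the sides that are consecutive around a vertex: it is a fixed point free
involution that respects the vertex, and the last axiom says that around every vertex the sides
form one single cyclic sequence
(side, other side of the same edge, next side, other side of that edge, and so on).
So the involutions `(d, s) ↦ (d.symm, s)`, `corner` and `(d, s) ↦ (d, !s)` are the three
involutions of the usual flag description of a map on a closed surface. -/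
structure EmbeddingScheme (G : SimpleGraph V) where
  /-- the side following the given one across a corner -/
  corner : G.Dart × Bool → G.Dart × Bool
  corner_corner : ∀ x, corner (corner x) = x
  corner_ne : ∀ x, corner x ≠ x
  corner_fst : ∀ x, (corner x).1.fst = x.1.fst
  single_cycle : ∀ x y : G.Dart × Bool, x.1.fst = y.1.fst →
    Relation.EqvGen (fun a b => b = corner a ∨ b = (a.1, !a.2)) x y

/-- The faces: walk along a side of an edge to its other end, cross the corner there, walk along
the next side, and so on. -/
def EmbeddingScheme.Face {G : SimpleGraph V} (S : EmbeddingScheme G) : Type _ :=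
  Quot (fun a b : G.Dart × Bool => b = S.corner a ∨ b = (a.1.symm, a.2))

/-- The number of faces; the maximum with `1` only matters for the graph with one vertex, which
has one face and no sides. -/
noncomputable def EmbeddingScheme.faceCount {G : SimpleGraph V} (S : EmbeddingScheme G) : ℕ :=
  max 1 (Nat.card S.Face)

/-- The finite graph `G` embeds on some surface of Euler genus `g`: it has no vertices, or it is a
spanning subgraph of a connected graph `G'` which has a cellular embedding of Euler genus at most
`g`, that is, with `|V| - |E(G')| + |F| ≥ 2 - g`. -/
def EmbedsInEulerGenus (G : SimpleGraph V) (g : ℕ) : Prop :=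
  IsEmpty V ∨ ∃ G' : SimpleGraph V, G ≤ G' ∧ G'.Connected ∧ ∃ S : EmbeddingScheme G',
    (2 : ℤ) - g ≤ (Nat.card V : ℤ) - G'.edgeSet.ncard + S.faceCount

/-- The class of the graphs of girth at least `l` that embed on some surface of Euler genus `g`
(`egirth` is the length of a shortest cycle, and `⊤` for forests). -/
def InGirthGenusClass (l g : ℕ) (G : SimpleGraph V) : Prop :=
  (l : ℕ∞) ≤ G.egirth ∧ EmbedsInEulerGenus G g

/-- `G` is `(0,k)`-colourable: its vertex set splits into an independent set `V₁` and a set `V₂`
such that every vertex of `V₂` has at most `k` neighbours in `V₂`. -/
def ZeroKColorable (k : ℕ) (G : SimpleGraph V) : Prop :=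
  ∃ V₁ V₂ : Set V, V₁ ∪ V₂ = Set.univ ∧ Disjoint V₁ V₂ ∧ G.IsIndepSet V₁ ∧
    ∀ v ∈ V₂, {w | w ∈ V₂ ∧ G.Adj v w}.ncard ≤ k

end Pool.Agent.Helper60
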