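import Mathlib
import Pool.Agent.Helper60.SurfaceDefs

/-!
# Embedding schemes and an Euler type inequality for subgraphs

Auxiliary file for `MP_9b9b31_co`.
-/

open Classical

set_option linter.unusedSectionVars false
set_option linter.unusedVariables false

namespace Pool.Agent.Helper60

variable {V : Type*}

section darts

variable {G : SimpleGraph V}

lemma exists_rep (e : G.edgeSet) : ∃ d : G.Dart, d.edge = e.1 := by
  obtain ⟨e, he⟩ := e
  induction e using Sym2.ind with
  | _ u w => exact ⟨⟨(u, w), he⟩, rfl⟩

/-- A dart of the given edge. -/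
noncomputable def rep (e : G.edgeSet) : G.Dart := (exists_rep e).choose

lemma rep_edge (e : G.edgeSet) : (rep e).edge = e.1 := (exists_rep e).choose_spec

lemma rep_or (d : G.Dart) : d = rep ⟨d.edge, d.edge_mem⟩ ∨ d = (rep ⟨d.edge, d.edge_mem⟩).symm := by
  have := rep_edge (⟨d.edge, d.edge_mem⟩ : G.edgeSet)
  exact (SimpleGraph.dart_edge_eq_iff _ _).1 this.symm

lemma sum_darts [Fintype V] {M : Type*} [AddCommMonoid M] (T : G.Dart → M) :
    ∑ d, T d = ∑ e : G.edgeSet, (T (rep e) + T (rep e).symm) := by
  rw [← Finset.sum_fiberwise (s := Finset.univ)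
    (g := fun d : G.Dart => (⟨d.edge, d.edge_mem⟩ : G.edgeSet)) (f := T)]
  refine Finset.sum_congr rfl fun e _ => ?_
  have : (Finset.univ.filter fun d : G.Dart => (⟨d.edge, d.edge_mem⟩ : G.edgeSet) = e) =
      {rep e, (rep e).symm} := by
    ext d
    simp only [Finset.mem_filter, Finset.mem_univ, true_and, Finset.mem_insert,
      Finset.mem_singleton]
    rw [← SimpleGraph.dart_edge_eq_iff, rep_edge, Subtype.ext_iff]
  rw [this, Finset.sum_pair (SimpleGraph.Dart.symm_ne _).symm]

end darts

section acyclic

variable [Finite V]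

/-- A finite acyclic graph with an edge has a vertex of degree one. -/
lemma exists_leaf {K : SimpleGraph V} (h : K.IsAcyclic) (he : ∃ a b, K.Adj a b) :
    ∃ u w, K.Adj u w ∧ ∀ w', K.Adj u w' → w' = w := by
  obtain ⟨a, b, hab⟩ := he
  have : Nonempty V := ⟨a⟩
  obtain ⟨u, v, p, hp, hmax⟩ :=
    SimpleGraph.Walk.exists_isPath_forall_isPath_length_le_length K
  have hnil : ¬ p.Nil := by
    intro hnil
    have h1 := hmax a b (SimpleGraph.Walk.cons hab SimpleGraph.Walk.nil) (by
      rw [SimpleGraph.Walk.cons_isPath_iff]
      refine ⟨SimpleGraph.Walk.IsPath.nil, ?_⟩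
      simpa using hab.ne)
    rw [SimpleGraph.Walk.length_cons, SimpleGraph.Walk.length_eq_zero_iff.2 hnil] at h1
    omega
  refine ⟨u, p.snd, p.adj_snd hnil, fun w hadj => ?_⟩
  apply h.eq_snd_of_adj_start hp hadj
  by_contra hw
  have h1 := hmax w v (SimpleGraph.Walk.cons hadj.symm p) (by
    rw [SimpleGraph.Walk.cons_isPath_iff]
    exact ⟨hp, hw⟩)
  rw [SimpleGraph.Walk.length_cons] at h1
  omega

/-- A finite graph with an edge and no vertex of degree one, contained in `H`, has at least
`egirth H` edges. -/
lemma egirth_le_ncard {K H : SimpleGraph V} (hKH : K ≤ H) (he : ∃ a b, K.Adj a b)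
    (hdeg : ∀ u w, K.Adj u w → ∃ w', K.Adj u w' ∧ w' ≠ w) :
    H.egirth ≤ (K.edgeSet.ncard : ℕ∞) := by
  have hac : ¬ K.IsAcyclic := by
    intro hac
    obtain ⟨u, w, huw, h⟩ := exists_leaf hac he
    obtain ⟨w', h1, h2⟩ := hdeg u w huw
    exact h2 (h w' h1)
  rw [← SimpleGraph.exists_egirth_eq_length] at hac
  obtain ⟨a, C, hC, -⟩ := hac
  have h1 : H.egirth ≤ (C.length : ℕ∞) := by
    have := SimpleGraph.egirth_le_length (hC.mapLe hKH)
    simpa using this
  refine h1.trans ?_
  have e1 : C.edges.toFinset.card = C.length := by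
    rw [List.toFinset_card_of_nodup hC.edges_nodup, SimpleGraph.Walk.length_edges]
  rw [← e1, ← Set.ncard_coe_finset]
  have : ((C.edges.toFinset : Finset (Sym2 V)) : Set (Sym2 V)).ncard ≤ K.edgeSet.ncard := by
    refine Set.ncard_le_ncard ?_ (Set.toFinite _)
    intro e he
    have : e ∈ C.edges := by simpa using he
    exact C.edges_subset_edgeSet this
  exact_mod_cast this

end acyclic

section components

variable [Fintype V]

lemma reachable_of_isolated {H : SimpleGraph V} {v w : V} (hv : v ∉ H.support)
    (h : H.Reachable v w) : v = w := by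
  obtain ⟨p⟩ := h
  cases p with
  | nil => rfl
  | cons h1 _ => exact absurd ⟨_, h1⟩ hv

/-- A graph with an edge has at least (number of isolated vertices) + 1 components. -/
lemma card_component_ge {H : SimpleGraph V} (he : ∃ a b, H.Adj a b) :
    Fintype.card V + 1 ≤ Nat.card H.ConnectedComponent + H.support.ncard := by
  obtain ⟨a, b, hab⟩ := he
  have ha : a ∈ H.support := ⟨b, hab⟩
  have hinj : Function.Injective (fun x : Option {v : V // v ∉ H.support} =>
      match x with
      | none => H.connectedComponentMk a
      | some v => H.connectedComponentMk v.1) := by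
    intro x y hxy
    cases x with
    | none =>
      cases y with
      | none => rfl
      | some y =>
        have := SimpleGraph.ConnectedComponent.exact hxy
        exact absurd ((reachable_of_isolated y.2 this.symm) ▸ ha) y.2
    | some x =>
      cases y with
      | none =>
        have := SimpleGraph.ConnectedComponent.exact hxy
        exact absurd ((reachable_of_isolated x.2 this) ▸ ha) x.2
      | some y =>
        have := SimpleGraph.ConnectedComponent.exact hxy
        exact congrArg some (Subtype.ext (reachable_of_isolated x.2 this))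
  have h1 := Nat.card_le_card_of_injective _ hinj
  rw [Finite.card_option] at h1
  have h2 : Nat.card {v : V // v ∉ H.support} + H.support.ncard = Fintype.card V := by
    rw [← Nat.card_coe_set_eq, ← Nat.card_eq_fintype_card]
    have := Nat.card_congr (Equiv.sumCompl (fun v : V => v ∈ H.support))
    rw [Nat.card_sum] at this
    rw [← this, add_comm]
  omega

end components

section main

variable [Fintype V] {G H : SimpleGraph V} (S : EmbeddingScheme G)

/-- The relation merging faces across the edges not in `H`. -/
def mergeRel (H : SimpleGraph V) (a b : G.Dart × Bool) : Prop :=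
  b = S.corner a ∨ b = (a.1.symm, a.2) ∨ (a.1.edge ∉ H.edgeSet ∧ b = (a.1, !a.2))

/-- Classes of faces after merging across the edges not in `H`. -/
def Cls (H : SimpleGraph V) : Type _ := Quot (mergeRel S H)

/-- The face at a flag. -/
def fc (x : G.Dart × Bool) : S.Face := Quot.mk _ x

/-- The class at a flag. -/
def cl (H : SimpleGraph V) (x : G.Dart × Bool) : Cls S H := Quot.mk _ x

noncomputable instance : Fintype S.Face :=
  @Fintype.ofFinite _ (Finite.of_surjective (Quot.mk _) Quot.mk_surjective)

noncomputable instance (H : SimpleGraph V) : Fintype (Cls S H) :=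
  @Fintype.ofFinite _ (Finite.of_surjective (Quot.mk _) Quot.mk_surjective)

lemma fc_corner (x : G.Dart × Bool) : fc S (S.corner x) = fc S x := by
  symm; apply Quot.sound; left; rfl
lemma fc_symm (x : G.Dart × Bool) : fc S (x.1.symm, x.2) = fc S x := by
  symm; apply Quot.sound; right; rfl
lemma cl_corner (x : G.Dart × Bool) : cl S H (S.corner x) = cl S H x := by
  symm; apply Quot.sound; left; rfl
lemma cl_symm (x : G.Dart × Bool) : cl S H (x.1.symm, x.2) = cl S H x := by
  symm; apply Quot.sound; right; left; rfl
lemma cl_flip (x : G.Dart × Bool) (hx : x.1.edge ∉ H.edgeSet) :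
    cl S H (x.1, !x.2) = cl S H x := by
  symm; apply Quot.sound; right; right; exact ⟨hx, rfl⟩

/-- The edges of `G` outside `H`. -/
abbrev RE (G H : SimpleGraph V) : Type _ := {e : G.edgeSet // e.1 ∉ H.edgeSet}

/-- Sum over the flags of a function that is invariant (up to sign, in characteristic two) under
corners vanishes. -/
lemma sum_flags_eq_zero (f : G.Dart × Bool → ZMod 2) (hf : ∀ x, f (S.corner x) = f x) :
    ∑ x, f x = 0 := by
  refine Finset.sum_involution (fun x _ => S.corner x) ?_ ?_ ?_ ?_
  · intro x _
    rw [hf]; exact CharTwo.add_self_eq_zero _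
  · intro x _ _
    exact S.corner_ne x
  · intro x _; exact Finset.mem_univ _
  · intro x _; exact S.corner_corner x

lemma sum_flags (f : G.Dart × Bool → ZMod 2) :
    ∑ x, f x = ∑ d : G.Dart, (f (d, false) + f (d, true)) := by
  rw [Fintype.sum_prod_type]
  refine Finset.sum_congr rfl fun d _ => ?_
  rw [Fintype.sum_bool, add_comm]

/-- Incidence of faces and edges outside `H`. -/
noncomputable def matA (H : SimpleGraph V) : Matrix S.Face (RE G H) (ZMod 2) := fun φ e =>
  (if φ = fc S (rep e.1, false) then 1 else 0) + (if φ = fc S (rep e.1, true) then 1 else 0)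

/-- Incidence of edges outside `H` and components of `H`. -/
noncomputable def matB (G H : SimpleGraph V) : Matrix (RE G H) H.ConnectedComponent (ZMod 2) :=
  fun e c =>
  (if c = H.connectedComponentMk (rep e.1).fst then 1 else 0) +
    (if c = H.connectedComponentMk (rep e.1).snd then 1 else 0)

lemma matA_mul_matB : matA S H * matB G H = 0 := by
  ext φ c
  rw [Matrix.mul_apply, Matrix.zero_apply]
  set a : G.Dart × Bool → ZMod 2 := fun x => if φ = fc S x then 1 else 0 with ha
  set b : V → ZMod 2 := fun v => if c = H.connectedComponentMk v then 1 else 0 with hb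
  have h0 : ∑ x : G.Dart × Bool, a x * b x.1.fst = 0 := by
    apply sum_flags_eq_zero S
    intro x
    have h1 : a (S.corner x) = a x := by simp only [ha, fc_corner]
    rw [h1, S.corner_fst]
  rw [sum_flags] at h0
  rw [sum_darts] at h0
  have hsymm : ∀ (d : G.Dart) (s : Bool), a (d.symm, s) = a (d, s) := by
    intro d s
    have := fc_symm S (d, s)
    simp only at this
    simp only [ha, this]
  have h1 : ∀ e : G.edgeSet, (a (rep e, false) * b (rep e).fst + a (rep e, true) * b (rep e).fst) +
      (a ((rep e).symm, false) * b (rep e).symm.fst + a ((rep e).symm, true) * b (rep e).symm.fst)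
      = (a (rep e, false) + a (rep e, true)) * (b (rep e).fst + b (rep e).snd) := by
    intro e
    rw [hsymm, hsymm]
    have : (rep e).symm.fst = (rep e).snd := rfl
    rw [this]
    ring
  rw [Finset.sum_congr rfl fun e _ => h1 e] at h0
  have h2 : ∑ e : RE G H, matA S H φ e * matB G H e c =
      ∑ e : RE G H, (a (rep e.1, false) + a (rep e.1, true)) *
        (b (rep e.1).fst + b (rep e.1).snd) := rfl
  rw [h2, ← h0]
  rw [← Finset.sum_subtype (Finset.univ.filter fun e : G.edgeSet => e.1 ∉ H.edgeSet)
    (by intro x; simp)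
    (fun e : G.edgeSet => (a (rep e, false) + a (rep e, true)) *
        (b (rep e).fst + b (rep e).snd))]
  refine Finset.sum_subset (Finset.filter_subset _ _) ?_
  intro e _ he
  have he' : e.1 ∈ H.edgeSet := by
    by_contra h; exact he (by simp [h])
  rw [← rep_edge] at he'
  have h3 : H.Adj (rep e).fst (rep e).snd := he'
  have h4 : b (rep e).fst = b (rep e).snd := by
    simp only [hb, SimpleGraph.ConnectedComponent.connectedComponentMk_eq_of_adj h3]
  rw [h4, CharTwo.add_self_eq_zero, mul_zero]

lemma card_RE (hHG : H ≤ G) : Fintype.card (RE G H) + H.edgeSet.ncard ≤ G.edgeSet.ncard := by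
  have h1 : Fintype.card (RE G H) = (G.edgeSet \ H.edgeSet).ncard := by
    rw [← Nat.card_eq_fintype_card, ← Nat.card_coe_set_eq]
    refine Nat.card_congr ⟨fun e => ⟨e.1.1, e.1.2, e.2⟩, fun e => ⟨⟨e.1, e.2.1⟩, e.2.2⟩,
      fun _ => rfl, fun _ => rfl⟩
  rw [h1]
  have h2 : H.edgeSet ⊆ G.edgeSet := SimpleGraph.edgeSet_mono hHG
  rw [Set.ncard_sdiff_add_ncard_of_subset h2 (Set.toFinite _)]

/-- The kernel of the transpose of `matA` is at most as large as the number of classes. -/
lemma finrank_ker_A :
    Module.finrank (ZMod 2) (LinearMap.ker (matA S H).transpose.mulVecLin) ≤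
      Fintype.card (Cls S H) := by
  set π : S.Face → Cls S H := Quot.lift (fun x => cl S H x) (by
    rintro a b (rfl | rfl)
    · exact (cl_corner S a).symm
    · exact (cl_symm S a).symm) with hπ
  set Λ : (Cls S H → ZMod 2) →ₗ[ZMod 2] (S.Face → ZMod 2) := LinearMap.funLeft (ZMod 2) (ZMod 2) π
    with hΛ
  have hle : LinearMap.ker (matA S H).transpose.mulVecLin ≤ LinearMap.range Λ := by
    intro f hf
    rw [LinearMap.mem_ker] at hf
    have hfe : ∀ e : RE G H, f (fc S (rep e.1, false)) = f (fc S (rep e.1, true)) := by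
      intro e
      have := congrFun hf e
      rw [Matrix.mulVecLin_apply, Matrix.mulVec, dotProduct] at this
      simp only [Matrix.transpose_apply, matA, add_mul, ite_mul, one_mul, zero_mul,
        Finset.sum_add_distrib, Finset.sum_ite_eq', Finset.mem_univ, if_true, Pi.zero_apply]
        at this
      exact CharTwo.add_eq_zero.1 this
    have hfd : ∀ (d : G.Dart) (s : Bool), d.edge ∉ H.edgeSet →
        f (fc S (d, !s)) = f (fc S (d, s)) := by
      intro d s hd
      have h1 := hfe ⟨⟨d.edge, d.edge_mem⟩, hd⟩
      have h2 : f (fc S (d, false)) = f (fc S (d, true)) := by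
        rcases rep_or d with h | h
        · rw [h]; simpa [← h] using h1
        · have h3 := fc_symm S (rep ⟨d.edge, d.edge_mem⟩, false)
          have h4 := fc_symm S (rep ⟨d.edge, d.edge_mem⟩, true)
          simp only at h3 h4
          rw [← h] at h3 h4
          rw [h3, h4]; exact h1
      cases s
      · exact h2.symm
      · exact h2
    refine ⟨Quot.lift (fun x => f (fc S x)) ?_, ?_⟩
    · rintro a b (rfl | rfl | ⟨h, rfl⟩)
      · exact congrArg f (fc_corner S a).symm
      · exact congrArg f (fc_symm S a).symm
      · exact (hfd a.1 a.2 h).symm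
    · ext φ
      induction φ using Quot.ind
      rfl
  calc _ ≤ Module.finrank (ZMod 2) (LinearMap.range Λ) := Submodule.finrank_mono hle
    _ ≤ Module.finrank (ZMod 2) (Cls S H → ZMod 2) := LinearMap.finrank_range_le _
    _ = _ := Module.finrank_fintype_fun_eq_card _

/-- The kernel of `matB` is at most one-dimensional if `G` is connected. -/
lemma finrank_ker_B (hG : G.Connected) :
    Module.finrank (ZMod 2) (LinearMap.ker (matB G H).mulVecLin) ≤ 1 := by
  have hle : LinearMap.ker (matB G H).mulVecLin ≤
      Submodule.span (ZMod 2) {(fun _ => 1 : H.ConnectedComponent → ZMod 2)} := by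
    intro f hf
    rw [LinearMap.mem_ker] at hf
    have hfe : ∀ e : RE G H, f (H.connectedComponentMk (rep e.1).fst) =
        f (H.connectedComponentMk (rep e.1).snd) := by
      intro e
      have := congrFun hf e
      rw [Matrix.mulVecLin_apply, Matrix.mulVec, dotProduct] at this
      simp only [matB, add_mul, ite_mul, one_mul, zero_mul,
        Finset.sum_add_distrib, Finset.sum_ite_eq', Finset.mem_univ, if_true, Pi.zero_apply]
        at this
      exact CharTwo.add_eq_zero.1 this
    have hadj : ∀ u w, G.Adj u w →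
        f (H.connectedComponentMk u) = f (H.connectedComponentMk w) := by
      intro u w huw
      by_cases hH : H.Adj u w
      · rw [SimpleGraph.ConnectedComponent.connectedComponentMk_eq_of_adj hH]
      · set d : G.Dart := ⟨(u, w), huw⟩ with hd
        have hdH : d.edge ∉ H.edgeSet := hH
        have h1 := hfe ⟨⟨d.edge, d.edge_mem⟩, hdH⟩
        rcases rep_or d with h | h
        · have e1 : u = (rep ⟨d.edge, d.edge_mem⟩).fst := by rw [← h]
          have e2 : w = (rep ⟨d.edge, d.edge_mem⟩).snd := by rw [← h]
          rw [e1, e2]; exact h1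
        · have e1 : u = (rep ⟨d.edge, d.edge_mem⟩).snd := by
            have : d.fst = (rep ⟨d.edge, d.edge_mem⟩).symm.fst := by rw [← h]
            exact this
          have e2 : w = (rep ⟨d.edge, d.edge_mem⟩).fst := by
            have : d.snd = (rep ⟨d.edge, d.edge_mem⟩).symm.snd := by rw [← h]
            exact this
          rw [e1, e2]; exact h1.symm
    have hreach : ∀ u w, G.Reachable u w →
        f (H.connectedComponentMk u) = f (H.connectedComponentMk w) := by
      rintro u w ⟨p⟩
      induction p with
      | nil => rfl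
      | cons h _ ih => rw [hadj _ _ h, ih]
    obtain ⟨v₀⟩ := hG.nonempty
    rw [Submodule.mem_span_singleton]
    refine ⟨f (H.connectedComponentMk v₀), ?_⟩
    ext c
    induction c using SimpleGraph.ConnectedComponent.ind with
    | _ v =>
      rw [Pi.smul_apply, smul_eq_mul, mul_one]
      exact hreach _ _ (hG.preconnected v₀ v)
  calc _ ≤ Module.finrank (ZMod 2) (Submodule.span (ZMod 2)
          {(fun _ => 1 : H.ConnectedComponent → ZMod 2)}) := Submodule.finrank_mono hle
    _ ≤ _ := by
      refine (finrank_span_le_card _).trans ?_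
      simp

/-- The dimension count. -/
lemma dimension_count (hHG : H ≤ G) (hG : G.Connected) :
    Fintype.card S.Face + Nat.card H.ConnectedComponent + H.edgeSet.ncard ≤
      G.edgeSet.ncard + Fintype.card (Cls S H) + 1 := by
  have h1 := Matrix.rank_add_rank_le_card_of_mul_eq_zero (matA_mul_matB S (H := H))
  have h2 := LinearMap.finrank_range_add_finrank_ker (matA S H).transpose.mulVecLin
  have h3 := LinearMap.finrank_range_add_finrank_ker (matB G H).mulVecLin
  rw [Module.finrank_fintype_fun_eq_card] at h2 h3
  have h4 := finrank_ker_A S (H := H)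
  have h5 := finrank_ker_B (H := H) hG
  have h6 := card_RE hHG
  rw [← Matrix.rank_transpose] at h1
  have h7 : (matA S H).transpose.rank =
      Module.finrank (ZMod 2) (LinearMap.range (matA S H).transpose.mulVecLin) := rfl
  have h8 : (matB G H).rank =
      Module.finrank (ZMod 2) (LinearMap.range (matB G H).mulVecLin) := rfl
  rw [← Nat.card_eq_fintype_card (α := H.ConnectedComponent)] at h3
  omega

/-- The boundary graph of a class. -/
def bdry (hHG : H ≤ G) (K : Cls S H) : SimpleGraph V where
  Adj u w := ∃ h : H.Adj u w,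
    ¬ (cl S H (⟨(u, w), hHG h⟩, false) = K ↔ cl S H (⟨(u, w), hHG h⟩, true) = K)
  symm := ⟨by
    rintro u w ⟨h, h'⟩
    refine ⟨h.symm, ?_⟩
    have e1 := cl_symm S (H := H) (⟨(u, w), hHG h⟩, false)
    have e2 := cl_symm S (H := H) (⟨(u, w), hHG h⟩, true)
    have e3 : (⟨(w, u), hHG h.symm⟩ : G.Dart) = (⟨(u, w), hHG h⟩ : G.Dart).symm := rfl
    rw [e3, e1, e2]; exact h'⟩
  loopless := ⟨by
    rintro u ⟨h, _⟩
    exact H.loopless.irrefl u h⟩

lemma bdry_le (hHG : H ≤ G) (K : Cls S H) : bdry S hHG K ≤ H := by
  rintro u w ⟨h, _⟩; exact h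

/-- No vertex of the boundary graph has degree one. -/
lemma bdry_deg (hHG : H ≤ G) (K : Cls S H) (u w : V) (h : (bdry S hHG K).Adj u w) :
    ∃ w', (bdry S hHG K).Adj u w' ∧ w' ≠ w := by
  by_contra hcon
  push Not at hcon
  obtain ⟨huw, hK⟩ := h
  set f : G.Dart × Bool → ZMod 2 := fun x => if x.1.fst = u ∧ cl S H x = K then 1 else 0 with hf
  have h0 : ∑ x, f x = 0 := by
    apply sum_flags_eq_zero S
    intro x
    simp only [hf, cl_corner, S.corner_fst]
  rw [sum_flags] at h0
  rw [Finset.sum_eq_single (⟨(u, w), hHG huw⟩ : G.Dart)] at h0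
  · have h1 : f (⟨(u, w), hHG huw⟩, false) =
        if cl S H (⟨(u, w), hHG huw⟩, false) = K then 1 else 0 := by
      simp [hf]
    have h2 : f (⟨(u, w), hHG huw⟩, true) =
        if cl S H (⟨(u, w), hHG huw⟩, true) = K then 1 else 0 := by
      simp [hf]
    rw [h1, h2] at h0
    by_cases c1 : cl S H (⟨(u, w), hHG huw⟩, false) = K <;>
      by_cases c2 : cl S H (⟨(u, w), hHG huw⟩, true) = K <;> simp [c1, c2] at h0 hK
  · intro d _ hd
    by_cases hdu : d.fst = u
    · by_cases hdH : d.edge ∈ H.edgeSet
      · have hadj : H.Adj u d.snd := by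
          rw [← hdu]; exact hdH
        have hdd : d = ⟨(u, d.snd), hHG hadj⟩ := by
          ext
          · exact hdu
          · rfl
        have hne : d.snd ≠ w := by
          rintro rfl
          exact hd hdd
        have h3 : (cl S H (d, false) = K ↔ cl S H (d, true) = K) := by
          by_contra h4
          refine hne (hcon d.snd ⟨hadj, ?_⟩)
          rw [← hdd]; exact h4
        simp only [hf, hdu, true_and, h3]
        exact CharTwo.add_self_eq_zero _
      · have := cl_flip S (H := H) (d, false) hdH
        simp only [Bool.not_false] at this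
        simp only [hf, this]
        exact CharTwo.add_self_eq_zero _
    · simp [hf, hdu]
  · intro h; exact absurd (Finset.mem_univ _) h

/-- If the boundary graph of a class is empty then there is only one class. -/
lemma bdry_nonempty (hHG : H ≤ G) (hG : G.Connected) (K : Cls S H)
    (h : ¬ ∃ a b, (bdry S hHG K).Adj a b) : ∀ K', K' = K := by
  push Not at h
  have hflip : ∀ x : G.Dart × Bool, cl S H x = K → cl S H (x.1, !x.2) = K := by
    intro x hx
    by_cases hdH : x.1.edge ∈ H.edgeSet
    · have h1 := h x.1.fst x.1.snd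
      have hadj : H.Adj x.1.fst x.1.snd := hdH
      have h2 : (cl S H (x.1, false) = K ↔ cl S H (x.1, true) = K) := by
        by_contra h3
        exact h1 ⟨hadj, h3⟩
      obtain ⟨d, s⟩ := x
      cases s
      · exact h2.1 hx
      · exact h2.2 hx
    · rw [cl_flip S x hdH]; exact hx
  have hgen : ∀ x y : G.Dart × Bool,
      Relation.EqvGen (fun a b => b = S.corner a ∨ b = (a.1, !a.2)) x y →
      (cl S H x = K ↔ cl S H y = K) := by
    intro x y hxy
    induction hxy with
    | rel a b hab =>
      rcases hab with rfl | rfl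
      · rw [cl_corner]
      · refine ⟨hflip a, fun h => ?_⟩
        have := hflip _ h
        simpa using this
    | refl a => exact Iff.rfl
    | symm a b _ ih => exact ih.symm
    | trans a b c _ _ ih1 ih2 => exact ih1.trans ih2
  obtain ⟨x0, hx0⟩ := Quot.exists_rep K
  have hx0' : cl S H x0 = K := hx0
  have hstep : ∀ u w, G.Adj u w → (∀ y : G.Dart × Bool, y.1.fst = u → cl S H y = K) →
      ∀ y : G.Dart × Bool, y.1.fst = w → cl S H y = K := by
    intro u w huw hu y hy
    have h1 := hu (⟨(u, w), huw⟩, false) rfl
    rw [← cl_symm] at h1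
    exact (hgen _ _ (S.single_cycle _ y (by rw [hy]; rfl))).1 h1
  have hreach : ∀ u w, G.Reachable u w → (∀ y : G.Dart × Bool, y.1.fst = u → cl S H y = K) →
      ∀ y : G.Dart × Bool, y.1.fst = w → cl S H y = K := by
    rintro u w ⟨p⟩
    induction p with
    | nil => exact id
    | cons h _ ih => intro hu; exact ih (hstep _ _ h hu)
  intro K'
  obtain ⟨y, hy⟩ := Quot.exists_rep K'
  have hy' : cl S H y = K' := hy
  rw [← hy']
  refine hreach x0.1.fst y.1.fst (hG.preconnected _ _) ?_ y rfl
  intro z hz
  exact (hgen _ _ (S.single_cycle _ z hz.symm)).1 hx0'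

/-- Every edge of `H` lies in the boundary graphs of at most two classes. -/
lemma sum_bdry (hHG : H ≤ G) :
    ∑ K : Cls S H, (bdry S hHG K).edgeSet.ncard ≤ 2 * H.edgeSet.ncard := by
  have h1 : ∀ K : Cls S H, (bdry S hHG K).edgeSet.ncard =
      ∑ e ∈ H.edgeFinset, if e ∈ (bdry S hHG K).edgeSet then 1 else 0 := by
    intro K
    rw [← Finset.card_filter, ← Set.ncard_coe_finset]
    congr 1
    ext e
    simp only [Finset.coe_filter, SimpleGraph.mem_edgeFinset, Set.mem_ofPred_eq]
    exact ⟨fun h => ⟨SimpleGraph.edgeSet_mono (bdry_le S hHG K) h, h⟩, fun h => h.2⟩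
  rw [Finset.sum_congr rfl fun K _ => h1 K, Finset.sum_comm]
  have h2 : ∀ e ∈ H.edgeFinset,
      (∑ K : Cls S H, if e ∈ (bdry S hHG K).edgeSet then 1 else 0) ≤ 2 := by
    intro e he
    rw [SimpleGraph.mem_edgeFinset] at he
    rw [← Finset.card_filter]
    have heG : e ∈ G.edgeSet := SimpleGraph.edgeSet_mono hHG he
    refine le_trans (Finset.card_le_card (t := {cl S H (rep ⟨e, heG⟩, false),
      cl S H (rep ⟨e, heG⟩, true)}) ?_) Finset.card_le_two
    intro K hK
    rw [Finset.mem_filter] at hK
    have hK := hK.2
    have hre : (rep (⟨e, heG⟩ : G.edgeSet)).edge = e := rep_edge ⟨e, heG⟩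
    rw [← hre] at hK
    obtain ⟨h3, h4⟩ : (bdry S hHG K).Adj (rep ⟨e, heG⟩).fst (rep ⟨e, heG⟩).snd := hK
    by_contra h5
    simp only [Finset.mem_insert, Finset.mem_singleton, not_or] at h5
    apply h4
    exact ⟨fun h => absurd h.symm h5.1, fun h => absurd h.symm h5.2⟩
  calc _ ≤ ∑ e ∈ H.edgeFinset, 2 := Finset.sum_le_sum h2
    _ = 2 * H.edgeSet.ncard := by
      rw [Finset.sum_const, smul_eq_mul, mul_comm, Set.ncard_eq_toFinset_card']
      rfl

/-- **Euler type inequality** for a subgraph `H` of girth at least `l` of a connected graph `G`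
with a cellular embedding of Euler genus at most `g`. -/
theorem euler_inequality (hHG : H ≤ G) (hG : G.Connected) (g l : ℕ)
    (hχ : (2 : ℤ) - g ≤ (Nat.card V : ℤ) - G.edgeSet.ncard + S.faceCount)
    (hg : (l : ℕ∞) ≤ H.egirth) (he : ∃ a b, H.Adj a b) :
    ∃ f : ℕ, H.edgeSet.ncard + 2 ≤ H.support.ncard + g + f ∧
      (f ≤ 1 ∨ l * f ≤ 2 * H.edgeSet.ncard) := by
  refine ⟨Fintype.card (Cls S H), ?_, ?_⟩
  · have h1 := dimension_count S hHG hG
    have h2 := card_component_ge he
    have h3 : S.faceCount = Fintype.card S.Face := by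
      unfold EmbeddingScheme.faceCount
      rw [Nat.card_eq_fintype_card]
      apply max_eq_right
      obtain ⟨a, b, hab⟩ := he
      exact Fintype.card_pos_iff.2 ⟨fc S (⟨(a, b), hHG hab⟩, false)⟩
    rw [h3, Nat.card_eq_fintype_card] at hχ
    omega
  · rcases Nat.lt_or_ge (Fintype.card (Cls S H)) 2 with h | h
    · left; omega
    · right
      have h1 : ∀ K : Cls S H, l ≤ (bdry S hHG K).edgeSet.ncard := by
        intro K
        have hne : ∃ a b, (bdry S hHG K).Adj a b := by
          by_contra hcon
          have := bdry_nonempty S hHG hG K hcon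
          have h2 : Fintype.card (Cls S H) ≤ 1 :=
            Fintype.card_le_one_iff.2 fun a b => (this a).trans (this b).symm
          omega
        have := hg.trans (egirth_le_ncard (bdry_le S hHG K) hne (bdry_deg S hHG K))
        exact_mod_cast this
      calc l * Fintype.card (Cls S H) = ∑ K : Cls S H, l := by
            rw [Finset.sum_const, smul_eq_mul, mul_comm]; rfl
        _ ≤ _ := (Finset.sum_le_sum fun K _ => h1 K).trans (sum_bdry S hHG)

end main

end Pool.Agent.Helper60
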