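import Mathlib

/-!
# Local recolouring in a tree-like ball

Auxiliary file for `MP_9b9b31_co`.  A `(0,k)`-colouring of `H` is given by the set `S` of the
vertices in the independent class.
-/

open Classical

set_option linter.unusedSectionVars false
set_option linter.unusedVariables false

namespace Pool.Agent.Helper60

variable {V : Type*} [Fintype V]

/-- `S` is the independent class of a `(0,k)`-colouring of `H`. -/
def IsZeroK (H : SimpleGraph V) (k : ℕ) (S : Set V) : Prop :=
  (∀ u ∈ S, ∀ w ∈ S, ¬ H.Adj u w) ∧ ∀ u ∉ S, {w | H.Adj u w ∧ w ∉ S}.ncard ≤ k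

/-- A layering `d` with parents `p` of the ball of radius `r` around `v`: every edge with an end in
a layer below `r` joins a vertex to its parent. -/
structure Layering (H : SimpleGraph V) (v : V) (r : ℕ) (d : V → ℕ) (p : V → V) : Prop where
  zero : ∀ x, d x = 0 ↔ x = v
  par : ∀ x, 1 ≤ d x → d x ≤ r → H.Adj x (p x) ∧ d (p x) + 1 = d x
  edge : ∀ x y, H.Adj x y → d x < r → (d y = d x + 1 ∧ p y = x) ∨ (d x = d y + 1 ∧ p x = y)

/-- The three sets (may be coloured `1`; may be coloured `2` below a parent coloured `1`; may be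
coloured `2` below a parent coloured `2`), as a function of the height above the boundary. -/
def TT (H : SimpleGraph V) (k : ℕ) (S : Set V) (d : V → ℕ) (p : V → V) :
    ℕ → (Set V × Set V × Set V)
  | 0 => (S, Sᶜ, {x | x ∉ S ∧ p x ∉ S})
  | h + 1 =>
    ({x | ∀ c, H.Adj x c → d c = d x + 1 → c ∈ (TT H k S d p h).2.1},
     {x | {c | (H.Adj x c ∧ d c = d x + 1) ∧ c ∉ (TT H k S d p h).1}.ncard ≤ k ∧
        ∀ c, H.Adj x c → d c = d x + 1 → c ∉ (TT H k S d p h).1 → c ∈ (TT H k S d p h).2.2},
     {x | {c | (H.Adj x c ∧ d c = d x + 1) ∧ c ∉ (TT H k S d p h).1}.ncard + 1 ≤ k ∧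
        ∀ c, H.Adj x c → d c = d x + 1 → c ∉ (TT H k S d p h).1 → c ∈ (TT H k S d p h).2.2})

section

variable (H : SimpleGraph V) (k : ℕ) (S : Set V) (d : V → ℕ) (p : V → V) (r : ℕ)

/-- `x` may be recoloured `1`. -/
def B1 (x : V) : Prop := x ∈ (TT H k S d p (r - d x)).1
/-- `x` may be recoloured `2` below a parent coloured `1`. -/
def B2 (x : V) : Prop := x ∈ (TT H k S d p (r - d x)).2.1
/-- `x` may be recoloured `2` below a parent coloured `2`. -/
def B3 (x : V) : Prop := x ∈ (TT H k S d p (r - d x)).2.2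

variable {H k S d p r}

lemma B1_top {x : V} (hx : d x = r) : B1 H k S d p r x ↔ x ∈ S := by
  simp [B1, hx, TT]

lemma B2_top {x : V} (hx : d x = r) : B2 H k S d p r x ↔ x ∉ S := by
  simp [B2, hx, TT]

lemma B3_top {x : V} (hx : d x = r) : B3 H k S d p r x ↔ x ∉ S ∧ p x ∉ S := by
  simp [B3, hx, TT]

lemma height_succ {x : V} (hx : d x < r) : r - d x = (r - (d x + 1)) + 1 := by omega

lemma B1_iff {x : V} (hx : d x < r) :
    B1 H k S d p r x ↔ ∀ c, H.Adj x c → d c = d x + 1 → B2 H k S d p r c := by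
  unfold B1 B2
  rw [height_succ hx]
  constructor
  · intro h c hc hd
    have := h c hc hd
    rw [hd]; exact this
  · intro h c hc hd
    have := h c hc hd
    rw [hd] at this; exact this

lemma B23_aux {x : V} (hx : d x < r) :
    {c | (H.Adj x c ∧ d c = d x + 1) ∧ c ∉ (TT H k S d p (r - (d x + 1))).1} =
      {c | (H.Adj x c ∧ d c = d x + 1) ∧ ¬ B1 H k S d p r c} := by
  ext c
  simp only [Set.mem_ofPred_eq]
  constructor
  · rintro ⟨⟨h1, h2⟩, h3⟩
    refine ⟨⟨h1, h2⟩, ?_⟩
    unfold B1; rw [h2]; exact h3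
  · rintro ⟨⟨h1, h2⟩, h3⟩
    refine ⟨⟨h1, h2⟩, ?_⟩
    unfold B1 at h3; rw [h2] at h3; exact h3

lemma B2_iff {x : V} (hx : d x < r) :
    B2 H k S d p r x ↔
      {c | (H.Adj x c ∧ d c = d x + 1) ∧ ¬ B1 H k S d p r c}.ncard ≤ k ∧
      ∀ c, H.Adj x c → d c = d x + 1 → ¬ B1 H k S d p r c → B3 H k S d p r c := by
  rw [← B23_aux hx]
  unfold B2
  rw [height_succ hx]
  constructor
  · rintro ⟨h1, h2⟩
    refine ⟨h1, fun c hc hd hb => ?_⟩
    unfold B1 at hb
    unfold B3
    rw [hd] at hb ⊢
    exact h2 c hc hd hb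
  · rintro ⟨h1, h2⟩
    refine ⟨h1, fun c hc hd hb => ?_⟩
    have := h2 c hc hd
    unfold B1 B3 at this
    rw [hd] at this
    exact this hb

lemma B3_iff {x : V} (hx : d x < r) :
    B3 H k S d p r x ↔
      {c | (H.Adj x c ∧ d c = d x + 1) ∧ ¬ B1 H k S d p r c}.ncard + 1 ≤ k ∧
      ∀ c, H.Adj x c → d c = d x + 1 → ¬ B1 H k S d p r c → B3 H k S d p r c := by
  rw [← B23_aux hx]
  unfold B3
  rw [height_succ hx]
  constructor
  · rintro ⟨h1, h2⟩
    refine ⟨h1, fun c hc hd hb => ?_⟩
    unfold B1 at hb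
    rw [hd] at hb ⊢
    exact h2 c hc hd hb
  · rintro ⟨h1, h2⟩
    refine ⟨h1, fun c hc hd hb => ?_⟩
    have := h2 c hc hd
    unfold B1 at this
    rw [hd] at this
    exact this hb

end

/-- A colouring of `H` with the edges at `v` removed. -/
def IsZeroKOff (H : SimpleGraph V) (v : V) (k : ℕ) (S : Set V) : Prop :=
  (∀ u ∈ S, ∀ w ∈ S, u ≠ v → w ≠ v → ¬ H.Adj u w) ∧
    ∀ u ∉ S, u ≠ v → {w | H.Adj u w ∧ w ≠ v ∧ w ∉ S}.ncard ≤ k

section main

variable {H : SimpleGraph V} {v : V} {k r : ℕ} {S : Set V} {d : V → ℕ} {p : V → V}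

/-- The old colours are always available. -/
lemma consistency (hL : Layering H v r d p) (hS : IsZeroKOff H v k S) :
    ∀ h x, d x + h = r → 1 ≤ d x →
      (x ∈ S → B1 H k S d p r x) ∧ (x ∉ S → B2 H k S d p r x) ∧
      (2 ≤ d x → x ∉ S → p x ∉ S → B3 H k S d p r x) := by
  intro h
  induction h with
  | zero =>
    intro x hx _
    have hx' : d x = r := by omega
    exact ⟨fun h => (B1_top hx').2 h, fun h => (B2_top hx').2 h,
      fun _ h1 h2 => (B3_top hx').2 ⟨h1, h2⟩⟩
  | succ h ih =>
    intro x hx h1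
    have hxr : d x < r := by omega
    have hxv : x ≠ v := fun h => by
      have := (hL.zero x).2 h; omega
    have hcv : ∀ c, d c = d x + 1 → c ≠ v := fun c hc h => by
      have := (hL.zero c).2 h; omega
    have hpc : ∀ c, H.Adj x c → d c = d x + 1 → p c = x := fun c hc hd => by
      rcases hL.edge x c hc hxr with h | h
      · exact h.2
      · omega
    have hB3 : x ∉ S → ∀ c, H.Adj x c → d c = d x + 1 → ¬ B1 H k S d p r c →
        B3 H k S d p r c := by
      intro hxS c hc hd hb
      obtain ⟨i1, i2, i3⟩ := ih c (by omega) (by omega)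
      have hcS : c ∉ S := fun h => hb (i1 h)
      exact i3 (by omega) hcS (by rw [hpc c hc hd]; exact hxS)
    refine ⟨fun hxS => ?_, fun hxS => ?_, fun h2 hxS hpS => ?_⟩
    · rw [B1_iff hxr]
      intro c hc hd
      obtain ⟨i1, i2, i3⟩ := ih c (by omega) (by omega)
      exact i2 fun hcS => hS.1 x hxS c hcS hxv (hcv c hd) hc
    · rw [B2_iff hxr]
      refine ⟨?_, hB3 hxS⟩
      refine le_trans (Set.ncard_le_ncard ?_ (Set.toFinite _)) (hS.2 x hxS hxv)
      rintro c ⟨⟨hc, hd⟩, hb⟩
      exact ⟨hc, hcv c hd, fun h => hb ((ih c (by omega) (by omega)).1 h)⟩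
    · rw [B3_iff hxr]
      refine ⟨?_, hB3 hxS⟩
      refine le_trans ?_ (hS.2 x hxS hxv)
      rw [← Set.ncard_insert_of_notMem (a := p x)]
      · refine Set.ncard_le_ncard ?_ (Set.toFinite _)
        intro c hc
        rcases hc with rfl | ⟨⟨hc, hd⟩, hb⟩
        · have := hL.par x h1 hxr.le
          refine ⟨this.1, fun h => ?_, hpS⟩
          have := (hL.zero _).2 h
          omega
        · exact ⟨hc, hcv c hd, fun h => hb ((ih c (by omega) (by omega)).1 h)⟩
      · rintro ⟨⟨hc, hd⟩, hb⟩
        have := hL.par x h1 hxr.le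
        omega

/-- New colour in the layer `i`. -/
def Psi (H : SimpleGraph V) (k : ℕ) (S : Set V) (d : V → ℕ) (p : V → V) (r : ℕ) :
    ℕ → V → Prop
  | 0, _ => True
  | i + 1, x => ¬ Psi H k S d p r i (p x) ∧ B1 H k S d p r x

/-- The new colouring. -/
def newS (H : SimpleGraph V) (k : ℕ) (S : Set V) (d : V → ℕ) (p : V → V) (r : ℕ) : Set V :=
  {x | (d x < r ∧ Psi H k S d p r (d x) x) ∨ (r ≤ d x ∧ x ∈ S)}

lemma mem_newS_lt {x : V} (hL : Layering H v r d p) (hx : d x < r) (h1 : 1 ≤ d x) :
    x ∈ newS H k S d p r ↔ p x ∉ newS H k S d p r ∧ B1 H k S d p r x := by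
  obtain ⟨i, hi⟩ : ∃ i, d x = i + 1 := ⟨d x - 1, by omega⟩
  have hp := hL.par x h1 hx.le
  have hpi : d (p x) = i := by omega
  have e1 : (x ∈ newS H k S d p r) ↔ Psi H k S d p r (i + 1) x := by
    constructor
    · rintro (⟨_, h⟩ | ⟨h, _⟩)
      · rw [hi] at h; exact h
      · omega
    · intro h
      left; refine ⟨hx, ?_⟩; rw [hi]; exact h
  have e2 : (p x ∈ newS H k S d p r) ↔ Psi H k S d p r i (p x) := by
    constructor
    · rintro (⟨_, h⟩ | ⟨h, _⟩)
      · rw [hpi] at h; exact h
      · omega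
    · intro h
      left; refine ⟨by omega, ?_⟩; rw [hpi]; exact h
  rw [e1, e2]
  exact Iff.rfl

lemma mem_newS_ge {x : V} (hx : r ≤ d x) : x ∈ newS H k S d p r ↔ x ∈ S := by
  constructor
  · rintro (⟨h, _⟩ | ⟨_, h⟩)
    · omega
    · exact h
  · intro h; right; exact ⟨hx, h⟩

/-- If `v` may be coloured `1` then the partial colouring extends. -/
theorem recolor (hr : 2 ≤ r) (hL : Layering H v r d p) (hS : IsZeroKOff H v k S)
    (hv : B1 H k S d p r v) : IsZeroK H k (newS H k S d p r) := by
  have hdv : d v = 0 := (hL.zero v).2 rfl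
  have hvN : v ∈ newS H k S d p r := by
    left; rw [hdv]; exact ⟨by omega, trivial⟩
  -- invariant 1
  have I1 : ∀ x, d x ≤ r → x ∈ newS H k S d p r → B1 H k S d p r x := by
    intro x hx hxN
    rcases Nat.eq_zero_or_pos (d x) with h0 | h0
    · rw [(hL.zero x).1 h0]; exact hv
    · rcases Nat.lt_or_ge (d x) r with h | h
      · exact ((mem_newS_lt hL h h0).1 hxN).2
      · exact (B1_top (le_antisymm hx h)).2 ((mem_newS_ge h).1 hxN)
  have hchild : ∀ x, 1 ≤ d x → d x ≤ r → d (p x) < r ∧ H.Adj (p x) x ∧ d x = d (p x) + 1 := by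
    intro x h1 h2
    have := hL.par x h1 h2
    exact ⟨by omega, this.1.symm, this.2.symm⟩
  -- invariant 2
  have I2 : ∀ x, 1 ≤ d x → d x ≤ r → p x ∈ newS H k S d p r →
      x ∉ newS H k S d p r ∧ B2 H k S d p r x := by
    intro x h1 h2 hp
    obtain ⟨c1, c2, c3⟩ := hchild x h1 h2
    have hb := I1 (p x) c1.le hp
    rw [B1_iff c1] at hb
    have hb2 := hb x c2 c3
    refine ⟨fun hx => ?_, hb2⟩
    rcases Nat.lt_or_ge (d x) r with h | h
    · exact ((mem_newS_lt hL h h1).1 hx).1 hp
    · exact ((B2_top (le_antisymm h2 h)).1 hb2) ((mem_newS_ge h).1 hx)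
  -- invariant 3
  have I3 : ∀ n x, d x = n → 1 ≤ d x → d x ≤ r → p x ∉ newS H k S d p r →
      x ∉ newS H k S d p r → ¬ B1 H k S d p r x ∧ B3 H k S d p r x := by
    intro n
    induction n with
    | zero => intro x h0 h1; omega
    | succ n ih =>
      intro x hn h1 h2 hp hx
      obtain ⟨c1, c2, c3⟩ := hchild x h1 h2
      have hnb : ¬ B1 H k S d p r x := by
        rcases Nat.lt_or_ge (d x) r with h | h
        · intro hb
          exact hx ((mem_newS_lt hL h h1).2 ⟨hp, hb⟩)
        · intro hb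
          exact hx ((mem_newS_ge h).2 ((B1_top (le_antisymm h2 h)).1 hb))
      refine ⟨hnb, ?_⟩
      have hp0 : 1 ≤ d (p x) := by
        rcases Nat.eq_zero_or_pos (d (p x)) with h0 | h0
        · exact absurd ((hL.zero _).1 h0 ▸ hvN) hp
        · exact h0
      by_cases hpp : p (p x) ∈ newS H k S d p r
      · exact ((B2_iff c1).1 (I2 (p x) hp0 c1.le hpp).2).2 x c2 c3 hnb
      · exact ((B3_iff c1).1 (ih (p x) (by omega) hp0 c1.le hpp hp).2).2 x c2 c3 hnb
  constructor
  · -- independence
    have key : ∀ x y, H.Adj x y → d x < r → x ∈ newS H k S d p r → y ∈ newS H k S d p r →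
        False := by
      intro x y hxy hxr hx hy
      rcases hL.edge x y hxy hxr with ⟨h1, h2⟩ | ⟨h1, h2⟩
      · have := I2 y (by omega) (by omega) (by rw [h2]; exact hx)
        exact this.1 hy
      · have := I2 x (by omega) (by omega) (by rw [h2]; exact hy)
        exact this.1 hx
    intro u hu w hw huw
    rcases Nat.lt_or_ge (d u) r with h | h
    · exact key u w huw h hu hw
    · rcases Nat.lt_or_ge (d w) r with h' | h'
      · exact key w u huw.symm h' hw hu
      · have hu' := (mem_newS_ge h).1 hu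
        have hw' := (mem_newS_ge h').1 hw
        refine hS.1 u hu' w hw' ?_ ?_ huw
        · intro h0; have := (hL.zero u).2 h0; omega
        · intro h0; have := (hL.zero w).2 h0; omega
  · -- degrees
    intro x hx
    have hxv : x ≠ v := fun h => hx (h ▸ hvN)
    have h1 : 1 ≤ d x := by
      rcases Nat.eq_zero_or_pos (d x) with h0 | h0
      · exact absurd ((hL.zero _).1 h0) hxv
      · exact h0
    rcases Nat.lt_or_ge (d x) r with hxr | hxr
    · -- inner vertices
      have hsub : ∀ c, (H.Adj x c ∧ d c = d x + 1) → c ∉ newS H k S d p r →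
          ¬ B1 H k S d p r c := by
        rintro c ⟨hc, hd⟩ hcN
        rcases hL.edge x c hc hxr with ⟨_, h2⟩ | ⟨h2, _⟩
        · exact (I3 _ c rfl (by omega) (by omega) (by rw [h2]; exact hx) hcN).1
        · omega
      by_cases hp : p x ∈ newS H k S d p r
      · have := ((B2_iff hxr).1 (I2 x h1 hxr.le hp).2).1
        refine le_trans (Set.ncard_le_ncard ?_ (Set.toFinite _)) this
        rintro c ⟨hc, hcN⟩
        rcases hL.edge x c hc hxr with ⟨h2, _⟩ | ⟨_, h2⟩
        · exact ⟨⟨hc, h2⟩, hsub c ⟨hc, h2⟩ hcN⟩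
        · exact absurd (h2 ▸ hp) hcN
      · have := ((B3_iff hxr).1 (I3 _ x rfl h1 hxr.le hp hx).2).1
        refine le_trans ?_ this
        refine le_trans (Set.ncard_le_ncard (t := insert (p x)
          {c | (H.Adj x c ∧ d c = d x + 1) ∧ ¬ B1 H k S d p r c}) ?_ (Set.toFinite _))
          (Set.ncard_insert_le _ _)
        rintro c ⟨hc, hcN⟩
        rcases hL.edge x c hc hxr with ⟨h2, _⟩ | ⟨_, h2⟩
        · exact Or.inr ⟨⟨hc, h2⟩, hsub c ⟨hc, h2⟩ hcN⟩
        · exact Or.inl h2.symm
    · -- outer vertices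
      have hxS : x ∉ S := fun h => hx ((mem_newS_ge hxr).2 h)
      refine le_trans (Set.ncard_le_ncard ?_ (Set.toFinite _)) (hS.2 x hxS hxv)
      rintro c ⟨hc, hcN⟩
      have hcv : c ≠ v := fun h => hcN (h ▸ hvN)
      refine ⟨hc, hcv, ?_⟩
      rcases Nat.lt_or_ge (d c) r with hcr | hcr
      · rcases hL.edge c x hc.symm hcr with ⟨h2, h3⟩ | ⟨h2, h3⟩
        · have hxr' : d x = r := by omega
          have := (I3 _ x rfl h1 hxr'.le (by rw [h3]; exact hcN) hx).2
          rw [B3_top hxr'] at this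
          rw [← h3]; exact this.2
        · omega
      · exact fun h => hcN ((mem_newS_ge hcr).2 h)

/-- The descendants of `x` inside the ball. -/
def Desc (d : V → ℕ) (p : V → V) (r : ℕ) (x : V) : Set V :=
  {y | ∃ j, d y = d x + j ∧ d y ≤ r ∧ p^[j] y = x}

lemma desc_trans {x y : V} (hy : y ∈ Desc d p r x) : Desc d p r y ⊆ Desc d p r x := by
  rintro z ⟨j, h1, h2, h3⟩
  obtain ⟨i, g1, g2, g3⟩ := hy
  refine ⟨i + j, by omega, h2, ?_⟩
  rw [Function.iterate_add_apply, h3, g3]

lemma desc_disj {x y : V} (hxy : d x = d y) (hne : x ≠ y) :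
    Disjoint (Desc d p r x) (Desc d p r y) := by
  rw [Set.disjoint_left]
  rintro z ⟨j, h1, h2, h3⟩ ⟨i, g1, g2, g3⟩
  have : i = j := by omega
  subst this
  exact hne (h3.symm.trans g3)

/-- A vertex that may not be recoloured `1` has many descendants with the same property two or
three layers further out. -/
lemma branching (hL : Layering H v r d p) (hS : IsZeroKOff H v k S) {x : V}
    (hx : d x + 3 ≤ r) (hb : ¬ B1 H k S d p r x) :
    ∃ (Y : Set V) (i : ℕ), (i = 2 ∨ i = 3) ∧ k ≤ Y.ncard ∧ ∀ y ∈ Y, d y = d x + i ∧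
      y ∈ Desc d p r x ∧ ¬ B1 H k S d p r y := by
  rw [B1_iff (by omega)] at hb
  push Not at hb
  obtain ⟨c, hc, hd, hb2⟩ := hb
  have cons := fun (y : V) (h1 : 1 ≤ d y) (h2 : d y ≤ r) =>
    consistency hL hS (r - d y) y (by omega) h1
  have hpc : ∀ a b, H.Adj a b → d a < r → d b = d a + 1 → p b = a := fun a b h ha hd => by
    rcases hL.edge a b h ha with h | h
    · exact h.2
    · omega
  have hcS : c ∈ S := by
    by_contra h
    exact hb2 ((cons c (by omega) (by omega)).2.1 h)
  have hcv : c ≠ v := fun h => by have := (hL.zero c).2 h; omega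
  have hchS : ∀ c', H.Adj c c' → d c' = d c + 1 → c' ∉ S := fun c' h hd' hS' =>
    hS.1 c hcS c' hS' hcv (fun h => by have := (hL.zero c').2 h; omega) h
  rw [B2_iff (by omega)] at hb2
  rw [not_and_or] at hb2
  rcases hb2 with hb2 | hb2
  · refine ⟨{c' | (H.Adj c c' ∧ d c' = d c + 1) ∧ ¬ B1 H k S d p r c'}, 2, Or.inl rfl,
      by omega, ?_⟩
    rintro y ⟨⟨h1, h2⟩, h3⟩
    refine ⟨by omega, ⟨2, by omega, by omega, ?_⟩, h3⟩
    show p (p y) = x
    rw [hpc c y h1 (by omega) h2, hpc x c hc (by omega) hd]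
  · push Not at hb2
    obtain ⟨c', hc', hd', hb1', hb3'⟩ := hb2
    have hc'S := hchS c' hc' hd'
    rw [B3_iff (by omega), not_and_or] at hb3'
    rcases hb3' with h | h
    · refine ⟨{c'' | (H.Adj c' c'' ∧ d c'' = d c' + 1) ∧ ¬ B1 H k S d p r c''}, 3, Or.inr rfl,
        by omega, ?_⟩
      rintro y ⟨⟨h1, h2⟩, h3⟩
      refine ⟨by omega, ⟨3, by omega, by omega, ?_⟩, h3⟩
      show p (p (p y)) = x
      rw [hpc c' y h1 (by omega) h2, hpc c c' hc' (by omega) hd', hpc x c hc (by omega) hd]
    · exfalso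
      push Not at h
      obtain ⟨c'', hc'', hd'', h1, h3⟩ := h
      have cs := cons c'' (by omega) (by omega)
      have hc''S : c'' ∉ S := fun hh => h1 (cs.1 hh)
      exact h3 (cs.2.2 (by omega) hc''S (by rw [hpc c' c'' hc'' (by omega) hd'']; exact hc'S))

theorem count (hL : Layering H v r d p) (hS : IsZeroKOff H v k S) :
    ∀ h x, d x + 3 * h ≤ r → ¬ B1 H k S d p r x → k ^ h ≤ (Desc d p r x).ncard := by
  intro h
  induction h with
  | zero =>
    intro x hx _
    have : 0 < (Desc d p r x).ncard := by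
      rw [Set.ncard_pos (Set.toFinite _)]
      exact ⟨x, 0, by omega, by omega, rfl⟩
    rw [pow_zero]; exact this
  | succ h ih =>
    intro x hx hb
    obtain ⟨Y, i, hi, hk, hY⟩ := branching hL hS (by omega) hb
    have e : ((Y.toFinset.biUnion fun y => (Desc d p r y).toFinset : Finset V) : Set V) ⊆
        Desc d p r x := by
      intro z hz
      simp only [Finset.coe_biUnion, Set.mem_iUnion, Set.coe_toFinset] at hz
      obtain ⟨y, hy, hz⟩ := hz
      exact desc_trans (hY y hy).2.1 hz
    refine le_trans ?_ (Set.ncard_le_ncard e (Set.toFinite _))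
    rw [Set.ncard_coe_finset, Finset.card_biUnion]
    · calc k ^ (h + 1) = k * k ^ h := by ring
        _ ≤ Y.toFinset.card * k ^ h := by
            rw [← Set.ncard_eq_toFinset_card']
            exact Nat.mul_le_mul_right _ hk
        _ = ∑ y ∈ Y.toFinset, k ^ h := by rw [Finset.sum_const, smul_eq_mul]
        _ ≤ _ := by
            refine Finset.sum_le_sum fun y hy => ?_
            have := hY y (Set.mem_toFinset.1 hy)
            rw [← Set.ncard_eq_toFinset_card']
            exact ih y (by rcases hi with rfl | rfl <;> omega) this.2.2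
    · intro y hy z hz hyz
      have h1 := hY y (Set.mem_toFinset.1 hy)
      have h2 := hY z (Set.mem_toFinset.1 hz)
      show Disjoint (Desc d p r y).toFinset (Desc d p r z).toFinset
      rw [Set.disjoint_toFinset]
      exact desc_disj (by omega) hyz

end main

section bfs

variable {H : SimpleGraph V}

/-- Two paths with the same ends whose total length is smaller than the girth are equal. -/
lemma path_eq_of_lt_egirth {u w : V} (P Q : H.Walk u w) (hP : P.IsPath) (hQ : Q.IsPath)
    (h : ((P.length + Q.length : ℕ) : ℕ∞) < H.egirth) : P = Q := by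
  set K : SimpleGraph V := SimpleGraph.fromEdgeSet {e | e ∈ P.edges ∨ e ∈ Q.edges} with hK
  have hKH : K ≤ H := by
    intro a b hab
    rw [hK, SimpleGraph.fromEdgeSet_adj] at hab
    rcases hab.1 with h1 | h1
    · exact P.adj_of_mem_edges h1
    · exact Q.adj_of_mem_edges h1
  have hKe : ∀ e, e ∈ H.edgeSet → (e ∈ P.edges ∨ e ∈ Q.edges) → e ∈ K.edgeSet := by
    intro e he h1
    rw [hK, SimpleGraph.edgeSet_fromEdgeSet]
    exact ⟨h1, fun h2 => (H.not_isDiag_of_mem_edgeSet he) h2⟩
  have hPK : ∀ e ∈ P.edges, e ∈ K.edgeSet := fun e he =>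
    hKe e (P.edges_subset_edgeSet he) (Or.inl he)
  have hQK : ∀ e ∈ Q.edges, e ∈ K.edgeSet := fun e he =>
    hKe e (Q.edges_subset_edgeSet he) (Or.inr he)
  by_cases hac : K.IsAcyclic
  · have := (SimpleGraph.isAcyclic_iff_path_unique.1 hac)
      ⟨P.transfer K hPK, hP.transfer hPK⟩ ⟨Q.transfer K hQK, hQ.transfer hQK⟩
    have h2 : P.transfer K hPK = Q.transfer K hQK := congrArg Subtype.val this
    have h3 : P.support = Q.support := by
      have := congrArg SimpleGraph.Walk.support h2
      simpa using this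
    exact SimpleGraph.Walk.ext_support h3
  · exfalso
    rw [← SimpleGraph.exists_egirth_eq_length] at hac
    obtain ⟨a, C, hC, -⟩ := hac
    have h1 : H.egirth ≤ (C.length : ℕ∞) := by
      have := SimpleGraph.egirth_le_length (hC.mapLe hKH)
      simpa using this
    have h2 : C.length ≤ P.length + Q.length := by
      have e1 : C.edges.toFinset.card = C.length := by
        rw [List.toFinset_card_of_nodup hC.edges_nodup, SimpleGraph.Walk.length_edges]
      rw [← e1]
      calc C.edges.toFinset.card ≤ (P.edges.toFinset ∪ Q.edges.toFinset).card := by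
            refine Finset.card_le_card fun e he => ?_
            rw [List.mem_toFinset] at he
            have := C.edges_subset_edgeSet he
            rw [hK, SimpleGraph.edgeSet_fromEdgeSet] at this
            simpa using this.1
        _ ≤ P.edges.toFinset.card + Q.edges.toFinset.card := Finset.card_union_le _ _
        _ ≤ P.edges.length + Q.edges.length :=
            Nat.add_le_add (List.toFinset_card_le _) (List.toFinset_card_le _)
        _ = _ := by simp
    exact absurd (lt_of_lt_of_le h h1) (not_lt.2 (by exact_mod_cast h2))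

theorem exists_layering (H : SimpleGraph V) (v : V) (r : ℕ)
    (h : ((2 * r : ℕ) : ℕ∞) < H.egirth) :
    ∃ (d : V → ℕ) (p : V → V), Layering H v r d p ∧ ∀ x, d x ≤ r → H.Reachable v x := by
  set d : V → ℕ := fun x => if H.edist v x ≤ r then (H.edist v x).toNat else r + 1 with hd
  have hd1 : ∀ x, d x ≤ r → H.edist v x = d x := by
    intro x hx
    by_cases h1 : H.edist v x ≤ r
    · have : d x = (H.edist v x).toNat := by simp [hd, h1]
      rw [this, ENat.coe_toNat]
      intro h2
      rw [h2] at h1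
      exact absurd h1 (by simp)
    · have : d x = r + 1 := by simp [hd, h1]
      omega
  have hd2 : ∀ x (n : ℕ), H.edist v x = n → n ≤ r → d x = n := by
    intro x n hx hn
    have h1 : H.edist v x ≤ r := by rw [hx]; exact_mod_cast hn
    have : d x = (H.edist v x).toNat := by simp [hd, h1]
    rw [this, hx]; simp
  have hadj : ∀ x y, H.Adj x y → H.edist v y ≤ H.edist v x + 1 := by
    intro x y hxy
    have := H.edist_triangle (u := v) (v := x) (w := y)
    rwa [SimpleGraph.edist_eq_one_iff_adj.2 hxy] at this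
  have hreach : ∀ x, d x ≤ r → H.Reachable v x := by
    intro x hx
    apply SimpleGraph.reachable_of_edist_ne_top
    rw [hd1 x hx]
    exact ENat.coe_ne_top _
  have hdist : ∀ x, d x ≤ r → H.dist v x = d x := by
    intro x hx
    have := (hreach x hx).coe_dist_eq_edist
    rw [hd1 x hx] at this
    exact_mod_cast this
  -- shortest paths
  have hpath : ∀ x, d x ≤ r → ∃ P : H.Walk v x, P.IsPath ∧ P.length = d x := by
    intro x hx
    obtain ⟨P, hP, hl⟩ := (hreach x hx).exists_path_of_dist
    exact ⟨P, hP, by rw [hl, hdist x hx]⟩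
  -- existence of parents
  have hpar : ∀ x, 1 ≤ d x → d x ≤ r → ∃ y, H.Adj x y ∧ d y + 1 = d x := by
    intro x h1 h2
    obtain ⟨P, hP, hl⟩ := hpath x h2
    have key : ∀ (P' : H.Walk x v), P'.length = d x → ∃ y, H.Adj x y ∧ d y + 1 = d x := by
      intro P' hl'
      cases P' with
      | nil => simp at hl'; omega
      | @cons _ y _ hxy P'' =>
        rw [SimpleGraph.Walk.length_cons] at hl'
        have e1 : H.edist v y ≤ (P''.length : ℕ∞) := by
          rw [SimpleGraph.edist_comm]; exact SimpleGraph.edist_le P''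
        have e2 : H.edist v x ≤ H.edist v y + 1 := hadj y x hxy.symm
        rw [hd1 x h2, ← hl'] at e2
        have e3 : H.edist v y = (P''.length : ℕ∞) := by
          refine le_antisymm e1 ?_
          have e4 : ((P''.length : ℕ∞) + 1) ≤ H.edist v y + 1 := by exact_mod_cast e2
          exact (ENat.add_le_add_iff_right (by simp)).1 e4
        exact ⟨y, hxy, by rw [hd2 y _ e3 (by omega), hl']⟩
    exact key P.reverse (by simpa using hl)
  -- uniqueness of parents
  have huniq : ∀ x y z, d x ≤ r → H.Adj x y → H.Adj x z → d y + 1 = d x → d z + 1 = d x →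
      y = z := by
    intro x y z hx hxy hxz hy hz
    obtain ⟨P, hP, hPl⟩ := hpath y (by omega)
    obtain ⟨Q, hQ, hQl⟩ := hpath z (by omega)
    have hP' : (P.concat hxy.symm).length = d x := by
      rw [SimpleGraph.Walk.length_concat, hPl, hy]
    have hQ' : (Q.concat hxz.symm).length = d x := by
      rw [SimpleGraph.Walk.length_concat, hQl, hz]
    have e := path_eq_of_lt_egirth (P.concat hxy.symm) (Q.concat hxz.symm)
      (SimpleGraph.Walk.isPath_of_length_eq_dist _ (by rw [hP', hdist x hx]))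
      (SimpleGraph.Walk.isPath_of_length_eq_dist _ (by rw [hQ', hdist x hx]))
      (lt_of_le_of_lt (by rw [hP', hQ']; exact_mod_cast (by omega)) h)
    have := congrArg SimpleGraph.Walk.penultimate e
    simpa using this
  -- no edges inside an inner layer
  have hlayer : ∀ x y, d x < r → H.Adj x y → d x ≠ d y := by
    intro x y hx hxy hdxy
    obtain ⟨P, hP, hPl⟩ := hpath x (by omega)
    obtain ⟨Q, hQ, hQl⟩ := hpath y (by omega)
    have hy : y ∉ P.support := by
      intro hy
      have h1 := SimpleGraph.Walk.length_takeUntil_lt hy hxy.ne'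
      have h2 := SimpleGraph.dist_le (P.takeUntil y hy)
      rw [hdist y (by omega)] at h2
      omega
    have e := path_eq_of_lt_egirth (P.concat hxy) Q (hP.concat hy hxy) hQ
      (lt_of_le_of_lt (by
        rw [SimpleGraph.Walk.length_concat, hPl, hQl]; exact_mod_cast (by omega)) h)
    have := congrArg SimpleGraph.Walk.length e
    rw [SimpleGraph.Walk.length_concat, hPl, hQl] at this
    omega
  set p : V → V := fun x => if hx : ∃ y, H.Adj x y ∧ d y + 1 = d x then hx.choose else x with hp
  have hpspec : ∀ x, (∃ y, H.Adj x y ∧ d y + 1 = d x) → H.Adj x (p x) ∧ d (p x) + 1 = d x := by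
    intro x hx
    have : p x = hx.choose := by simp [hp, hx]
    rw [this]
    exact hx.choose_spec
  refine ⟨d, p, ⟨?_, ?_, ?_⟩, hreach⟩
  · intro x
    constructor
    · intro hx
      have := hd1 x (by omega)
      rw [hx] at this
      exact (SimpleGraph.edist_eq_zero_iff.1 (by exact_mod_cast this)).symm
    · rintro rfl
      exact hd2 x 0 (by simp) (by omega)
  · intro x h1 h2
    exact hpspec x (hpar x h1 h2)
  · intro x y hxy hx
    have e1 : H.edist v y ≤ ((d x + 1 : ℕ) : ℕ∞) := by
      have := hadj x y hxy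
      rw [hd1 x hx.le] at this
      exact_mod_cast this
    have hy : d y ≤ r ∧ d y ≤ d x + 1 := by
      have h1 : H.edist v y ≠ ⊤ := by
        intro h2
        rw [h2] at e1
        exact absurd e1 (by simp)
      obtain ⟨n, hn⟩ := ENat.ne_top_iff_exists.1 h1
      rw [← hn] at e1
      have e2 : n ≤ d x + 1 := by exact_mod_cast e1
      have := hd2 y n hn.symm (by omega)
      omega
    have hxy' : d x ≤ d y + 1 := by
      have := hadj y x hxy.symm
      rw [hd1 x hx.le, hd1 y hy.1] at this
      exact_mod_cast this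
    have hne := hlayer x y hx hxy
    rcases lt_or_gt_of_ne hne with h1 | h1
    · left
      have h2 : d y = d x + 1 := by omega
      refine ⟨h2, ?_⟩
      have h3 := hpspec y ⟨x, hxy.symm, by omega⟩
      exact huniq y (p y) x (by omega) h3.1 hxy.symm h3.2 (by omega)
    · right
      have h2 : d x = d y + 1 := by omega
      refine ⟨h2, ?_⟩
      have h3 := hpspec x ⟨y, hxy, by omega⟩
      exact huniq x (p x) y (by omega) h3.1 hxy h3.2 (by omega)

/-- **Local recolouring.**  If `H` has girth more than `6 t` and is not `(0,k)`-colourable, but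
`H` minus the edges at the vertex `v` is, then at least `k ^ t` vertices are reachable from
`v`. -/
theorem pow_le_card_of_critical (H : SimpleGraph V) (v : V) (k t : ℕ) (ht : 1 ≤ t)
    (hg : ((6 * t : ℕ) : ℕ∞) < H.egirth) (S : Set V) (hS : IsZeroKOff H v k S)
    (hno : ¬ ∃ S, IsZeroK H k S) : k ^ t ≤ {x | H.Reachable v x}.ncard := by
  obtain ⟨d, p, hL, hr⟩ := exists_layering H v (3 * t) (by
    refine lt_of_le_of_lt ?_ hg
    exact_mod_cast (by omega))
  have hb : ¬ B1 H k S d p (3 * t) v := fun hb =>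
    hno ⟨_, recolor (by omega) hL hS hb⟩
  have hdv : d v = 0 := (hL.zero v).2 rfl
  refine le_trans (count hL hS t v (by omega) hb) (Set.ncard_le_ncard ?_ (Set.toFinite _))
  rintro y ⟨j, h1, h2, h3⟩
  exact hr y h2

end bfs

end Pool.Agent.Helper60
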