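import Mathlib
import Pool.Agent.Helper60.SurfaceDefs
import Pool.Agent.Helper60.Embedding
import Pool.Agent.Helper60.Recolor

/-!
# Critical graphs for `(0,k)`-colouring on surfaces

Auxiliary file for `MP_9b9b31_co`.
-/

open Classical

set_option linter.unusedSectionVars false
set_option linter.unusedVariables false

namespace Pool.Agent.Helper60

variable {V : Type*} [Fintype V]

/-- In a critical graph every vertex of degree at most `k` has two neighbours, one of which has
degree at least `k + 1`. -/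
lemma crit {H : SimpleGraph V} {k : ℕ} {v : V} {S : Set V} (hS : IsZeroKOff H v k S)
    (hno : ¬ ∃ S, IsZeroK H k S) (hd : H.degree v ≤ k) :
    ∃ w1 w2, H.Adj v w1 ∧ H.Adj v w2 ∧ w1 ≠ w2 ∧ k + 1 ≤ H.degree w2 := by
  have h1 : ∃ w1, H.Adj v w1 ∧ w1 ∈ S := by
    by_contra hcon
    push Not at hcon
    apply hno
    refine ⟨insert v S, ?_, ?_⟩
    · rintro u (rfl | hu) w (rfl | hw) huw
      · exact H.loopless.irrefl _ huw
      · exact hcon w huw hw
      · exact hcon u huw.symm hu
      · by_cases huv : u = v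
        · subst huv; exact hcon w huw hw
        · by_cases hwv : w = v
          · subst hwv; exact hcon u huw.symm hu
          · exact hS.1 u hu w hw huv hwv huw
    · intro u hu
      have hu' : u ≠ v ∧ u ∉ S := by
        constructor
        · rintro rfl; exact hu (Or.inl rfl)
        · intro h; exact hu (Or.inr h)
      refine le_trans (Set.ncard_le_ncard ?_ (Set.toFinite _)) (hS.2 u hu'.2 hu'.1)
      rintro w ⟨hw, hwS⟩
      refine ⟨hw, ?_, ?_⟩
      · rintro rfl; exact hwS (Or.inl rfl)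
      · intro h; exact hwS (Or.inr h)
  obtain ⟨w1, hw1, hw1S⟩ := h1
  have h2 : ¬ IsZeroK H k (S \ {v}) := fun h => hno ⟨_, h⟩
  have h3 : ∃ u, u ∉ S \ {v} ∧ k < {w | H.Adj u w ∧ w ∉ S \ {v}}.ncard := by
    by_contra hcon
    push Not at hcon
    apply h2
    refine ⟨?_, hcon⟩
    rintro u ⟨hu, huv⟩ w ⟨hw, hwv⟩ huw
    exact hS.1 u hu w hw huv hwv huw
  obtain ⟨u, hu, hk⟩ := h3
  have huv : u ≠ v := by
    rintro rfl
    have h4 : insert w1 {w | H.Adj u w ∧ w ∉ S \ {u}} ⊆ H.neighborSet u := by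
      rintro w (rfl | hw)
      · exact hw1
      · exact hw.1
    have h5 : w1 ∉ {w | H.Adj u w ∧ w ∉ S \ {u}} := by
      rintro ⟨_, h⟩
      exact h ⟨hw1S, fun h => by
        have h' : w1 = u := h
        exact hw1.ne h'.symm⟩
    have h6 := Set.ncard_le_ncard h4 (Set.toFinite _)
    rw [Set.ncard_insert_of_notMem h5] at h6
    have h7 : (H.neighborSet u).ncard = H.degree u := by
      rw [Set.ncard_eq_toFinset_card']
      rfl
    omega
  have huS : u ∉ S := fun h => hu ⟨h, huv⟩
  have hold := hS.2 u huS huv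
  have hadj : H.Adj v u := by
    by_contra hcon
    have : {w | H.Adj u w ∧ w ∉ S \ {v}} ⊆ {w | H.Adj u w ∧ w ≠ v ∧ w ∉ S} := by
      rintro w ⟨hw, hwS⟩
      have hwv : w ≠ v := by rintro rfl; exact hcon hw.symm
      exact ⟨hw, hwv, fun h => hwS ⟨h, hwv⟩⟩
    have := Set.ncard_le_ncard this (Set.toFinite _)
    omega
  refine ⟨w1, u, hw1, hadj, ?_, ?_⟩
  · rintro rfl; exact huS hw1S
  · have h7 : (H.neighborSet u).ncard = H.degree u := by
      rw [Set.ncard_eq_toFinset_card']
      rfl
    have h8 : {w | H.Adj u w ∧ w ∉ S \ {v}} ⊆ H.neighborSet u := fun w hw => hw.1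
    have := Set.ncard_le_ncard h8 (Set.toFinite _)
    omega

/-- A graph of girth at least `l > 6 t`, `l ≥ 7`, on a surface of Euler genus `g` is
`(0,k)`-colourable if `k ≥ 29` and `28 g < k ^ t`. -/
theorem main_bound (G : SimpleGraph V) (l g k t : ℕ) (hl : 7 ≤ l) (ht : 1 ≤ t) (h6 : 6 * t < l)
    (hk : 29 ≤ k) (hgk : 28 * g < k ^ t) (hG : InGirthGenusClass l g G) :
    ∃ S, IsZeroK G k S := by
  by_contra hno
  obtain ⟨hgirth, hemb⟩ := hG
  rcases hemb with hV | ⟨G', hGG', hconn, Sch, hχ⟩
  · exact hno ⟨∅, fun u => (hV.false u).elim, fun u => (hV.false u).elim⟩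
  -- a minimal non-colourable subgraph
  have hex : ∃ n : ℕ, ∃ H : SimpleGraph V, H ≤ G ∧ (¬ ∃ S, IsZeroK H k S) ∧
      H.edgeSet.ncard = n := ⟨_, G, le_rfl, hno, rfl⟩
  obtain ⟨H, hHG, hHno, hHn⟩ := Nat.find_spec hex
  have hmin : ∀ H' : SimpleGraph V, H' ≤ G → H'.edgeSet.ncard < H.edgeSet.ncard →
      ∃ S, IsZeroK H' k S := by
    intro H' hH' hlt
    by_contra hcon
    exact Nat.find_min hex (m := H'.edgeSet.ncard) (by rw [← hHn]; exact hlt)
      ⟨H', hH', hcon, rfl⟩
  have hgH : (l : ℕ∞) ≤ H.egirth := hgirth.trans (SimpleGraph.egirth_anti hHG)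
  have hoff : ∀ v ∈ H.support, ∃ S, IsZeroKOff H v k S := by
    rintro v ⟨w, hvw⟩
    have hle := H.deleteIncidenceSet_le v
    obtain ⟨S, hS⟩ := hmin (H.deleteIncidenceSet v) (hle.trans hHG) (by
      refine Set.ncard_lt_ncard ?_ (Set.toFinite _)
      refine ⟨SimpleGraph.edgeSet_mono hle, fun h => ?_⟩
      have h1 : s(v, w) ∈ (H.deleteIncidenceSet v).edgeSet := h hvw
      rw [SimpleGraph.mem_edgeSet, SimpleGraph.deleteIncidenceSet_adj] at h1
      exact h1.2.1 rfl)
    refine ⟨S, ?_, ?_⟩
    · intro u hu w hw huv hwv huw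
      refine hS.1 u hu w hw ?_
      rw [SimpleGraph.deleteIncidenceSet_adj]
      exact ⟨huw, huv, hwv⟩
    · intro u hu huv
      refine le_trans (Set.ncard_le_ncard ?_ (Set.toFinite _)) (hS.2 u hu)
      rintro w ⟨hw, hwv, hwS⟩
      refine ⟨?_, hwS⟩
      rw [SimpleGraph.deleteIncidenceSet_adj]
      exact ⟨hw, huv, hwv⟩
  -- `H` has an edge
  have hedge : ∃ a b, H.Adj a b := by
    by_contra hcon
    push Not at hcon
    exact hHno ⟨Set.univ, fun u _ w _ => hcon u w, fun u hu => absurd (Set.mem_univ u) hu⟩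
  -- low and high vertices
  set Hi : Finset V := Finset.univ.filter fun v => k + 1 ≤ H.degree v with hHi
  set Lo : Finset V := Finset.univ.filter fun v => v ∈ H.support ∧ H.degree v ≤ k with hLo
  have hlow : ∀ v ∈ Lo, 2 ≤ H.degree v ∧ ∃ w ∈ Hi, H.Adj w v := by
    intro v hv
    rw [hLo, Finset.mem_filter] at hv
    obtain ⟨S, hS⟩ := hoff v hv.2.1
    obtain ⟨w1, w2, h1, h2, h3, h4⟩ := crit hS hHno hv.2.2
    refine ⟨?_, w2, by rw [hHi, Finset.mem_filter]; exact ⟨Finset.mem_univ _, h4⟩, h2.symm⟩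
    have : ({w1, w2} : Finset V) ⊆ H.neighborFinset v := by
      intro w hw
      rw [Finset.mem_insert, Finset.mem_singleton] at hw
      rw [SimpleGraph.mem_neighborFinset]
      rcases hw with rfl | rfl
      · exact h1
      · exact h2
    have := Finset.card_le_card this
    rwa [Finset.card_pair h3, SimpleGraph.card_neighborFinset_eq_degree] at this
  have hdisj : Disjoint Hi Lo := by
    rw [Finset.disjoint_left]
    intro v h1 h2
    rw [hHi, Finset.mem_filter] at h1
    rw [hLo, Finset.mem_filter] at h2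
    omega
  have hsupp : H.support.ncard = Hi.card + Lo.card := by
    rw [← Finset.card_union_of_disjoint hdisj, ← Set.ncard_coe_finset]
    congr 1
    ext v
    simp only [Finset.coe_union, Set.mem_union, Finset.mem_coe, hHi, hLo, Finset.mem_filter,
      Finset.mem_univ, true_and]
    constructor
    · intro hv
      rcases Nat.lt_or_ge k (H.degree v) with h | h
      · left; exact h
      · right; exact ⟨hv, h⟩
    · rintro (h | h)
      · have : 0 < H.degree v := by omega
        rw [SimpleGraph.degree_pos_iff_exists_adj] at this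
        exact this
      · exact h.1
  have hsum : ∑ v ∈ Hi, H.degree v + 2 * Lo.card ≤ 2 * H.edgeSet.ncard := by
    have h1 : H.edgeSet.ncard = H.edgeFinset.card := by
      rw [Set.ncard_eq_toFinset_card']; rfl
    rw [h1, ← SimpleGraph.sum_degrees_eq_twice_card_edges]
    calc ∑ v ∈ Hi, H.degree v + 2 * Lo.card ≤ ∑ v ∈ Hi, H.degree v + ∑ v ∈ Lo, H.degree v := by
          have : ∑ v ∈ Lo, 2 ≤ ∑ v ∈ Lo, H.degree v :=
            Finset.sum_le_sum fun v hv => (hlow v hv).1
          rw [Finset.sum_const, smul_eq_mul] at this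
          omega
      _ = ∑ v ∈ Hi ∪ Lo, H.degree v := (Finset.sum_union hdisj).symm
      _ ≤ ∑ v, H.degree v := Finset.sum_le_sum_of_subset (Finset.subset_univ _)
  have hLoHi : Lo.card ≤ ∑ v ∈ Hi, H.degree v := by
    have h1 : Lo ⊆ Hi.biUnion fun w => H.neighborFinset w := by
      intro v hv
      obtain ⟨w, hw, hadj⟩ := (hlow v hv).2
      rw [Finset.mem_biUnion]
      exact ⟨w, hw, by rw [SimpleGraph.mem_neighborFinset]; exact hadj⟩
    refine (Finset.card_le_card h1).trans (Finset.card_biUnion_le.trans ?_)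
    exact Finset.sum_le_sum fun v _ => le_of_eq (H.card_neighborFinset_eq_degree v)
  have hHik : 30 * Hi.card ≤ ∑ v ∈ Hi, H.degree v := by
    have : ∑ v ∈ Hi, 30 ≤ ∑ v ∈ Hi, H.degree v := by
      refine Finset.sum_le_sum fun v hv => ?_
      rw [hHi, Finset.mem_filter] at hv
      omega
    rw [Finset.sum_const, smul_eq_mul] at this
    omega
  -- the Euler type inequality
  obtain ⟨f, hf1, hf2⟩ := euler_inequality Sch (hHG.trans hGG') hconn g l hχ hgH hedge
  have hf3 : 5 * H.edgeSet.ncard ≤ 7 * (H.support.ncard + g) := by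
    rcases hf2 with h | h
    · omega
    · have : 7 * f ≤ l * f := Nat.mul_le_mul_right _ hl
      omega
  have hn : H.support.ncard ≤ 28 * g := by omega
  -- the recolouring bound
  obtain ⟨a, b, hab⟩ := hedge
  have ha : a ∈ H.support := ⟨b, hab⟩
  obtain ⟨S, hS⟩ := hoff a ha
  have hpow := pow_le_card_of_critical H a k t ht
    (lt_of_lt_of_le (by exact_mod_cast h6) hgH) S hS hHno
  have hsub : {x | H.Reachable a x} ⊆ H.support := by
    intro x hx
    by_contra hxs
    have := reachable_of_isolated hxs (SimpleGraph.Reachable.symm hx)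
    exact hxs (this ▸ ha)
  have := Set.ncard_le_ncard hsub (Set.toFinite _)
  omega

end Pool.Agent.Helper60
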