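import Pool.Agent.Helper60.GPProb

set_option autoImplicit false

namespace Pool.Agent.Helper60.GP

open Finset
open scoped Classical

noncomputable section

theorem exists_t0 (A C : ℝ) : ∃ t0 : ℝ, 2 ≤ t0 ∧ ∀ t, t0 ≤ t →
    A * (50 * Real.log t) + 1 ≤ t ∧ 10537600 * C ≤ t ^ 5 ∧ (936 : ℝ) ≤ t ^ 8 := by
  have h1 : ∀ᶠ t : ℝ in Filter.atTop, A * (50 * Real.log t) + 1 ≤ t := by
    have hlo := Real.isLittleO_log_id_atTop
    have h2 := hlo.def (c := 1 / (100 * (|A| + 1))) (by positivity)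
    filter_upwards [h2, Filter.eventually_ge_atTop (2:ℝ)] with t ht ht2
    have hlog : 0 ≤ Real.log t := Real.log_nonneg (by linarith)
    rw [Real.norm_eq_abs, abs_of_nonneg hlog, id, Real.norm_eq_abs,
      abs_of_nonneg (by linarith : (0:ℝ) ≤ t)] at ht
    have h3 : A * (50 * Real.log t) ≤ (|A| + 1) * (50 * Real.log t) :=
      mul_le_mul_of_nonneg_right (by linarith [le_abs_self A]) (by positivity)
    have h4 : (|A| + 1) * (50 * Real.log t) ≤ t / 2 := by
      have h5 : (|A| + 1) * (50 * Real.log t) ≤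
          (|A| + 1) * (50 * (1 / (100 * (|A| + 1)) * t)) :=
        mul_le_mul_of_nonneg_left (by linarith) (by positivity)
      refine h5.trans (le_of_eq ?_)
      field_simp
      norm_num
    linarith
  have h2 : ∀ᶠ t : ℝ in Filter.atTop, 10537600 * C ≤ t ^ 5 :=
    (Filter.tendsto_pow_atTop (by norm_num)).eventually_ge_atTop _
  have h3 : ∀ᶠ t : ℝ in Filter.atTop, (936 : ℝ) ≤ t ^ 8 :=
    (Filter.tendsto_pow_atTop (by norm_num)).eventually_ge_atTop _
  obtain ⟨t0, ht0⟩ := Filter.eventually_atTop.1 (h1.and (h2.and h3))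
  exact ⟨max t0 2, le_max_right _ _, fun t ht => ht0 t ((le_max_left _ _).trans ht)⟩

set_option maxHeartbeats 4000000 in
theorem step1_abs (A : ℝ) (hA : 0 ≤ A) : ∃ C s0 : ℝ, 0 < C ∧ 1 ≤ s0 ∧ ∀ s : ℝ, s0 ≤ s →
    ∀ (m : ℕ) (L : ℕ → ℕ → Finset ℕ),
    (∀ x y, x < m → y < m → x ≠ y → x ∈ L x y ∧ y ∈ L x y) →
    (∀ x y, L x y ⊆ range m) → (∀ x y, L x y = L y x) →
    (∀ x y z, x < m → y < m → x ≠ y → z ∈ L x y → z ≠ x → L x z = L x y) →
    (m : ℝ) ≤ s ^ 2 → (∀ x y, x < m → y < m → x ≠ y → ((L x y).card : ℝ) ≤ s) →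
    (∀ v, v < m → ∑ x ∈ range v, (cnt (L x v) v - 1) ≤ A * s ^ 2 * Real.log s) →
    ∀ w : ℕ → ℝ, (∀ v, 0 ≤ w v) → ∃ S : Finset ℕ, S ⊆ range m ∧
      (∀ x y, x < m → y < m → x ≠ y → (S ∩ L x y).card ≤ 2) ∧
      ∑ v ∈ range m, w v ≤ C * s * ∑ v ∈ S, w v := by
  set C : ℝ := 20 + 4800 * A with hC
  have hC20 : 20 ≤ C := by linarith
  obtain ⟨t0, ht02, ht0⟩ := exists_t0 A C
  refine ⟨2 * C, t0 ^ 50, by linarith, one_le_pow₀ (by linarith), ?_⟩
  intro s hs m L hmem hsub hsymm huniq hm hcard hW w hw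
  have hs0pos : (0:ℝ) < t0 ^ 50 := by positivity
  have hspos : 0 < s := lt_of_lt_of_le hs0pos hs
  set t : ℝ := s ^ ((1:ℝ) / 50) with ht
  have htpow : t ^ 50 = s := by
    rw [ht, ← Real.rpow_natCast, ← Real.rpow_mul hspos.le]; norm_num
  have htt0 : t0 ≤ t := by
    have : t0 ^ 50 ≤ t ^ 50 := by rw [htpow]; exact hs
    exact le_of_pow_le_pow_left₀ (by norm_num) (Real.rpow_nonneg hspos.le _) this
  obtain ⟨hc1, hc2, hc3⟩ := ht0 t htt0
  have ht2 : 2 ≤ t := ht02.trans htt0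
  have htpos : 0 < t := by linarith
  have ht1 : 1 ≤ t := by linarith
  have hlogs : Real.log s = 50 * Real.log t := by
    rw [← htpow, Real.log_pow]; norm_num
  have hlogt : 0 < Real.log t := Real.log_pos (by linarith)
  have hK : 0 < C * t ^ 50 := by positivity
  set p : Par := ⟨m, L, C * t ^ 50, t, 3 / 20⟩ with hp
  have hG : G p = t / (C * t ^ 50) := rfl
  have hG' : G p = 1 / (C * t ^ 49) := by
    rw [hG]; field_simp
  have hG49 : G p ≤ 1 / t ^ 49 := by
    rw [hG']
    apply one_div_le_one_div_of_le (by positivity)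
    nlinarith [pow_pos htpos 49]
  have hgood : Good p := by
    refine ⟨hmem, hsub, hsymm, huniq, hK, ht1, ?_, by norm_num [hp], ?_⟩
    · show t / (C * t ^ 50) ≤ 1 / 2
      have : t / (C * t ^ 50) = G p := rfl
      rw [this]
      refine hG49.trans ?_
      apply one_div_le_one_div_of_le (by norm_num)
      calc (2:ℝ) ≤ t := ht2
        _ = t ^ 1 := (pow_one t).symm
        _ ≤ t ^ 49 := pow_le_pow_right₀ ht1 (by norm_num)
    · show Real.exp (4 * (3 / 20)) ≤ 2
      have h1 : Real.exp (4 * (3 / 20)) ≤ 1 / (1 - 4 * (3 / 20) / 2) ^ 2 := by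
        have h2 : Real.exp (4 * (3 / 20) / 2) ≤ 1 / (1 - 4 * (3 / 20) / 2) :=
          Real.exp_bound_div_one_sub_of_interval (by norm_num) (by norm_num)
        have h3 : Real.exp (4 * (3 / 20)) = Real.exp (4 * (3 / 20) / 2) ^ 2 := by
          rw [sq, ← Real.exp_add]; ring_nf
        rw [h3, ← one_div_pow]
        exact pow_le_pow_left₀ (Real.exp_nonneg _) h2 2
      have h4 : Real.exp (4 * (3 / 20)) = Real.exp (4 * (3 / 20) / 4) ^ 4 := by
        rw [← Real.exp_nat_mul]; norm_num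
      have h2 : Real.exp (4 * (3 / 20) / 4) ≤ 1 / (1 - 4 * (3 / 20) / 4) :=
        Real.exp_bound_div_one_sub_of_interval (by norm_num) (by norm_num)
      rw [h4]
      refine (pow_le_pow_left₀ (Real.exp_nonneg _) h2 4).trans ?_
      norm_num
  -- the sums
  have hcnt1 : ∀ v, v < m → ∑ x ∈ range v, cnt (L x v) v ≤ t ^ 101 := by
    intro v hv
    have h1 := hW v hv
    rw [sum_sub_distrib, sum_const, card_range, nsmul_eq_mul, mul_one] at h1
    have h2 : (v : ℝ) ≤ s ^ 2 := by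
      refine le_trans ?_ hm
      exact_mod_cast hv.le
    rw [hlogs] at h1
    have h3 : s ^ 2 = t ^ 100 := by rw [← htpow]; ring
    rw [h3] at h1 h2
    have h4 : t ^ 100 * (A * (50 * Real.log t) + 1) ≤ t ^ 100 * t :=
      mul_le_mul_of_nonneg_left hc1 (by positivity)
    calc _ ≤ A * t ^ 100 * (50 * Real.log t) + v := by linarith
      _ ≤ A * t ^ 100 * (50 * Real.log t) + t ^ 100 := by linarith
      _ = t ^ 100 * (A * (50 * Real.log t) + 1) := by ring
      _ ≤ t ^ 100 * t := h4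
      _ = t ^ 101 := by ring
  have hcnt2 : ∀ v, v < m → ∑ x ∈ range v, cnt (L x v) x ≤
      A * t ^ 100 * (50 * Real.log t) := by
    intro v hv
    have h1 := hW v hv
    rw [hlogs] at h1
    have h3 : s ^ 2 = t ^ 100 := by rw [← htpow]; ring
    rw [h3] at h1
    refine le_trans ?_ h1
    refine sum_le_sum fun x hx => ?_
    rw [mem_range] at hx
    have hxl : x ∈ L x v := (hmem x v (by omega) hv (by omega)).1
    have h4 : (L x v ∩ range x).card + 1 ≤ (L x v ∩ range v).card := by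
      have h5 : insert x (L x v ∩ range x) ⊆ L x v ∩ range v := by
        refine insert_subset (mem_inter.2 ⟨hxl, by simpa using hx⟩) ?_
        exact inter_subset_inter_left (range_subset_range.2 hx.le)
      have h6 : x ∉ L x v ∩ range x := by simp
      rw [← card_insert_of_notMem h6]
      exact card_le_card h5
    have h7 : ((L x v ∩ range x).card : ℝ) + 1 ≤ ((L x v ∩ range v).card : ℝ) := by
      exact_mod_cast h4
    unfold cnt; linarith
  set Q : ℝ := 3 * t ^ 136 with hQdef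
  have hQ : ∀ u v i, u < p.m → v < p.m → u ≠ v → i ≤ u → i ≤ v → cod p i u v ≤ Q := by
    intro u v i hu hv huv hiu hiv
    have h1 := cod_le hgood (D := t ^ 101) (τ := t ^ 33) (by positivity) hu hv huv hiu hiv
      (hcnt1 u hu) (hcnt1 v hv)
    refine h1.trans ?_
    have h2 : t ^ 101 / t ^ 33 = t ^ 68 := by field_simp
    rw [h2, hQdef]
    have h3 : t ^ 134 ≤ t ^ 136 := pow_le_pow_right₀ ht1 (by norm_num)
    calc 2 * t ^ 33 * t ^ 101 + (t ^ 68) ^ 2 = 2 * t ^ 134 + t ^ 136 := by ring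
      _ ≤ _ := by linarith
  have hprob : ∀ v, v < p.m → 1 / (2 * (C * t ^ 50)) ≤ Ex p v (q p v) := by
    intro v hv
    have h1 := prob_lower hgood (by show (1:ℝ) < t; linarith) (Q := Q) (s := s) (δ := 1 / 10)
      (D := t ^ 101) (N := A * t ^ 100 * (50 * Real.log t)) (by positivity) hspos.le hQ
      (by
        rintro l ⟨x, y, hx, hy, hxy, rfl⟩
        exact hcard x y hx hy hxy) (by norm_num)
      (by
        show s / (C * t ^ 50) + 1 / 10 ≤ 3 / 20
        rw [htpow]
        have : s / (C * s) = 1 / C := by field_simp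
        rw [this]
        have : 1 / C ≤ 1 / 20 := one_div_le_one_div_of_le (by norm_num) hC20
        linarith) hv (hcnt1 v hv) (hcnt2 v hv)
    refine le_trans ?_ h1
    show 1 / (2 * (C * t ^ 50)) ≤ 1 / (C * t ^ 50) - 2 * G p * ((2 * G p / (3 / 20)) ^ 2 * t ^ 101 *
        ((1 / (1 / 10) ^ 2) * (s ^ 2 * (24 * G p ^ 5 * Q) + s * (2 * G p / (C * t ^ 50)))))
      - (2 / Real.log t) * (4 * (A * t ^ 100 * (50 * Real.log t)) *
        (2 * (1 / (C * t ^ 50)) ^ 3 + 312 * G p ^ 6 * Q))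
    have hG0 : 0 ≤ G p := G_nonneg hgood
    -- R2
    have hR2 : 2 * G p * ((2 * G p / (3 / 20)) ^ 2 * t ^ 101 *
        ((1 / (1 / 10) ^ 2) * (s ^ 2 * (24 * G p ^ 5 * Q) + s * (2 * G p / (C * t ^ 50))))) ≤
        1 / (4 * (C * t ^ 50)) := by
      have e1 : s ^ 2 * (24 * G p ^ 5 * Q) ≤ 72 / t ^ 9 := by
        have : G p ^ 5 ≤ (1 / t ^ 49) ^ 5 := pow_le_pow_left₀ hG0 hG49 5
        calc s ^ 2 * (24 * G p ^ 5 * Q) = (72 * t ^ 236) * G p ^ 5 := by
              rw [hQdef, ← htpow]; ring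
          _ ≤ (72 * t ^ 236) * (1 / t ^ 49) ^ 5 :=
              mul_le_mul_of_nonneg_left this (by positivity)
          _ = 72 / t ^ 9 := by field_simp
      have e2 : s * (2 * G p / (C * t ^ 50)) ≤ 2 / t ^ 9 := by
        have h3 : G p / (C * t ^ 50) ≤ (1 / t ^ 49) / t ^ 50 := by
          apply div_le_div₀ (by positivity) hG49 (by positivity)
          nlinarith [pow_pos htpos 50]
        have h4 : s * (2 * G p / (C * t ^ 50)) = 2 * t ^ 50 * (G p / (C * t ^ 50)) := by
          rw [← htpow]; ring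
        rw [h4]
        calc 2 * t ^ 50 * (G p / (C * t ^ 50)) ≤ 2 * t ^ 50 * ((1 / t ^ 49) / t ^ 50) :=
              mul_le_mul_of_nonneg_left h3 (by positivity)
          _ = 2 / t ^ 49 := by field_simp
          _ ≤ 2 / t ^ 9 := by
              apply div_le_div_of_nonneg_left (by norm_num) (by positivity)
              exact pow_le_pow_right₀ ht1 (by norm_num)
      have e3 : G p ^ 3 ≤ (1 / t ^ 49) ^ 3 := pow_le_pow_left₀ hG0 hG49 3
      have e4 : s ^ 2 * (24 * G p ^ 5 * Q) + s * (2 * G p / (C * t ^ 50)) ≤ 74 / t ^ 9 := by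
        calc _ ≤ 72 / t ^ 9 + 2 / t ^ 9 := add_le_add e1 e2
          _ = _ := by ring
      have e5 : 0 ≤ s ^ 2 * (24 * G p ^ 5 * Q) + s * (2 * G p / (C * t ^ 50)) := by positivity
      calc 2 * G p * ((2 * G p / (3 / 20)) ^ 2 * t ^ 101 *
          ((1 / (1 / 10) ^ 2) * (s ^ 2 * (24 * G p ^ 5 * Q) + s * (2 * G p / (C * t ^ 50)))))
          = (320000 / 9 * t ^ 101) * (G p ^ 3 *
            (s ^ 2 * (24 * G p ^ 5 * Q) + s * (2 * G p / (C * t ^ 50)))) := by ring
        _ ≤ (320000 / 9 * t ^ 101) * ((1 / t ^ 49) ^ 3 * (74 / t ^ 9)) := by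
            apply mul_le_mul_of_nonneg_left _ (by positivity)
            exact mul_le_mul e3 e4 e5 (by positivity)
        _ = (23680000 / 9) / t ^ 55 := by field_simp; norm_num
        _ ≤ 1 / (4 * (C * t ^ 50)) := by
            rw [div_le_div_iff₀ (by positivity) (by positivity)]
            have h55 : t ^ 55 = t ^ 50 * t ^ 5 := by ring
            rw [h55]
            have := mul_le_mul_of_nonneg_left hc2 (by positivity : (0:ℝ) ≤ t ^ 50)
            have hCt : 0 ≤ C * t ^ 50 := by positivity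
            nlinarith
    have hR1 : (2 / Real.log t) * (4 * (A * t ^ 100 * (50 * Real.log t)) *
        (2 * (1 / (C * t ^ 50)) ^ 3 + 312 * G p ^ 6 * Q)) ≤ 1 / (4 * (C * t ^ 50)) := by
      have f1 : 312 * G p ^ 6 * Q ≤ (1 / (C * t ^ 50)) ^ 3 := by
        have : 312 * G p ^ 6 * Q = (1 / (C * t ^ 50)) ^ 3 * (936 / (C ^ 3 * t ^ 8)) := by
          rw [hG, hQdef]; field_simp; norm_num
        rw [this]
        have h2 : 936 / (C ^ 3 * t ^ 8) ≤ 1 := by
          rw [div_le_one (by positivity)]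
          have hC3 : 1 ≤ C ^ 3 := one_le_pow₀ (by linarith)
          nlinarith [pow_pos htpos 8]
        calc _ ≤ (1 / (C * t ^ 50)) ^ 3 * 1 := mul_le_mul_of_nonneg_left h2 (by positivity)
          _ = _ := by ring
      have f2 : 2 * (1 / (C * t ^ 50)) ^ 3 + 312 * G p ^ 6 * Q ≤ 3 * (1 / (C * t ^ 50)) ^ 3 := by
        linarith
      have f3 : (2 / Real.log t) * (4 * (A * t ^ 100 * (50 * Real.log t)) *
          (2 * (1 / (C * t ^ 50)) ^ 3 + 312 * G p ^ 6 * Q)) =
          400 * A * t ^ 100 * (2 * (1 / (C * t ^ 50)) ^ 3 + 312 * G p ^ 6 * Q) := by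
        generalize 2 * (1 / (C * t ^ 50)) ^ 3 + 312 * G p ^ 6 * Q = X
        field_simp; ring
      rw [f3]
      calc 400 * A * t ^ 100 * (2 * (1 / (C * t ^ 50)) ^ 3 + 312 * G p ^ 6 * Q)
          ≤ 400 * A * t ^ 100 * (3 * (1 / (C * t ^ 50)) ^ 3) :=
            mul_le_mul_of_nonneg_left f2 (by positivity)
        _ = (1200 * A / C ^ 2) * (1 / (C * t ^ 50)) := by
            have hCne : C ≠ 0 := by linarith
            field_simp; ring
        _ ≤ (1 / 4) * (1 / (C * t ^ 50)) := by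
            apply mul_le_mul_of_nonneg_right _ (by positivity)
            have hC2 : 20 * C ≤ C ^ 2 := by rw [sq]; exact mul_le_mul_of_nonneg_right hC20 (by linarith)
            rw [div_le_div_iff₀ (by positivity) (by norm_num)]
            linarith
        _ = _ := by rw [one_div_mul_one_div]
    have e6 : 1 / (2 * (C * t ^ 50)) = 1 / (C * t ^ 50) - 1 / (4 * (C * t ^ 50)) -
        1 / (4 * (C * t ^ 50)) := by field_simp; norm_num
    rw [e6]
    linarith
  obtain ⟨S, hS1, hS2, hS3⟩ := exists_set hgood hprob w hw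
  refine ⟨S, hS1, fun x y hx hy hxy => hS2 _ (isLine_L hx hy hxy), ?_⟩
  have h1 : 1 / (2 * (C * t ^ 50)) * ∑ v ∈ range m, w v ≤ ∑ v ∈ S, w v := hS3
  rw [one_div, ← div_eq_inv_mul, div_le_iff₀ (by positivity)] at h1
  rw [htpow] at h1
  calc _ ≤ _ := h1
    _ = _ := by ring

end

end Pool.Agent.Helper60.GP
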