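import Pool.Agent.Helper60.GPMom

set_option autoImplicit false

namespace Pool.Agent.Helper60.GP

open Finset
open scoped Classical

noncomputable section

theorem cnt_mono (l : Finset ℕ) {i j : ℕ} (h : i ≤ j) : cnt l i ≤ cnt l j := by
  unfold cnt
  exact_mod_cast card_le_card (inter_subset_inter_left (range_subset_range.2 h))

/-- the codegree sum is small -/
theorem cod_le {p : Par} (hp : Good p) {D τ : ℝ} (hτ : 0 < τ) {u v i : ℕ} (hu : u < p.m)
    (hv : v < p.m) (huv : u ≠ v) (hiu : i ≤ u) (hiv : i ≤ v)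
    (hDu : ∑ x ∈ range u, cnt (p.L x u) u ≤ D) (hDv : ∑ x ∈ range v, cnt (p.L x v) v ≤ D) :
    cod p i u v ≤ 2 * τ * D + (D / τ) ^ 2 := by
  set J := (range i).filter (fun j => j ∉ p.L u v) with hJ
  set α : ℕ → ℝ := fun j => cnt (p.L j u) i with hα
  set β : ℕ → ℝ := fun j => cnt (p.L j v) i with hβ
  have hα0 : ∀ j, 0 ≤ α j := fun j => cnt_nonneg _ _
  have hβ0 : ∀ j, 0 ≤ β j := fun j => cnt_nonneg _ _
  have hsα : ∑ j ∈ range i, α j ≤ D := by
    refine le_trans ?_ hDu
    calc ∑ j ∈ range i, α j ≤ ∑ j ∈ range i, cnt (p.L j u) u :=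
          sum_le_sum fun j _ => cnt_mono _ hiu
      _ ≤ _ := sum_le_sum_of_subset_of_nonneg (range_subset_range.2 hiu)
          fun _ _ _ => cnt_nonneg _ _
  have hsβ : ∑ j ∈ range i, β j ≤ D := by
    refine le_trans ?_ hDv
    calc ∑ j ∈ range i, β j ≤ ∑ j ∈ range i, cnt (p.L j v) v :=
          sum_le_sum fun j _ => cnt_mono _ hiv
      _ ≤ _ := sum_le_sum_of_subset_of_nonneg (range_subset_range.2 hiv)
          fun _ _ _ => cnt_nonneg _ _
  have h1 : cod p i u v ≤ ∑ j ∈ J, α j * β j := by
    unfold cod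
    refine sum_le_sum fun j hj => ?_
    have hji : j ≤ i := by
      have := (mem_filter.1 hj).1
      rw [mem_range] at this; omega
    exact mul_le_mul (cnt_mono _ hji) (cnt_mono _ hji) (cnt_nonneg _ _) (cnt_nonneg _ _)
  refine h1.trans ?_
  set J3 := J.filter (fun j => τ < α j ∧ τ < β j) with hJ3
  have h2 : ∑ j ∈ J, α j * β j ≤ ∑ j ∈ J, (τ * α j + τ * β j) + ∑ j ∈ J3, α j * β j := by
    have e3 : ∑ j ∈ J3, α j * β j =
        ∑ j ∈ J, if τ < α j ∧ τ < β j then α j * β j else 0 := by
      rw [hJ3, sum_filter (s := J)]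
    rw [e3, ← sum_add_distrib]
    refine sum_le_sum fun j _ => ?_
    have ha := hα0 j
    have hb := hβ0 j
    split_ifs with h
    · have : 0 ≤ τ * α j + τ * β j := by positivity
      linarith
    · rw [not_and_or, not_lt, not_lt] at h
      rcases h with h | h
      · nlinarith [mul_le_mul_of_nonneg_right h hb, mul_nonneg hτ.le ha]
      · nlinarith [mul_le_mul_of_nonneg_left h ha, mul_nonneg hτ.le hb]
  have h3 : ∑ j ∈ J, (τ * α j + τ * β j) ≤ 2 * τ * D := by
    calc ∑ j ∈ J, (τ * α j + τ * β j) ≤ ∑ j ∈ range i, (τ * α j + τ * β j) :=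
          sum_le_sum_of_subset_of_nonneg (filter_subset _ _)
            fun j _ _ => by have ha := hα0 j; have hb := hβ0 j; positivity
      _ = τ * ∑ j ∈ range i, α j + τ * ∑ j ∈ range i, β j := by
          rw [sum_add_distrib, mul_sum, mul_sum]
      _ ≤ τ * D + τ * D :=
          add_le_add (mul_le_mul_of_nonneg_left hsα hτ.le) (mul_le_mul_of_nonneg_left hsβ hτ.le)
      _ = _ := by ring
  -- the rich part
  set A := (range i).filter (fun x => τ < α x) with hA
  set B := (range i).filter (fun x => τ < β x) with hB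
  have hAc : (A.card : ℝ) ≤ D / τ := by
    rw [le_div_iff₀ hτ]
    calc (A.card : ℝ) * τ = ∑ _x ∈ A, τ := by rw [sum_const, nsmul_eq_mul]
      _ ≤ ∑ x ∈ A, α x := sum_le_sum fun x hx => (mem_filter.1 hx).2.le
      _ ≤ ∑ x ∈ range i, α x := sum_le_sum_of_subset_of_nonneg (filter_subset _ _)
          fun j _ _ => hα0 j
      _ ≤ D := hsα
  have hBc : (B.card : ℝ) ≤ D / τ := by
    rw [le_div_iff₀ hτ]
    calc (B.card : ℝ) * τ = ∑ _x ∈ B, τ := by rw [sum_const, nsmul_eq_mul]
      _ ≤ ∑ x ∈ B, β x := sum_le_sum fun x hx => (mem_filter.1 hx).2.le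
      _ ≤ ∑ x ∈ range i, β x := sum_le_sum_of_subset_of_nonneg (filter_subset _ _)
          fun j _ _ => hβ0 j
      _ ≤ D := hsβ
  have h4 : ∑ j ∈ J3, α j * β j ≤ (D / τ) ^ 2 := by
    have hT : (J3.sigma (fun j => (p.L j u ∩ range i) ×ˢ (p.L j v ∩ range i))).card ≤
        (A ×ˢ B).card := by
      apply card_le_card_of_injOn (fun z => z.2)
      · rintro ⟨j, x, y⟩ hz
        simp only [coe_sigma, Set.mem_sigma_iff, mem_coe, mem_product, mem_inter, mem_range] at hz
        obtain ⟨hj, ⟨hx, hxi⟩, hy, hyi⟩ := hz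
        have hj1 := (mem_filter.1 hj)
        have hj2 := (mem_filter.1 hj1.1)
        have hji : j < i := by simpa using hj2.1
        have hjm : j < p.m := by omega
        have hju : j ≠ u := by omega
        have hjv : j ≠ v := by omega
        have eu : p.L x u = p.L j u := line_eq hp (isLine_L hjm hu hju) hx
          (hp.mem j u hjm hu hju).2 (by omega)
        have ev : p.L y v = p.L j v := line_eq hp (isLine_L hjm hv hjv) hy
          (hp.mem j v hjm hv hjv).2 (by omega)
        simp only [coe_product, Set.mem_prod, mem_coe]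
        constructor
        · refine mem_filter.2 ⟨by simpa using hxi, ?_⟩
          show τ < cnt (p.L x u) i
          rw [eu]; exact hj1.2.1
        · refine mem_filter.2 ⟨by simpa using hyi, ?_⟩
          show τ < cnt (p.L y v) i
          rw [ev]; exact hj1.2.2
      · rintro ⟨j, x, y⟩ hz ⟨j', x', y'⟩ hz' heq
        simp only [Prod.mk.injEq] at heq
        obtain ⟨rfl, rfl⟩ := heq
        simp only [coe_sigma, Set.mem_sigma_iff, mem_coe, mem_product, mem_inter, mem_range]
          at hz hz'
        obtain ⟨hj, ⟨hx, hxi⟩, hy, hyi⟩ := hz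
        obtain ⟨hj', ⟨hx', _⟩, hy', _⟩ := hz'
        have hj1 := (mem_filter.1 hj)
        have hj2 := (mem_filter.1 hj1.1)
        have hji : j < i := by simpa using hj2.1
        have hj1' := (mem_filter.1 hj')
        have hj2' := (mem_filter.1 hj1'.1)
        have hji' : j' < i := by simpa using hj2'.1
        have hjm : j < p.m := by omega
        have hju : j ≠ u := by omega
        have hjv : j ≠ v := by omega
        have hjm' : j' < p.m := by omega
        have hju' : j' ≠ u := by omega
        have hjv' : j' ≠ v := by omega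
        have m1 := hp.mem j u hjm hu hju
        have m2 := hp.mem j v hjm hv hjv
        have m1' := hp.mem j' u hjm' hu hju'
        have m2' := hp.mem j' v hjm' hv hjv'
        have lu := isLine_L hjm hu hju
        have lv := isLine_L hjm hv hjv
        have lu' := isLine_L hjm' hu hju'
        have lv' := isLine_L hjm' hv hjv'
        have eu : p.L x u = p.L j u := line_eq hp lu hx m1.2 (by omega)
        have eu' : p.L x u = p.L j' u := line_eq hp lu' hx' m1'.2 (by omega)
        have ev : p.L y v = p.L j v := line_eq hp lv hy m2.2 (by omega)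
        have ev' : p.L y v = p.L j' v := line_eq hp lv' hy' m2'.2 (by omega)
        by_contra hne
        have hjj : j ≠ j' := by
          rintro rfl; exact hne rfl
        have e1 : p.L j j' = p.L j u := line_eq hp lu m1.1 (by rw [← eu, eu']; exact m1'.1) hjj
        have e2 : p.L j j' = p.L j v := line_eq hp lv m2.1 (by rw [← ev, ev']; exact m2'.1) hjj
        have e3 : p.L u v = p.L j u :=
          line_eq hp lu m1.2 (by rw [← e1, e2]; exact m2.2) huv
        exact hj2.2 (e3 ▸ m1.1)
    rw [card_sigma, card_product] at hT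
    have hT' : (∑ j ∈ J3, α j * β j) ≤ (A.card : ℝ) * B.card := by
      have : (∑ j ∈ J3, α j * β j) =
          ((∑ j ∈ J3, ((p.L j u ∩ range i) ×ˢ (p.L j v ∩ range i)).card : ℕ) : ℝ) := by
        rw [Nat.cast_sum]
        refine sum_congr rfl fun j _ => ?_
        rw [card_product, Nat.cast_mul]
        rfl
      rw [this]
      exact_mod_cast hT
    refine hT'.trans ?_
    rw [sq]
    have hA0 : (0:ℝ) ≤ A.card := by positivity
    have hB0 : (0:ℝ) ≤ B.card := by positivity
    exact mul_le_mul hAc hBc hB0 (hA0.trans hAc)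
  linarith

end

end Pool.Agent.Helper60.GP
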