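import Pool.Agent.Helper60.GPProc

set_option autoImplicit false

namespace Pool.Agent.Helper60.GP

open Finset
open scoped Classical

noncomputable section

/-- one step average -/
def av (p : Par) (i : ℕ) (f : St → ℝ) (st : St) : ℝ :=
  q p i st * f (step p i true st) + (1 - q p i st) * f (step p i false st)

/-- expectation of `f` of the state at time `i` -/
def Ex (p : Par) : ℕ → (St → ℝ) → ℝ
  | 0, f => f (init p)
  | i + 1, f => Ex p i (av p i f)

theorem Ex_succ (p : Par) (i : ℕ) (f : St → ℝ) : Ex p (i + 1) f = Ex p i (av p i f) := rfl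

theorem Ex_mono {p : Par} (hp : Good p) {i : ℕ} (hi : i ≤ p.m) {f g : St → ℝ}
    (h : ∀ st, Reach p i st → Inv p i st → f st ≤ g st) : Ex p i f ≤ Ex p i g := by
  induction i generalizing f g with
  | zero => exact h _ Reach.zero (inv_init hp)
  | succ i ih =>
    refine ih (by omega) (fun st hr hI => ?_)
    have hq0 : 0 ≤ q p i st := q_nonneg_of hI.P_nn
    have hq1 := one_sub_q_pos hp (i := i) (st := st)
    have hr2 := Reach.ff (p := p) hr
    have h2 := h _ hr2 (reach_inv hp hr2 hi)
    unfold av
    by_cases hq : q p i st = 0
    · rw [hq]; simpa using h2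
    · have hr1 := Reach.tt hr hq
      have h1 := h _ hr1 (reach_inv hp hr1 hi)
      have := mul_le_mul_of_nonneg_left h1 hq0
      have := mul_le_mul_of_nonneg_left h2 (by linarith : (0:ℝ) ≤ 1 - q p i st)
      linarith

theorem Ex_congr {p : Par} (hp : Good p) {i : ℕ} (hi : i ≤ p.m) {f g : St → ℝ}
    (h : ∀ st, Reach p i st → Inv p i st → f st = g st) : Ex p i f = Ex p i g :=
  le_antisymm (Ex_mono hp hi fun st a b => (h st a b).le)
    (Ex_mono hp hi fun st a b => (h st a b).ge)

theorem Ex_add (p : Par) (i : ℕ) (f g : St → ℝ) :
    Ex p i (fun st => f st + g st) = Ex p i f + Ex p i g := by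
  induction i generalizing f g with
  | zero => rfl
  | succ i ih =>
    rw [Ex_succ, Ex_succ, Ex_succ, ← ih]
    congr 1; funext st; unfold av; ring

theorem Ex_cmul (p : Par) (i : ℕ) (c : ℝ) (f : St → ℝ) :
    Ex p i (fun st => c * f st) = c * Ex p i f := by
  induction i generalizing f with
  | zero => rfl
  | succ i ih =>
    rw [Ex_succ, Ex_succ, ← ih]
    congr 1; funext st; unfold av; ring

theorem Ex_const (p : Par) (i : ℕ) (c : ℝ) : Ex p i (fun _ => c) = c := by
  induction i with
  | zero => rfl
  | succ i ih =>
    rw [Ex_succ]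
    have : av p i (fun _ => c) = fun _ => c := by funext st; unfold av; ring
    rw [this, ih]

theorem Ex_sub (p : Par) (i : ℕ) (f g : St → ℝ) :
    Ex p i (fun st => f st - g st) = Ex p i f - Ex p i g := by
  have h1 : (fun st => f st - g st) = fun st => f st + (-1) * g st := by funext st; ring
  rw [h1, Ex_add, Ex_cmul]; ring

theorem Ex_sum (p : Par) (i : ℕ) {ι : Type*} (s : Finset ι) (f : ι → St → ℝ) :
    Ex p i (fun st => ∑ x ∈ s, f x st) = ∑ x ∈ s, Ex p i (f x) := by
  induction s using Finset.induction_on with
  | empty => simp [Ex_const]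
  | insert a s ha ih =>
    have : (fun st => ∑ x ∈ insert a s, f x st) = fun st => f a st + ∑ x ∈ s, f x st := by
      funext st; rw [sum_insert ha]
    rw [this, Ex_add, ih, sum_insert ha]

theorem Ex_nonneg {p : Par} (hp : Good p) {i : ℕ} (hi : i ≤ p.m) {f : St → ℝ}
    (h : ∀ st, Reach p i st → Inv p i st → 0 ≤ f st) : 0 ≤ Ex p i f := by
  have := Ex_mono hp hi (f := fun _ => 0) (g := f) h
  rwa [Ex_const] at this

theorem exists_ge {p : Par} (hp : Good p) {i : ℕ} (hi : i ≤ p.m) (f : St → ℝ) :
    ∃ st, Reach p i st ∧ Ex p i f ≤ f st := by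
  induction i generalizing f with
  | zero => exact ⟨_, Reach.zero, le_refl _⟩
  | succ i ih =>
    obtain ⟨st, hr, hle⟩ := ih (by omega) (av p i f)
    rw [Ex_succ]
    have hI := reach_inv hp hr (by omega)
    have hq0 : 0 ≤ q p i st := q_nonneg_of hI.P_nn
    have hq1 := one_sub_q_pos hp (i := i) (st := st)
    by_cases hq : q p i st = 0
    · refine ⟨_, Reach.ff hr, hle.trans ?_⟩
      unfold av; rw [hq]; simp
    · by_cases hc : f (step p i true st) ≤ f (step p i false st)
      · refine ⟨_, Reach.ff hr, hle.trans ?_⟩
        unfold av; nlinarith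
      · refine ⟨_, Reach.tt hr hq, hle.trans ?_⟩
        rw [not_le] at hc
        unfold av; nlinarith

theorem av_cmul {p : Par} {i : ℕ} {st : St} {h f : St → ℝ}
    (h1 : h (step p i true st) = h st) (h2 : h (step p i false st) = h st) :
    av p i (fun s => h s * f s) st = h st * av p i f st := by
  unfold av; beta_reduce; rw [h1, h2]; ring

theorem step_P (p : Par) (i : ℕ) (b : Bool) (st : St) (E : Finset ℕ) (v : ℕ) :
    (step p i b st).P E v = if act p i st E v then st.P E v * fac p i b st else st.P E v := rfl

theorem av_P {p : Par} (hp : Good p) (i : ℕ) (st : St) (E : Finset ℕ) (v : ℕ) :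
    av p i (fun s => s.P E v) st = st.P E v := by
  have hq1 := one_sub_q_pos hp (i := i) (st := st)
  unfold av
  beta_reduce
  rw [step_P, step_P]
  split_ifs
  · rw [fac_true, fac_false]
    field_simp
    ring
  · ring

theorem Ex_P {p : Par} (hp : Good p) (i : ℕ) (E : Finset ℕ) (v : ℕ) :
    Ex p i (fun s => s.P E v) = 1 / p.K := by
  induction i with
  | zero => rfl
  | succ i ih =>
    rw [Ex_succ]
    have : av p i (fun s => s.P E v) = fun s => s.P E v := by
      funext st; exact av_P hp i st E v
    rw [this, ih]

/-- indicator of a proposition -/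
def ind (P : Prop) : ℝ := if P then 1 else 0

theorem ind_nonneg (P : Prop) : 0 ≤ ind P := by unfold ind; split_ifs <;> norm_num

theorem ind_le_one (P : Prop) : ind P ≤ 1 := by unfold ind; split_ifs <;> norm_num

theorem ind_true {P : Prop} (h : P) : ind P = 1 := by simp [ind, h]

theorem ind_false {P : Prop} (h : ¬ P) : ind P = 0 := by simp [ind, h]

theorem av_PP {p : Par} (hp : Good p) {i : ℕ} {st : St} (hI : Inv p i st) (E : Finset ℕ)
    (u v : ℕ) :
    av p i (fun s => s.P E u * s.P E v) st ≤
      st.P E u * st.P E v * (1 + 6 * q p i st * ind (act p i st E u ∧ act p i st E v)) := by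
  have hq0 : 0 ≤ q p i st := q_nonneg_of hI.P_nn
  have hq1 := one_sub_q_pos hp (i := i) (st := st)
  have hu := hI.P_nn E u
  have hv := hI.P_nn E v
  have huv : 0 ≤ st.P E u * st.P E v := mul_nonneg hu hv
  unfold av
  simp only [step_P, fac_true, fac_false]
  have hne : (1 - q p i st) ≠ 0 := by linarith
  by_cases h1 : act p i st E u <;> by_cases h2 : act p i st E v
  · rw [if_pos h1, if_pos h2, if_pos h1, if_pos h2, ind_true ⟨h1, h2⟩]
    have : q p i st * (st.P E u * 0 * (st.P E v * 0)) + (1 - q p i st) *
        (st.P E u * (1 / (1 - q p i st)) * (st.P E v * (1 / (1 - q p i st)))) =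
        st.P E u * st.P E v * (1 / (1 - q p i st)) := by field_simp; ring
    rw [this]
    apply mul_le_mul_of_nonneg_left _ huv
    rw [div_le_iff₀ (by linarith)]
    nlinarith
  · rw [if_pos h1, if_neg h2, if_pos h1, if_neg h2, ind_false (fun h => h2 h.2)]
    apply le_of_eq; field_simp <;> ring
  · rw [if_neg h1, if_pos h2, if_neg h1, if_pos h2, ind_false (fun h => h1 h.1)]
    apply le_of_eq; field_simp <;> ring
  · rw [if_neg h1, if_neg h2, if_neg h1, if_neg h2, ind_false (fun h => h1 h.1)]
    apply le_of_eq; ring

theorem av_PPP {p : Par} (hp : Good p) {i : ℕ} {st : St} (hI : Inv p i st) (E : Finset ℕ)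
    (u v w : ℕ) :
    av p i (fun s => s.P E u * s.P E v * s.P E w) st ≤
      st.P E u * st.P E v * st.P E w * (1 + 6 * q p i st *
        (ind (act p i st E u ∧ act p i st E v) + ind (act p i st E u ∧ act p i st E w)
          + ind (act p i st E v ∧ act p i st E w))) := by
  have hq0 : 0 ≤ q p i st := q_nonneg_of hI.P_nn
  have hq1 := one_sub_q_pos hp (i := i) (st := st)
  have hu := hI.P_nn E u
  have hv := hI.P_nn E v
  have hw := hI.P_nn E w
  have huv : 0 ≤ st.P E u * st.P E v * st.P E w := mul_nonneg (mul_nonneg hu hv) hw
  unfold av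
  simp only [step_P, fac_true, fac_false]
  have hne : (1 - q p i st) ≠ 0 := by linarith
  have key2 : 1 / (1 - q p i st) ≤ 1 + 6 * q p i st := by
    rw [div_le_iff₀ (by linarith)]; nlinarith
  have key3 : 1 / (1 - q p i st) * (1 / (1 - q p i st)) ≤ 1 + 6 * q p i st * 3 := by
    rw [div_mul_div_comm, one_mul, div_le_iff₀ (by positivity)]
    nlinarith [mul_nonneg hq0 hq0, mul_nonneg (mul_nonneg hq0 hq0) hq0]
  by_cases h1 : act p i st E u <;> by_cases h2 : act p i st E v <;> by_cases h3 : act p i st E w
  · simp only [h1, h2, h3, if_true, and_self, ind_true]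
    have : q p i st * (st.P E u * 0 * (st.P E v * 0) * (st.P E w * 0)) + (1 - q p i st) *
        (st.P E u * (1 / (1 - q p i st)) * (st.P E v * (1 / (1 - q p i st))) *
          (st.P E w * (1 / (1 - q p i st)))) =
        st.P E u * st.P E v * st.P E w * (1 / (1 - q p i st) * (1 / (1 - q p i st))) := by
      field_simp; ring
    rw [this]
    apply mul_le_mul_of_nonneg_left _ huv
    linarith
  all_goals
    simp only [h1, h2, h3, if_true, if_false, and_self, and_true, and_false, false_and, true_and,
      ind, add_zero, zero_add, mul_zero, mul_one]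
  · have : q p i st * 0 + (1 - q p i st) *
        (st.P E u * (1 / (1 - q p i st)) * (st.P E v * (1 / (1 - q p i st))) * st.P E w) =
        st.P E u * st.P E v * st.P E w * (1 / (1 - q p i st)) := by
      field_simp; ring
    have h := mul_le_mul_of_nonneg_left key2 huv
    first | linarith | nlinarith
  · have : q p i st * 0 + (1 - q p i st) *
        (st.P E u * (1 / (1 - q p i st)) * st.P E v * (st.P E w * (1 / (1 - q p i st)))) =
        st.P E u * st.P E v * st.P E w * (1 / (1 - q p i st)) := by
      field_simp; ring
    have h := mul_le_mul_of_nonneg_left key2 huv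
    first | linarith | nlinarith
  · apply le_of_eq; field_simp <;> ring
  · have : q p i st * 0 + (1 - q p i st) *
        (st.P E u * (st.P E v * (1 / (1 - q p i st))) * (st.P E w * (1 / (1 - q p i st)))) =
        st.P E u * st.P E v * st.P E w * (1 / (1 - q p i st)) := by
      field_simp; ring
    have h := mul_le_mul_of_nonneg_left key2 huv
    first | linarith | nlinarith
  · apply le_of_eq; field_simp <;> ring
  · apply le_of_eq; field_simp <;> ring
  · apply le_of_eq; ring

/-- crude bound for the probability that a set is contained in `S` -/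
theorem Ex_ind_le {p : Par} (hp : Good p) {i : ℕ} (hi : i ≤ p.m) (B : Finset ℕ)
    (hB : B ⊆ range i) : Ex p i (fun st => ind (B ⊆ st.S)) ≤ G p ^ B.card := by
  induction i generalizing B with
  | zero =>
    have : B = ∅ := by simpa using hB
    subst this
    show ind _ ≤ _
    simp [ind]
  | succ i ih =>
    rw [Ex_succ]
    by_cases hiB : i ∈ B
    · have hB' : B.erase i ⊆ range i := by
        intro x hx
        rw [mem_erase] at hx
        have := hB hx.2
        rw [mem_range] at this ⊢
        omega
      have h1 : Ex p i (av p i (fun st => ind (B ⊆ st.S))) ≤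
          Ex p i (fun st => G p * ind (B.erase i ⊆ st.S)) := by
        refine Ex_mono hp (by omega) (fun st _ hI => ?_)
        have hq0 : 0 ≤ q p i st := q_nonneg_of hI.P_nn
        have hqG : q p i st ≤ G p := q_le_G_of hp
        have e1 : ind (B ⊆ (step p i true st).S) = ind (B.erase i ⊆ st.S) := by
          have : (step p i true st).S = insert i st.S := by simp [step]
          rw [this]
          congr 1
          rw [eq_iff_iff, subset_insert_iff]
        have e2 : ind (B ⊆ (step p i false st).S) = 0 := by
          apply ind_false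
          have : (step p i false st).S = st.S := by simp [step]
          rw [this]
          intro h
          have := hI.S_sub (h hiB)
          simp at this
        unfold av
        beta_reduce
        rw [e1, e2, mul_zero, add_zero]
        exact mul_le_mul_of_nonneg_right hqG (ind_nonneg _)
      refine h1.trans ?_
      rw [Ex_cmul]
      have h2 := ih (by omega) (B.erase i) hB'
      have h3 : B.card = (B.erase i).card + 1 := by rw [card_erase_add_one hiB]
      rw [h3, pow_succ, mul_comm]
      exact mul_le_mul_of_nonneg_right h2 (G_nonneg hp)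
    · have hB' : B ⊆ range i := by
        intro x hx
        have h1 := hB hx
        have h2 : x ≠ i := fun h => hiB (h ▸ hx)
        rw [mem_range] at h1 ⊢
        omega
      have h1 : Ex p i (av p i (fun st => ind (B ⊆ st.S))) = Ex p i (fun st => ind (B ⊆ st.S)) := by
        refine Ex_congr hp (by omega) (fun st _ _ => ?_)
        have e1 : ind (B ⊆ (step p i true st).S) = ind (B ⊆ st.S) := by
          have : (step p i true st).S = insert i st.S := by simp [step]
          rw [this]
          congr 1
          rw [eq_iff_iff, subset_insert_iff, erase_eq_of_notMem hiB]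
        have e2 : ind (B ⊆ (step p i false st).S) = ind (B ⊆ st.S) := by
          have : (step p i false st).S = st.S := by simp [step]
          rw [this]
        unfold av
        beta_reduce
        rw [e1, e2]; ring
      rw [h1]
      exact ih (by omega) B hB'

end

end Pool.Agent.Helper60.GP
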