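import Pool.Agent.Helper60.GPAbs
import Pool.Agent.Helper65.ST.Final

set_option autoImplicit false

namespace Pool.Agent.Helper60.GP

open Finset
open scoped Classical

noncomputable section

abbrev E2 := EuclideanSpace ℝ (Fin 2)

/-- degeneracy order -/
theorem exists_order {s D : ℝ}
    (hdeg : ∀ U : Finset E2, U.Nonempty → (U.card : ℝ) ≤ s ^ 2 →
      (∀ T, T ⊆ U → Collinear ℝ (T : Set E2) → (T.card : ℝ) ≤ s) →
      ∃ v ∈ U, (((U ×ˢ U).filter (fun p => p.1 ≠ v ∧ p.2 ≠ v ∧ p.1 ≠ p.2 ∧
        Collinear ℝ ({v, p.1, p.2} : Set E2))).card : ℝ) ≤ D) :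
    ∀ (m : ℕ) (U : Finset E2), U.card = m → (U.card : ℝ) ≤ s ^ 2 →
      (∀ T, T ⊆ U → Collinear ℝ (T : Set E2) → (T.card : ℝ) ≤ s) →
      ∃ e : ℕ → E2, (∀ i, i < m → e i ∈ U) ∧ (∀ i j, i < m → j < m → e i = e j → i = j) ∧
        ∀ v, v < m → (((range v ×ˢ range v).filter (fun p => p.1 ≠ p.2 ∧
          Collinear ℝ ({e v, e p.1, e p.2} : Set E2))).card : ℝ) ≤ D := by
  intro m
  induction m with
  | zero =>
    intro U _ _ _
    exact ⟨fun _ => 0, by simp, by simp, by simp⟩
  | succ m ih =>
    intro U hU hs hT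
    have hne : U.Nonempty := card_pos.1 (by omega)
    obtain ⟨v0, hv0, hW⟩ := hdeg U hne hs hT
    have hc : (U.erase v0).card = m := by rw [card_erase_of_mem hv0]; omega
    obtain ⟨e, he1, he2, he3⟩ := ih (U.erase v0) hc
      (by
        refine le_trans ?_ hs
        exact_mod_cast card_le_card (erase_subset _ _))
      (fun T hTs hTc => hT T (hTs.trans (erase_subset _ _)) hTc)
    set f : ℕ → E2 := fun i => if i = m then v0 else e i with hf
    have hfm : f m = v0 := by simp [hf]
    have hfi : ∀ i, i < m → f i = e i := by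
      intro i hi; simp [hf, show i ≠ m by omega]
    refine ⟨f, ?_, ?_, ?_⟩
    · intro i hi
      rcases Nat.lt_succ_iff_lt_or_eq.1 hi with h | h
      · rw [hfi i h]; exact mem_of_mem_erase (he1 i h)
      · subst h; rw [hfm]; exact hv0
    · intro i j hi hj hij
      rcases Nat.lt_succ_iff_lt_or_eq.1 hi with h | h <;>
      rcases Nat.lt_succ_iff_lt_or_eq.1 hj with h' | h'
      · rw [hfi i h, hfi j h'] at hij; exact he2 i j h h' hij
      · subst h'
        rw [hfi i h, hfm] at hij
        exact absurd hij (ne_of_mem_erase (he1 i h))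
      · subst h
        rw [hfi j h', hfm] at hij
        exact absurd hij.symm (ne_of_mem_erase (he1 j h'))
      · omega
    · intro v hv
      rcases Nat.lt_succ_iff_lt_or_eq.1 hv with h | h
      · have := he3 v h
        refine le_trans (le_of_eq ?_) this
        congr 2
        refine filter_congr fun p hp => ?_
        rw [mem_product, mem_range, mem_range] at hp
        rw [hfi v h, hfi p.1 (by omega), hfi p.2 (by omega)]
      · subst h
        refine le_trans ?_ hW
        rw [hfm]
        norm_cast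
        apply card_le_card_of_injOn (fun p => (e p.1, e p.2))
        · rintro ⟨i, j⟩ hp
          simp only [coe_filter, mem_product, mem_range, Set.mem_ofPred_eq] at hp
          obtain ⟨⟨hi, hj⟩, hij, hcol⟩ := hp
          rw [hfi i hi, hfi j hj] at hcol
          simp only [coe_filter, mem_product, Set.mem_ofPred_eq]
          refine ⟨⟨mem_of_mem_erase (he1 i hi), mem_of_mem_erase (he1 j hj)⟩,
            ne_of_mem_erase (he1 i hi), ne_of_mem_erase (he1 j hj), ?_, hcol⟩
          intro h; exact hij (he2 i j hi hj h)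
        · rintro ⟨i, j⟩ hp ⟨i', j'⟩ hp' heq
          simp only [coe_filter, mem_product, mem_range, Set.mem_ofPred_eq] at hp hp'
          simp only [Prod.mk.injEq] at heq
          rw [he2 i i' hp.1.1 hp'.1.1 heq.1, he2 j j' hp.1.2 hp'.1.2 heq.2]

/-- collinear triples -/
theorem col_trans {x y z w : E2} (hxy : x ≠ y) (h1 : Collinear ℝ ({x, y, z} : Set E2))
    (h2 : Collinear ℝ ({x, y, w} : Set E2)) : Collinear ℝ ({x, z, w} : Set E2) := by
  have hz : z ∈ line[ℝ, x, y] := h1.mem_affineSpan_of_mem_of_ne (by simp) (by simp) (by simp) hxy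
  have hw : w ∈ line[ℝ, x, y] := h2.mem_affineSpan_of_mem_of_ne (by simp) (by simp) (by simp) hxy
  have hx : x ∈ line[ℝ, x, y] := left_mem_affineSpan_pair ℝ x y
  exact collinear_triple_of_mem_affineSpan_pair hx hz hw

theorem col_swap {x y z : E2} (h : Collinear ℝ ({x, y, z} : Set E2)) :
    Collinear ℝ ({y, x, z} : Set E2) := by
  rwa [Set.insert_comm]

theorem col_swap' {x y z : E2} (h : Collinear ℝ ({x, y, z} : Set E2)) :
    Collinear ℝ ({x, z, y} : Set E2) := by
  rwa [show ({x, z, y} : Set E2) = {x, y, z} by rw [Set.pair_comm]]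

/-- a set all of whose points are on the line of `x, y` is collinear -/
theorem col_set {x y : E2} (hxy : x ≠ y) {T : Set E2}
    (h : ∀ z ∈ T, Collinear ℝ ({x, y, z} : Set E2)) : Collinear ℝ T := by
  rw [collinear_iff_exists_forall_eq_smul_vadd]
  refine ⟨x, y -ᵥ x, fun z hz => ?_⟩
  have hz' : z ∈ line[ℝ, x, y] :=
    (h z hz).mem_affineSpan_of_mem_of_ne (by simp) (by simp) (by simp) hxy
  have hz2 : (z -ᵥ x) +ᵥ x ∈ line[ℝ, x, y] := by rwa [vsub_vadd]
  obtain ⟨r, hr⟩ := vadd_left_mem_affineSpan_pair.1 hz2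
  exact ⟨r, by rw [hr, vsub_vadd]⟩

/-- the weighted independent set theorem in the plane -/
theorem weighted : ∃ C s0 : ℝ, 0 < C ∧ 1 ≤ s0 ∧ ∀ s : ℝ, s0 ≤ s → ∀ U : Finset E2,
    (U.card : ℝ) ≤ s ^ 2 →
    (∀ T : Finset E2, T ⊆ U → Collinear ℝ (T : Set E2) → (T.card : ℝ) ≤ s) →
    ∀ w : E2 → ℝ, (∀ x, 0 ≤ w x) → ∃ S : Finset E2, S ⊆ U ∧
      (∀ T : Finset E2, T ⊆ S → Collinear ℝ (T : Set E2) → T.card ≤ 2) ∧
      ∑ x ∈ U, w x ≤ C * s * ∑ x ∈ S, w x := by
  obtain ⟨A, hA, hST⟩ := Pool.Agent.Helper65.ST.st_degenerate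
  obtain ⟨C, s0, hC, hs0, hmain⟩ := step1_abs A hA.le
  refine ⟨C, max s0 2, hC, le_max_of_le_left hs0, ?_⟩
  intro s hs U hU hT w hw
  have hs1 : s0 ≤ s := (le_max_left _ _).trans hs
  have hs2 : 2 ≤ s := (le_max_right _ _).trans hs
  obtain ⟨e, he1, he2, he3⟩ := exists_order (s := s) (D := A * s ^ 2 * Real.log s)
    (fun U hne hc hcol => by
      obtain ⟨v, hv, h⟩ := hST s hs2 U hne hc hcol
      refine ⟨v, hv, le_trans (le_of_eq ?_) h⟩
      congr!) U.card U rfl hU hT
  set m := U.card with hm
  set L : ℕ → ℕ → Finset ℕ := fun x y => if x < m ∧ y < m ∧ x ≠ y then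
    (range m).filter (fun z => Collinear ℝ ({e x, e y, e z} : Set E2)) else ∅ with hL
  have hLval : ∀ x y, x < m → y < m → x ≠ y → L x y =
      (range m).filter (fun z => Collinear ℝ ({e x, e y, e z} : Set E2)) := by
    intro x y hx hy hxy
    show (if x < m ∧ y < m ∧ x ≠ y then _ else _) = _
    rw [if_pos ⟨hx, hy, hxy⟩]
  have hne : ∀ x y, x < m → y < m → x ≠ y → e x ≠ e y :=
    fun x y hx hy hxy h => hxy (he2 x y hx hy h)
  have hmem : ∀ x y, x < m → y < m → x ≠ y → x ∈ L x y ∧ y ∈ L x y := by
    intro x y hx hy hxy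
    rw [hLval x y hx hy hxy]
    constructor
    · refine mem_filter.2 ⟨by simpa using hx, ?_⟩
      apply (collinear_pair ℝ (e x) (e y)).subset
      intro z; simp only [Set.mem_insert_iff, Set.mem_singleton_iff]; tauto
    · refine mem_filter.2 ⟨by simpa using hy, ?_⟩
      apply (collinear_pair ℝ (e x) (e y)).subset
      intro z; simp only [Set.mem_insert_iff, Set.mem_singleton_iff]; tauto
  have hsub : ∀ x y, L x y ⊆ range m := by
    intro x y
    rw [hL]; dsimp only
    split_ifs
    · exact filter_subset _ _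
    · simp
  have hsymm : ∀ x y, L x y = L y x := by
    intro x y
    by_cases h : x < m ∧ y < m ∧ x ≠ y
    · rw [hLval x y h.1 h.2.1 h.2.2, hLval y x h.2.1 h.1 h.2.2.symm]
      refine filter_congr fun z _ => ⟨col_swap, col_swap⟩
    · have h' : ¬ (y < m ∧ x < m ∧ y ≠ x) := fun h2 => h ⟨h2.2.1, h2.1, h2.2.2.symm⟩
      show (if x < m ∧ y < m ∧ x ≠ y then _ else _) = (if y < m ∧ x < m ∧ y ≠ x then _ else _)
      rw [if_neg h, if_neg h']
  have huniq : ∀ x y z, x < m → y < m → x ≠ y → z ∈ L x y → z ≠ x → L x z = L x y := by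
    intro x y z hx hy hxy hz hzx
    have hzm : z < m := by simpa using hsub x y hz
    rw [hLval x y hx hy hxy] at hz ⊢
    rw [hLval x z hx hzm hzx.symm]
    have hcol := (mem_filter.1 hz).2
    refine filter_congr fun u _ => ⟨fun h => ?_, fun h => ?_⟩
    · exact col_trans (hne x z hx hzm hzx.symm) (col_swap' hcol) h
    · exact col_trans (hne x y hx hy hxy) hcol h
  have hcard : ∀ x y, x < m → y < m → x ≠ y → ((L x y).card : ℝ) ≤ s := by
    intro x y hx hy hxy
    have hinj : Set.InjOn e (L x y : Set ℕ) := by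
      intro a ha b hb hab
      exact he2 a b (by simpa using hsub x y ha) (by simpa using hsub x y hb) hab
    have h1 : ((L x y).image e).card = (L x y).card := card_image_of_injOn hinj
    rw [← h1]
    apply hT
    · intro z hz
      obtain ⟨i, hi, rfl⟩ := mem_image.1 hz
      exact he1 i (by simpa using hsub x y hi)
    · apply col_set (hne x y hx hy hxy)
      intro z hz
      rw [mem_coe] at hz
      obtain ⟨i, hi, rfl⟩ := mem_image.1 hz
      rw [hLval x y hx hy hxy] at hi
      exact (mem_filter.1 hi).2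
  have hW : ∀ v, v < m → ∑ x ∈ range v, (cnt (L x v) v - 1) ≤ A * s ^ 2 * Real.log s := by
    intro v hv
    refine le_trans (le_of_eq ?_) (he3 v hv)
    have h1 : ((range v ×ˢ range v).filter (fun p => p.1 ≠ p.2 ∧
          Collinear ℝ ({e v, e p.1, e p.2} : Set E2))).card =
        ∑ x ∈ range v, ((range v).filter (fun z => x ≠ z ∧
          Collinear ℝ ({e v, e x, e z} : Set E2))).card := by
      rw [card_filter, sum_product]
      refine sum_congr rfl fun x _ => ?_
      rw [card_filter]
    rw [h1, Nat.cast_sum]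
    refine sum_congr rfl fun x hx => ?_
    rw [mem_range] at hx
    have hxm : x < m := by omega
    have h2 : L x v ∩ range v = insert x ((range v).filter (fun z => x ≠ z ∧
          Collinear ℝ ({e v, e x, e z} : Set E2))) := by
      rw [hLval x v hxm hv (by omega)]
      ext z
      simp only [mem_inter, mem_filter, mem_range, mem_insert]
      constructor
      · rintro ⟨⟨_, h4⟩, h5⟩
        by_cases hzx : z = x
        · left; exact hzx
        · right; exact ⟨h5, fun h => hzx h.symm, col_swap h4⟩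
      · rintro (h | ⟨h4, h5, h6⟩)
        · subst h
          refine ⟨⟨hxm, ?_⟩, hx⟩
          apply (collinear_pair ℝ (e z) (e v)).subset
          intro u; simp only [Set.mem_insert_iff, Set.mem_singleton_iff]; tauto
        · exact ⟨⟨by omega, col_swap h6⟩, h4⟩
    unfold cnt
    rw [h2, card_insert_of_notMem (by simp)]
    push_cast; ring
  obtain ⟨S, hS1, hS2, hS3⟩ := hmain s hs1 m L hmem hsub hsymm huniq hU hcard hW
    (fun i => w (e i)) (fun i => hw _)
  have hinjS : Set.InjOn e (S : Set ℕ) := by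
    intro a ha b hb hab
    exact he2 a b (by simpa using hS1 ha) (by simpa using hS1 hb) hab
  refine ⟨S.image e, ?_, ?_, ?_⟩
  · intro z hz
    obtain ⟨i, hi, rfl⟩ := mem_image.1 hz
    exact he1 i (by simpa using hS1 hi)
  · intro T hTS hTc
    by_contra hcon
    rw [not_le] at hcon
    obtain ⟨a, ha, b, hb, c, hc, hab, hac, hbc⟩ := two_lt_card.1 hcon
    obtain ⟨x, hx, rfl⟩ := mem_image.1 (hTS ha)
    obtain ⟨y, hy, rfl⟩ := mem_image.1 (hTS hb)
    obtain ⟨z, hz, rfl⟩ := mem_image.1 (hTS hc)
    have hxm : x < m := by simpa using hS1 hx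
    have hym : y < m := by simpa using hS1 hy
    have hzm : z < m := by simpa using hS1 hz
    have hxy : x ≠ y := fun h => hab (by rw [h])
    have hxz : x ≠ z := fun h => hac (by rw [h])
    have hyz : y ≠ z := fun h => hbc (by rw [h])
    have h1 := hS2 x y hxm hym hxy
    have hcol : Collinear ℝ ({e x, e y, e z} : Set E2) := by
      apply hTc.subset
      intro u hu
      simp only [Set.mem_insert_iff, Set.mem_singleton_iff] at hu
      rcases hu with rfl | rfl | rfl
      · exact ha
      · exact hb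
      · exact hc
    have h2 : ({x, y, z} : Finset ℕ) ⊆ S ∩ L x y := by
      intro u hu
      simp only [mem_insert, mem_singleton] at hu
      rw [mem_inter]
      rcases hu with rfl | rfl | rfl
      · exact ⟨hx, (hmem _ _ hxm hym hxy).1⟩
      · exact ⟨hy, (hmem _ _ hxm hym hxy).2⟩
      · refine ⟨hz, ?_⟩
        rw [hLval x y hxm hym hxy]
        exact mem_filter.2 ⟨by simpa using hzm, hcol⟩
    have h3 := card_le_card h2
    rw [card_eq_three.2 ⟨x, y, z, hxy, hxz, hyz, rfl⟩] at h3
    omega
  · have hUim : (range m).image e = U := by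
      apply eq_of_subset_of_card_le
      · intro z hz
        obtain ⟨i, hi, rfl⟩ := mem_image.1 hz
        exact he1 i (by simpa using hi)
      · rw [card_image_of_injOn, card_range]
        intro a ha b hb hab
        exact he2 a b (by simpa using ha) (by simpa using hb) hab
    rw [← hUim, sum_image, sum_image]
    · exact hS3
    · exact hinjS
    · intro a ha b hb hab
      exact he2 a b (by simpa using ha) (by simpa using hb) hab

end

end Pool.Agent.Helper60.GP
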