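import Pool.Agent.Helper60.GPCod

set_option autoImplicit false

namespace Pool.Agent.Helper60.GP

open Finset
open scoped Classical

noncomputable section

theorem step_Y (p : Par) (i : ℕ) (b : Bool) (st : St) (l : Finset ℕ) :
    (step p i b st).Y l = if i ∈ l then st.Y l + st.P l i else st.Y l := rfl

theorem cnt_succ (l : Finset ℕ) (i : ℕ) : cnt l (i + 1) = cnt l i + if i ∈ l then 1 else 0 := by
  unfold cnt
  split_ifs with hil
  · have h1 : l ∩ range (i + 1) = insert i (l ∩ range i) := by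
      ext x
      simp only [mem_inter, mem_range, mem_insert]
      constructor
      · rintro ⟨h1, h2⟩
        rcases Nat.lt_succ_iff_lt_or_eq.1 h2 with h3 | h3
        · right; exact ⟨h1, h3⟩
        · left; exact h3
      · rintro (h | ⟨h1, h2⟩)
        · subst h; exact ⟨hil, by omega⟩
        · exact ⟨h1, by omega⟩
    have h2 : i ∉ l ∩ range i := by simp
    rw [h1, card_insert_of_notMem h2]
    push_cast; ring
  · have h1 : l ∩ range (i + 1) = l ∩ range i := by
      ext x
      simp only [mem_inter, mem_range]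
      constructor
      · rintro ⟨h1, h2⟩
        rcases Nat.lt_succ_iff_lt_or_eq.1 h2 with h3 | h3
        · exact ⟨h1, h3⟩
        · subst h3; exact absurd h1 hil
      · rintro ⟨h1, h2⟩
        exact ⟨h1, by omega⟩
    rw [h1]; ring

theorem Ex_Y {p : Par} (hp : Good p) (l : Finset ℕ) (i : ℕ) :
    Ex p i (fun st => st.Y l) = cnt l i / p.K := by
  induction i with
  | zero => show (0:ℝ) = _; simp [cnt]
  | succ i ih =>
    rw [Ex_succ, cnt_succ]
    have : av p i (fun st => st.Y l) = fun st => st.Y l + if i ∈ l then st.P l i else 0 := by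
      funext st
      unfold av; beta_reduce
      rw [step_Y, step_Y]
      split_ifs <;> ring
    rw [this, Ex_add, ih]
    split_ifs
    · rw [Ex_P hp]; ring
    · rw [Ex_const]; ring

theorem pair0 {p : Par} (hp : Good p) {Q : ℝ}
    (hQ : ∀ u v i, u < p.m → v < p.m → u ≠ v → i ≤ u → i ≤ v → cod p i u v ≤ Q)
    {l : Finset ℕ} (hl : IsLine p l) {u v i : ℕ}
    (hu : u ∈ l) (hv : v ∈ l) (huv : u ≠ v) (hiu : i ≤ u) (hiv : i ≤ v) :
    Ex p i (fun st => st.P l u * st.P l v) ≤ (1 / p.K) ^ 2 + 24 * G p ^ 5 * Q := by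
  have h := Ex_pair hp hl hu hv huv (Z := ∅) (i0 := 0) (i := i) (by simp) (by simp)
    (Nat.zero_le _) hiu hiv
  simp only [empty_subset, ind_true, one_mul, card_empty, zero_add] at h
  have h2 : Ex p 0 (fun st => st.P l u * st.P l v) = (1 / p.K) ^ 2 := by
    show 1 / p.K * (1 / p.K) = _
    ring
  rw [h2] at h
  have hG := G_nonneg hp
  have h3 := hQ u v i (line_lt hp hl hu) (line_lt hp hl hv) huv hiu hiv
  have := mul_le_mul_of_nonneg_left h3 (by positivity : (0:ℝ) ≤ 24 * G p ^ 5)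
  linarith

theorem Ex_YP {p : Par} (hp : Good p) {Q : ℝ}
    (hQ : ∀ u v i, u < p.m → v < p.m → u ≠ v → i ≤ u → i ≤ v → cod p i u v ≤ Q)
    {l : Finset ℕ} (hl : IsLine p l) {w i : ℕ} (hw : w ∈ l) (hiw : i ≤ w) :
    Ex p i (fun st => st.Y l * st.P l w) ≤ cnt l i * ((1 / p.K) ^ 2 + 24 * G p ^ 5 * Q) := by
  induction i with
  | zero =>
    show (0:ℝ) * _ ≤ _
    simp [cnt]
  | succ i ih =>
    have ih := ih (by omega)
    rw [Ex_succ, cnt_succ]
    have : av p i (fun st => st.Y l * st.P l w) = fun st => st.Y l * st.P l w +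
        if i ∈ l then st.P l i * st.P l w else 0 := by
      funext st
      have h1 := av_P hp i st l w
      unfold av at h1 ⊢; beta_reduce at h1 ⊢
      rw [step_Y, step_Y]
      split_ifs
      · calc _ = (st.Y l + st.P l i) * (q p i st * (step p i true st).P l w +
              (1 - q p i st) * (step p i false st).P l w) := by ring
          _ = _ := by rw [h1]; ring
      · calc _ = (st.Y l) * (q p i st * (step p i true st).P l w +
              (1 - q p i st) * (step p i false st).P l w) := by ring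
          _ = _ := by rw [h1]; ring
    rw [this, Ex_add]
    split_ifs with hil
    · have h2 := pair0 hp hQ hl hil hw (by omega : i ≠ w) (le_refl i) (by omega : i ≤ w)
      calc _ ≤ cnt l i * ((1 / p.K) ^ 2 + 24 * G p ^ 5 * Q) +
            ((1 / p.K) ^ 2 + 24 * G p ^ 5 * Q) := add_le_add ih h2
        _ = _ := by ring
    · rw [Ex_const]; simpa using ih

theorem Ex_var {p : Par} (hp : Good p) {Q : ℝ} (hQ0 : 0 ≤ Q)
    (hQ : ∀ u v i, u < p.m → v < p.m → u ≠ v → i ≤ u → i ≤ v → cod p i u v ≤ Q)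
    {l : Finset ℕ} (hl : IsLine p l) {i : ℕ} (him : i ≤ p.m) :
    Ex p i (fun st => (st.Y l - cnt l i / p.K) ^ 2) ≤
      cnt l i ^ 2 * (24 * G p ^ 5 * Q) + cnt l i * (2 * G p / p.K) := by
  have hK := hp.K_pos
  have hG := G_nonneg hp
  induction i with
  | zero =>
    show ((0:ℝ) - cnt l 0 / p.K) ^ 2 ≤ _
    simp [cnt]
  | succ i ih =>
    have ih := ih (by omega)
    have him' : i < p.m := by omega
    rw [Ex_succ]
    by_cases hil : i ∈ l
    · have hc : cnt l (i + 1) = cnt l i + 1 := by rw [cnt_succ, if_pos hil]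
      rw [hc]
      set c := cnt l i with hcdef
      have hc0 : 0 ≤ c := cnt_nonneg _ _
      have e1 : av p i (fun st => (st.Y l - (c + 1) / p.K) ^ 2) = fun st =>
          (st.Y l - c / p.K) ^ 2 + (2 * (st.Y l * st.P l i) + (-(2 * c / p.K) * st.P l i +
          (-(2 / p.K) * st.Y l + (2 * c / p.K ^ 2 + (st.P l i * st.P l i +
            (-(2 / p.K) * st.P l i + 1 / p.K ^ 2)))))) := by
        funext st
        unfold av; beta_reduce
        rw [step_Y, step_Y, if_pos hil]
        field_simp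
        ring
      rw [e1]
      rw [Ex_add, Ex_add, Ex_add, Ex_add, Ex_add, Ex_add, Ex_add, Ex_cmul, Ex_cmul, Ex_cmul,
        Ex_cmul, Ex_const, Ex_const, Ex_P hp, Ex_Y hp]
      have h1 := Ex_YP hp hQ hl hil (le_refl i)
      rw [← hcdef] at h1 ⊢
      have h2 : Ex p i (fun st => st.P l i * st.P l i) ≤ 2 * G p * (1 / p.K) := by
        have h3 : Ex p i (fun st => st.P l i * st.P l i) ≤
            Ex p i (fun st => 2 * G p * st.P l i) := by
          refine Ex_mono hp him'.le fun st _ hI => ?_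
          exact mul_le_mul_of_nonneg_right (hI.P_le l i) (hI.P_nn l i)
        rw [Ex_cmul, Ex_P hp] at h3
        exact h3
      have h4 : 0 ≤ 24 * G p ^ 5 * Q := by positivity
      set E := 24 * G p ^ 5 * Q with hE
      have h5 : (0:ℝ) ≤ 1 / p.K ^ 2 := by positivity
      calc _ ≤ (c ^ 2 * E + c * (2 * G p / p.K)) + (2 * (c * ((1 / p.K) ^ 2 + E)) +
            (-(2 * c / p.K) * (1 / p.K) + (-(2 / p.K) * (c / p.K) + (2 * c / p.K ^ 2 +
            (2 * G p * (1 / p.K) + (-(2 / p.K) * (1 / p.K) + 1 / p.K ^ 2)))))) := by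
            linarith
        _ = ((c + 1) ^ 2 * E + (c + 1) * (2 * G p / p.K)) - E - 1 / p.K ^ 2 := by
            field_simp; ring
        _ ≤ _ := by linarith
    · have hc : cnt l (i + 1) = cnt l i := by rw [cnt_succ, if_neg hil, add_zero]
      rw [hc]
      have e1 : av p i (fun st => (st.Y l - cnt l i / p.K) ^ 2) = fun st =>
          (st.Y l - cnt l i / p.K) ^ 2 := by
        funext st
        unfold av; beta_reduce
        rw [step_Y, step_Y, if_neg hil]
        ring
      rw [e1]; exact ih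

/-- Chebyshev -/
theorem Ex_cheb {p : Par} (hp : Good p) {Q s δ : ℝ} (hQ0 : 0 ≤ Q)
    (hQ : ∀ u v i, u < p.m → v < p.m → u ≠ v → i ≤ u → i ≤ v → cod p i u v ≤ Q)
    {l : Finset ℕ} (hl : IsLine p l) (hs : (l.card : ℝ) ≤ s) (hδ : 0 < δ)
    (hsK : s / p.K + δ ≤ p.y0) {i : ℕ} (him : i ≤ p.m) :
    Ex p i (fun st => ind (p.y0 < st.Y l)) ≤
      (1 / δ ^ 2) * (s ^ 2 * (24 * G p ^ 5 * Q) + s * (2 * G p / p.K)) := by
  have hK := hp.K_pos
  have hG := G_nonneg hp
  have hcs : cnt l i ≤ s := by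
    refine le_trans ?_ hs
    unfold cnt
    exact_mod_cast card_le_card inter_subset_left
  have hc0 := cnt_nonneg l i
  have h1 : Ex p i (fun st => ind (p.y0 < st.Y l)) ≤
      Ex p i (fun st => (1 / δ ^ 2) * (st.Y l - cnt l i / p.K) ^ 2) := by
    refine Ex_mono hp him fun st _ hI => ?_
    by_cases h : p.y0 < st.Y l
    · rw [ind_true h]
      have h2 : cnt l i / p.K ≤ s / p.K := div_le_div_of_nonneg_right hcs hK.le
      have h3 : δ ≤ st.Y l - cnt l i / p.K := by linarith
      have h4 : δ ^ 2 ≤ (st.Y l - cnt l i / p.K) ^ 2 := by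
        apply pow_le_pow_left₀ hδ.le h3
      rw [one_div, ← div_eq_inv_mul, le_div_iff₀ (by positivity)]
      linarith
    · rw [ind_false h]; positivity
  refine h1.trans ?_
  rw [Ex_cmul]
  apply mul_le_mul_of_nonneg_left _ (by positivity)
  refine (Ex_var hp hQ0 hQ hl him).trans ?_
  have h4 : 0 ≤ 24 * G p ^ 5 * Q := by positivity
  have h5 : 0 ≤ 2 * G p / p.K := by positivity
  have h6 : cnt l i ^ 2 ≤ s ^ 2 := pow_le_pow_left₀ hc0 hcs 2
  exact add_le_add (mul_le_mul_of_nonneg_right h6 h4) (mul_le_mul_of_nonneg_right hcs h5)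

/-- a line through `v` is bad -/
def bad (p : Par) (v : ℕ) (st : St) : Prop := ∃ j, j < p.m ∧ j ≠ v ∧ p.y0 < st.Y (p.L j v)

theorem Ex_bad {p : Par} (hp : Good p) {Q s δ D : ℝ} (hQ0 : 0 ≤ Q) (hs00 : 0 ≤ s)
    (hQ : ∀ u v i, u < p.m → v < p.m → u ≠ v → i ≤ u → i ≤ v → cod p i u v ≤ Q)
    (hs : ∀ l, IsLine p l → (l.card : ℝ) ≤ s) (hδ : 0 < δ)
    (hsK : s / p.K + δ ≤ p.y0) {v : ℕ} (hv : v < p.m)
    (hD : ∑ x ∈ range v, cnt (p.L x v) v ≤ D) :
    Ex p v (fun st => ind (bad p v st)) ≤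
      (2 * G p / p.y0) ^ 2 * D *
        ((1 / δ ^ 2) * (s ^ 2 * (24 * G p ^ 5 * Q) + s * (2 * G p / p.K))) := by
  have hK := hp.K_pos
  have hG := G_pos hp
  have hy := hp.y0_pos
  set V := (1 / δ ^ 2) * (s ^ 2 * (24 * G p ^ 5 * Q) + s * (2 * G p / p.K)) with hV
  set R := (range v).filter (fun x => p.y0 / (2 * G p) < cnt (p.L x v) v) with hR
  have h1 : Ex p v (fun st => ind (bad p v st)) ≤
      Ex p v (fun st => (2 * G p / p.y0) * ∑ x ∈ R, ind (p.y0 < st.Y (p.L x v))) := by
    refine Ex_mono hp hv.le fun st _ hI => ?_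
    by_cases hb : bad p v st
    · rw [ind_true hb]
      obtain ⟨j, hj, hjv, hjY⟩ := hb
      set l := p.L j v with hl
      have hll : IsLine p l := isLine_L hj hv hjv
      have hvl : v ∈ l := (hp.mem j v hj hv hjv).2
      have h4 := hI.I4 l
      have h5 : p.y0 / (2 * G p) < cnt l v := by
        rw [div_lt_iff₀ (by positivity)]
        unfold cnt
        linarith
      have h6 : ∀ x ∈ l ∩ range v, p.L x v = l := by
        intro x hx
        rw [mem_inter, mem_range] at hx
        exact line_eq hp hll hx.1 hvl (by omega)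
      have h7 : l ∩ range v ⊆ R := by
        intro x hx
        refine mem_filter.2 ⟨(mem_inter.1 hx).2, ?_⟩
        rw [h6 x hx]; exact h5
      have h8 : cnt l v ≤ ∑ x ∈ R, ind (p.y0 < st.Y (p.L x v)) := by
        calc cnt l v = ∑ _x ∈ l ∩ range v, (1 : ℝ) := by
              rw [sum_const, nsmul_eq_mul, mul_one]; rfl
          _ = ∑ x ∈ l ∩ range v, ind (p.y0 < st.Y (p.L x v)) := by
              refine sum_congr rfl fun x hx => ?_
              rw [h6 x hx, ind_true hjY]
          _ ≤ _ := sum_le_sum_of_subset_of_nonneg h7 fun _ _ _ => ind_nonneg _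
      have h9 : p.y0 / (2 * G p) ≤ ∑ x ∈ R, ind (p.y0 < st.Y (p.L x v)) := h5.le.trans h8
      have h10 := mul_le_mul_of_nonneg_left h9 (by positivity : (0:ℝ) ≤ 2 * G p / p.y0)
      have h11 : 2 * G p / p.y0 * (p.y0 / (2 * G p)) = 1 := by field_simp
      linarith
    · rw [ind_false hb]
      exact mul_nonneg (by positivity) (sum_nonneg fun _ _ => ind_nonneg _)
  refine h1.trans ?_
  rw [Ex_cmul, Ex_sum]
  have h2 : ∑ x ∈ R, Ex p v (fun st => ind (p.y0 < st.Y (p.L x v))) ≤ (R.card : ℝ) * V := by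
    rw [← nsmul_eq_mul, ← sum_const]
    refine sum_le_sum fun x hx => ?_
    have hx' := (mem_filter.1 hx).1
    rw [mem_range] at hx'
    have hll : IsLine p (p.L x v) := isLine_L (by omega) hv (by omega)
    exact Ex_cheb hp hQ0 hQ hll (hs _ hll) hδ hsK hv.le
  have h3 : (R.card : ℝ) ≤ 2 * G p / p.y0 * D := by
    have : (R.card : ℝ) * (p.y0 / (2 * G p)) ≤ D := by
      calc (R.card : ℝ) * (p.y0 / (2 * G p)) = ∑ _x ∈ R, p.y0 / (2 * G p) := by
            rw [sum_const, nsmul_eq_mul]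
        _ ≤ ∑ x ∈ R, cnt (p.L x v) v := sum_le_sum fun x hx => (mem_filter.1 hx).2.le
        _ ≤ ∑ x ∈ range v, cnt (p.L x v) v :=
            sum_le_sum_of_subset_of_nonneg (filter_subset _ _) fun _ _ _ => cnt_nonneg _ _
        _ ≤ D := hD
    rw [← le_div_iff₀ (by positivity)] at this
    refine this.trans (le_of_eq ?_)
    field_simp
  have hs0 : 0 ≤ s := hs00
  have hV0 : 0 ≤ V := by
    rw [hV]; positivity
  calc 2 * G p / p.y0 * ∑ x ∈ R, Ex p v (fun st => ind (p.y0 < st.Y (p.L x v)))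
      ≤ 2 * G p / p.y0 * ((2 * G p / p.y0 * D) * V) := by
        apply mul_le_mul_of_nonneg_left _ (by positivity)
        exact h2.trans (mul_le_mul_of_nonneg_right h3 hV0)
    _ = _ := by ring

end

end Pool.Agent.Helper60.GP
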