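import Pool.Agent.Helper60.GPExp

set_option autoImplicit false

namespace Pool.Agent.Helper60.GP

open Finset
open scoped Classical

noncomputable section

def cnt (l : Finset ℕ) (i : ℕ) : ℝ := ((l ∩ range i).card : ℝ)

theorem cnt_nonneg (l : Finset ℕ) (i : ℕ) : 0 ≤ cnt l i := by unfold cnt; positivity

def cod (p : Par) (i u v : ℕ) : ℝ :=
  ∑ j ∈ (range i).filter (fun j => j ∉ p.L u v), cnt (p.L j u) j * cnt (p.L j v) j

theorem cod_nonneg (p : Par) (i u v : ℕ) : 0 ≤ cod p i u v :=
  sum_nonneg fun _ _ => mul_nonneg (cnt_nonneg _ _) (cnt_nonneg _ _)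

theorem cod_succ (p : Par) (i u v : ℕ) : cod p (i + 1) u v =
    cod p i u v + if i ∉ p.L u v then cnt (p.L i u) i * cnt (p.L i v) i else 0 := by
  unfold cod
  rw [range_add_one, filter_insert]
  by_cases h : i ∈ p.L u v
  · simp [h]
  · rw [if_pos h, if_pos h, sum_insert (by simp)]; ring

theorem step_ind (p : Par) {i : ℕ} (b : Bool) (st : St) {Z : Finset ℕ} (hi : i ∉ Z) :
    ind (Z ⊆ (step p i b st).S) = ind (Z ⊆ st.S) := by
  have : (step p i b st).S = if b then insert i st.S else st.S := rfl
  rw [this]
  split_ifs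
  · congr 1
    rw [eq_iff_iff, subset_insert_iff, erase_eq_of_notMem hi]
  · rfl

/-- the geometry of two lines through `i ∉ l` -/
theorem geo {p : Par} (hp : Good p) {l : Finset ℕ} (hl : IsLine p l) {u v i x : ℕ}
    (hu : u ∈ l) (hi : i < p.m) (hil : i ∉ l) (hx : x ∈ p.L i u) (hxi : x ≠ i) (hxu : x ≠ u) :
    x ∉ l := by
  have hum := line_lt hp hl hu
  have hiu : i ≠ u := fun h => hil (h ▸ hu)
  have h1 : IsLine p (p.L i u) := isLine_L hi hum hiu
  have hm := hp.mem i u hi hum hiu
  intro hxl
  have h2 : p.L x u = l := line_eq hp hl hxl hu hxu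
  have h3 : p.L x u = p.L i u := line_eq hp h1 hx hm.2 hxu
  rw [h2] at h3
  exact hil (h3 ▸ hm.1)

theorem geo2 {p : Par} (hp : Good p) {l : Finset ℕ} (hl : IsLine p l) {u v i x : ℕ}
    (hu : u ∈ l) (hv : v ∈ l) (huv : u ≠ v) (hi : i < p.m) (hil : i ∉ l)
    (hx : x ∈ p.L i u) (hxi : x ≠ i) (hx' : x ∈ p.L i v) : False := by
  have hum := line_lt hp hl hu
  have hvm := line_lt hp hl hv
  have hiu : i ≠ u := fun h => hil (h ▸ hu)
  have hiv : i ≠ v := fun h => hil (h ▸ hv)
  have h1 : IsLine p (p.L i u) := isLine_L hi hum hiu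
  have h2 : IsLine p (p.L i v) := isLine_L hi hvm hiv
  have m1 := hp.mem i u hi hum hiu
  have m2 := hp.mem i v hi hvm hiv
  have e1 : p.L i x = p.L i u := line_eq hp h1 m1.1 hx (Ne.symm hxi)
  have e2 : p.L i x = p.L i v := line_eq hp h2 m2.1 hx' (Ne.symm hxi)
  have e3 : p.L u v = p.L i u := by
    apply line_eq hp h1 m1.2 _ huv
    rw [← e1, e2]; exact m2.2
  have e4 : p.L u v = l := line_eq hp hl hu hv huv
  rw [e4] at e3
  exact hil (e3 ▸ m1.1)

theorem half_half {p : Par} (hp : Good p) {l : Finset ℕ} (hl : IsLine p l) {u v i : ℕ}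
    (hu : u ∈ l) (hv : v ∈ l) (huv : u ≠ v) (him : i < p.m) (hil : i ∉ l) (hiu : i < u)
    (hiv : i < v) {Z : Finset ℕ} (hZl : Z ⊆ l) (hZi : Z ⊆ range i) :
    Ex p i (fun st => ind (Z ⊆ st.S) * ind (half st (p.L i u) ∧ half st (p.L i v))) ≤
      cnt (p.L i u) i * cnt (p.L i v) i * G p ^ (Z.card + 2) := by
  have h1 : Ex p i (fun st => ind (Z ⊆ st.S) * ind (half st (p.L i u) ∧ half st (p.L i v))) ≤
      Ex p i (fun st => ∑ x ∈ p.L i u ∩ range i, ∑ y ∈ p.L i v ∩ range i,
        ind (insert x (insert y Z) ⊆ st.S)) := by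
    refine Ex_mono hp him.le (fun st _ hI => ?_)
    have hnn : 0 ≤ ∑ x ∈ p.L i u ∩ range i, ∑ y ∈ p.L i v ∩ range i,
        ind (insert x (insert y Z) ⊆ st.S) :=
      sum_nonneg fun _ _ => sum_nonneg fun _ _ => ind_nonneg _
    by_cases hZ : Z ⊆ st.S
    · by_cases hh : half st (p.L i u) ∧ half st (p.L i v)
      · rw [ind_true hZ, ind_true hh, mul_one]
        obtain ⟨x, hx⟩ := card_pos.1 (by have := hh.1; unfold half at this; omega :
          0 < (st.S ∩ p.L i u).card)
        obtain ⟨y, hy⟩ := card_pos.1 (by have := hh.2; unfold half at this; omega :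
          0 < (st.S ∩ p.L i v).card)
        rw [mem_inter] at hx hy
        have hx' : x ∈ p.L i u ∩ range i := mem_inter.2 ⟨hx.2, hI.S_sub hx.1⟩
        have hy' : y ∈ p.L i v ∩ range i := mem_inter.2 ⟨hy.2, hI.S_sub hy.1⟩
        have e1 : ind (insert x (insert y Z) ⊆ st.S) = 1 :=
          ind_true (insert_subset hx.1 (insert_subset hy.1 hZ))
        calc (1 : ℝ) = ind (insert x (insert y Z) ⊆ st.S) := e1.symm
          _ ≤ ∑ y ∈ p.L i v ∩ range i, ind (insert x (insert y Z) ⊆ st.S) :=
            single_le_sum (f := fun y => ind (insert x (insert y Z) ⊆ st.S))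
              (fun _ _ => ind_nonneg _) hy'
          _ ≤ _ := single_le_sum (f := fun x => ∑ y ∈ p.L i v ∩ range i,
              ind (insert x (insert y Z) ⊆ st.S))
              (fun _ _ => sum_nonneg fun _ _ => ind_nonneg _) hx'
      · rw [ind_false hh, mul_zero]; exact hnn
    · rw [ind_false hZ, zero_mul]; exact hnn
  refine h1.trans ?_
  rw [Ex_sum]
  have h2 : ∀ x ∈ p.L i u ∩ range i, Ex p i (fun st => ∑ y ∈ p.L i v ∩ range i,
        ind (insert x (insert y Z) ⊆ st.S)) ≤ cnt (p.L i v) i * G p ^ (Z.card + 2) := by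
    intro x hx
    rw [Ex_sum]
    have h3 : ∀ y ∈ p.L i v ∩ range i, Ex p i (fun st => ind (insert x (insert y Z) ⊆ st.S)) ≤
        G p ^ (Z.card + 2) := by
      intro y hy
      rw [mem_inter, mem_range] at hx hy
      have hxl : x ∉ l := geo hp hl (v := v) hu him hil hx.1 (by omega) (by omega)
      have hyl : y ∉ l := geo hp hl (v := v) hv him hil hy.1 (by omega) (by omega)
      have hxy : x ≠ y := by
        intro h; subst h
        exact geo2 hp hl hu hv huv him hil hx.1 (by omega) hy.1
      have hc : (insert x (insert y Z)).card = Z.card + 2 := by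
        rw [card_insert_of_notMem, card_insert_of_notMem]
        · exact fun h => hyl (hZl h)
        · rw [mem_insert, not_or]; exact ⟨hxy, fun h => hxl (hZl h)⟩
      have := Ex_ind_le hp him.le (insert x (insert y Z)) (by
        refine insert_subset (by simpa using hx.2) (insert_subset (by simpa using hy.2) hZi))
      rwa [hc] at this
    calc _ ≤ ∑ y ∈ p.L i v ∩ range i, G p ^ (Z.card + 2) := sum_le_sum h3
      _ = _ := by rw [sum_const, nsmul_eq_mul]; rfl
  calc _ ≤ ∑ x ∈ p.L i u ∩ range i, cnt (p.L i v) i * G p ^ (Z.card + 2) := sum_le_sum h2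
    _ = _ := by rw [sum_const, nsmul_eq_mul]; unfold cnt; ring

/-- second moments -/
theorem Ex_pair {p : Par} (hp : Good p) {l : Finset ℕ} (hl : IsLine p l) {u v i0 i : ℕ}
    (hu : u ∈ l) (hv : v ∈ l) (huv : u ≠ v) {Z : Finset ℕ} (hZl : Z ⊆ l) (hZi : Z ⊆ range i0)
    (h0i : i0 ≤ i) (hiu : i ≤ u) (hiv : i ≤ v) :
    Ex p i (fun st => ind (Z ⊆ st.S) * (st.P l u * st.P l v)) ≤
      Ex p i0 (fun st => ind (Z ⊆ st.S) * (st.P l u * st.P l v)) +
        24 * G p ^ (Z.card + 5) * cod p i u v := by
  have hG := G_nonneg hp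
  have hum := line_lt hp hl hu
  induction i, h0i using Nat.le_induction with
  | base =>
    have := cod_nonneg p i0 u v
    have : 0 ≤ 24 * G p ^ (Z.card + 5) * cod p i0 u v := by positivity
    linarith
  | succ i h0i ih =>
    have ih := ih (by omega) (by omega)
    have him : i < p.m := by omega
    have hiZ : i ∉ Z := by
      intro h; have := hZi h; rw [mem_range] at this; omega
    have hLuv : p.L u v = l := line_eq hp hl hu hv huv
    rw [Ex_succ, cod_succ, hLuv]
    have hav : ∀ st, Inv p i st →
        av p i (fun st => ind (Z ⊆ st.S) * (st.P l u * st.P l v)) st ≤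
        ind (Z ⊆ st.S) * (st.P l u * st.P l v) +
          (if i ∉ l then 24 * G p ^ 3 *
            (ind (Z ⊆ st.S) * ind (half st (p.L i u) ∧ half st (p.L i v))) else 0) := by
      intro st hI
      rw [av_cmul (h := fun st => ind (Z ⊆ st.S)) (f := fun st => st.P l u * st.P l v)
        (step_ind p _ st hiZ) (step_ind p _ st hiZ)]
      have hpp := av_PP hp hI l u v
      have hq0 : 0 ≤ q p i st := q_nonneg_of hI.P_nn
      have hqG : q p i st ≤ G p := q_le_G_of hp
      have hnn := ind_nonneg (Z ⊆ st.S)
      have hPu := hI.P_nn l u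
      have hPv := hI.P_nn l v
      have hPuG := hI.P_le l u
      have hPvG := hI.P_le l v
      have h1 := mul_le_mul_of_nonneg_left hpp hnn
      refine h1.trans ?_
      by_cases hil : i ∈ l
      · rw [if_neg (by simpa using hil)]
        rw [ind_false (P := act p i st l u ∧ act p i st l v) (fun h => h.1.1 hil)]
        apply le_of_eq; ring
      · rw [if_pos hil]
        have h2 : ind (act p i st l u ∧ act p i st l v) ≤
            ind (half st (p.L i u) ∧ half st (p.L i v)) := by
          by_cases hh : act p i st l u ∧ act p i st l v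
          · rw [ind_true hh, ind_true ⟨hh.1.2.2, hh.2.2.2⟩]
          · rw [ind_false hh]; exact ind_nonneg _
        have hnn2 := ind_nonneg (half st (p.L i u) ∧ half st (p.L i v))
        have h3 : st.P l u * st.P l v ≤ 2 * G p * (2 * G p) :=
          mul_le_mul hPuG hPvG hPv (by positivity)
        have h4 : 6 * q p i st * ind (act p i st l u ∧ act p i st l v) ≤
            6 * G p * ind (half st (p.L i u) ∧ half st (p.L i v)) :=
          mul_le_mul (by linarith) h2 (ind_nonneg _) (by positivity)
        have h5 : st.P l u * st.P l v * (6 * q p i st * ind (act p i st l u ∧ act p i st l v)) ≤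
            2 * G p * (2 * G p) * (6 * G p * ind (half st (p.L i u) ∧ half st (p.L i v))) :=
          mul_le_mul h3 h4 (mul_nonneg (by positivity) (ind_nonneg _)) (by positivity)
        have h6 := mul_le_mul_of_nonneg_left h5 hnn
        calc _ = ind (Z ⊆ st.S) * (st.P l u * st.P l v) + ind (Z ⊆ st.S) *
              (st.P l u * st.P l v * (6 * q p i st * ind (act p i st l u ∧ act p i st l v))) := by
              ring
          _ ≤ ind (Z ⊆ st.S) * (st.P l u * st.P l v) + ind (Z ⊆ st.S) * (2 * G p * (2 * G p) *
              (6 * G p * ind (half st (p.L i u) ∧ half st (p.L i v)))) := by linarith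
          _ = _ := by ring
    have h1 := Ex_mono hp him.le (f := av p i (fun st => ind (Z ⊆ st.S) * (st.P l u * st.P l v)))
      (g := fun st => ind (Z ⊆ st.S) * (st.P l u * st.P l v) +
          (if i ∉ l then 24 * G p ^ 3 *
            (ind (Z ⊆ st.S) * ind (half st (p.L i u) ∧ half st (p.L i v))) else 0))
      (fun st _ hI => hav st hI)
    refine h1.trans ?_
    rw [Ex_add]
    by_cases hil : i ∈ l
    · have : (fun st : St => (if i ∉ l then 24 * G p ^ 3 *
            (ind (Z ⊆ st.S) * ind (half st (p.L i u) ∧ half st (p.L i v))) else 0)) =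
            fun _ => 0 := by
        funext st; rw [if_neg (by simpa using hil)]
      rw [this, Ex_const, if_neg (by simpa using hil)]
      linarith
    · have : (fun st : St => (if i ∉ l then 24 * G p ^ 3 *
            (ind (Z ⊆ st.S) * ind (half st (p.L i u) ∧ half st (p.L i v))) else 0)) =
            fun st => 24 * G p ^ 3 *
            (ind (Z ⊆ st.S) * ind (half st (p.L i u) ∧ half st (p.L i v))) := by
        funext st; rw [if_pos hil]
      rw [this, Ex_cmul, if_pos hil]
      have h2 := half_half hp hl hu hv huv him hil (by omega) (by omega) hZl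
        (hZi.trans (range_subset_range.2 h0i))
      have h3 := mul_le_mul_of_nonneg_left h2 (by positivity : (0:ℝ) ≤ 24 * G p ^ 3)
      calc _ ≤ (Ex p i0 (fun st => ind (Z ⊆ st.S) * (st.P l u * st.P l v)) +
            24 * G p ^ (Z.card + 5) * cod p i u v) + 24 * G p ^ 3 *
            (cnt (p.L i u) i * cnt (p.L i v) i * G p ^ (Z.card + 2)) := add_le_add ih h3
        _ = _ := by ring

/-- third moments -/
theorem Ex_triple {p : Par} (hp : Good p) {l : Finset ℕ} (hl : IsLine p l) {a b c i : ℕ}
    (ha : a ∈ l) (hb : b ∈ l) (hc : c ∈ l) (hab : a ≠ b) (hac : a ≠ c) (hbc : b ≠ c)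
    (hia : i ≤ a) (hib : i ≤ b) (hic : i ≤ c) :
    Ex p i (fun st => st.P l a * st.P l b * st.P l c) ≤
      (1 / p.K) ^ 3 + 48 * G p ^ 6 * (cod p i a b + cod p i a c + cod p i b c) := by
  have hG := G_nonneg hp
  have ham := line_lt hp hl ha
  induction i with
  | zero =>
    show 1 / p.K * (1 / p.K) * (1 / p.K) ≤ _
    have h1 := cod_nonneg p 0 a b
    have h2 := cod_nonneg p 0 a c
    have h3 := cod_nonneg p 0 b c
    have : 0 ≤ 48 * G p ^ 6 * (cod p 0 a b + cod p 0 a c + cod p 0 b c) := by positivity
    have h4 : 1 / p.K * (1 / p.K) * (1 / p.K) = (1 / p.K) ^ 3 := by ring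
    linarith
  | succ i ih =>
    have ih := ih (by omega) (by omega) (by omega)
    have him : i < p.m := by omega
    have hLab : p.L a b = l := line_eq hp hl ha hb hab
    have hLac : p.L a c = l := line_eq hp hl ha hc hac
    have hLbc : p.L b c = l := line_eq hp hl hb hc hbc
    rw [Ex_succ, cod_succ, cod_succ, cod_succ, hLab, hLac, hLbc]
    set H : ℕ → ℕ → St → ℝ := fun u v st => ind (half st (p.L i u) ∧ half st (p.L i v)) with hH
    have hav : ∀ st, Inv p i st →
        av p i (fun st => st.P l a * st.P l b * st.P l c) st ≤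
        st.P l a * st.P l b * st.P l c +
          (if i ∉ l then 48 * G p ^ 4 * (H a b st + (H a c st + H b c st)) else 0) := by
      intro st hI
      have hpp := av_PPP hp hI l a b c
      have hq0 : 0 ≤ q p i st := q_nonneg_of hI.P_nn
      have hqG : q p i st ≤ G p := q_le_G_of hp
      have hPa := hI.P_nn l a
      have hPb := hI.P_nn l b
      have hPc := hI.P_nn l c
      have hPaG := hI.P_le l a
      have hPbG := hI.P_le l b
      have hPcG := hI.P_le l c
      refine hpp.trans ?_
      by_cases hil : i ∈ l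
      · rw [if_neg (by simpa using hil)]
        rw [ind_false (P := act p i st l a ∧ act p i st l b) (fun h => h.1.1 hil),
          ind_false (P := act p i st l a ∧ act p i st l c) (fun h => h.1.1 hil),
          ind_false (P := act p i st l b ∧ act p i st l c) (fun h => h.1.1 hil)]
        apply le_of_eq; ring
      · rw [if_pos hil]
        have hle : ∀ u v, ind (act p i st l u ∧ act p i st l v) ≤ H u v st := by
          intro u v
          by_cases hh : act p i st l u ∧ act p i st l v
          · rw [ind_true hh, hH]; simp only; rw [ind_true ⟨hh.1.2.2, hh.2.2.2⟩]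
          · rw [ind_false hh]; exact ind_nonneg _
        have h3 : st.P l a * st.P l b * st.P l c ≤ 2 * G p * (2 * G p) * (2 * G p) :=
          mul_le_mul (mul_le_mul hPaG hPbG hPb (by positivity)) hPcG hPc (by positivity)
        have hs0 : 0 ≤ ind (act p i st l a ∧ act p i st l b) + ind (act p i st l a ∧ act p i st l c)
            + ind (act p i st l b ∧ act p i st l c) :=
          add_nonneg (add_nonneg (ind_nonneg _) (ind_nonneg _)) (ind_nonneg _)
        have h4 : 6 * q p i st * (ind (act p i st l a ∧ act p i st l b) +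
            ind (act p i st l a ∧ act p i st l c) + ind (act p i st l b ∧ act p i st l c)) ≤
            6 * G p * (H a b st + (H a c st + H b c st)) :=
          mul_le_mul (by linarith) (by linarith [hle a b, hle a c, hle b c]) hs0 (by positivity)
        have h5 := mul_le_mul h3 h4 (mul_nonneg (by positivity) hs0) (by positivity)
        calc _ = st.P l a * st.P l b * st.P l c + (st.P l a * st.P l b * st.P l c) *
              (6 * q p i st * (ind (act p i st l a ∧ act p i st l b) +
              ind (act p i st l a ∧ act p i st l c) + ind (act p i st l b ∧ act p i st l c))) := by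
              ring
          _ ≤ st.P l a * st.P l b * st.P l c + 2 * G p * (2 * G p) * (2 * G p) *
              (6 * G p * (H a b st + (H a c st + H b c st))) := by linarith
          _ = _ := by ring
    have h1 := Ex_mono hp him.le (f := av p i (fun st => st.P l a * st.P l b * st.P l c))
      (g := fun st => st.P l a * st.P l b * st.P l c +
          (if i ∉ l then 48 * G p ^ 4 * (H a b st + (H a c st + H b c st)) else 0))
      (fun st _ hI => hav st hI)
    refine h1.trans ?_
    rw [Ex_add]
    by_cases hil : i ∈ l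
    · have : (fun st : St => (if i ∉ l then 48 * G p ^ 4 * (H a b st + (H a c st + H b c st))
            else 0)) = fun _ => 0 := by
        funext st; rw [if_neg (by simpa using hil)]
      rw [this, Ex_const, if_neg (by simpa using hil), if_neg (by simpa using hil),
        if_neg (by simpa using hil)]
      linarith
    · have : (fun st : St => (if i ∉ l then 48 * G p ^ 4 * (H a b st + (H a c st + H b c st))
            else 0)) = fun st => 48 * G p ^ 4 * (H a b st + (H a c st + H b c st)) := by
        funext st; rw [if_pos hil]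
      rw [this, Ex_cmul, if_pos hil, if_pos hil, if_pos hil, Ex_add, Ex_add]
      have hhh : ∀ u v, u ∈ l → v ∈ l → u ≠ v → i < u → i < v → Ex p i (H u v) ≤
          cnt (p.L i u) i * cnt (p.L i v) i * G p ^ 2 := by
        intro u v hu hv huv hiu hiv
        have := half_half hp hl hu hv huv him hil hiu hiv (Z := ∅) (by simp) (by simp)
        simp only [card_empty, zero_add, empty_subset, ind_true, one_mul] at this
        exact this
      have h2 := hhh a b ha hb hab (by omega) (by omega)
      have h3 := hhh a c ha hc hac (by omega) (by omega)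
      have h4 := hhh b c hb hc hbc (by omega) (by omega)
      have h5 := mul_le_mul_of_nonneg_left (add_le_add h2 (add_le_add h3 h4))
        (by positivity : (0:ℝ) ≤ 48 * G p ^ 4)
      calc _ ≤ ((1 / p.K) ^ 3 + 48 * G p ^ 6 * (cod p i a b + cod p i a c + cod p i b c)) +
            48 * G p ^ 4 * (cnt (p.L i a) i * cnt (p.L i b) i * G p ^ 2 +
            (cnt (p.L i a) i * cnt (p.L i c) i * G p ^ 2 +
            cnt (p.L i b) i * cnt (p.L i c) i * G p ^ 2)) := add_le_add ih h5
        _ = _ := by ring

end

end Pool.Agent.Helper60.GP
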