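import Pool.Agent.Helper60.GPMain

set_option autoImplicit false

namespace Pool.Agent.Helper60.GP

open Finset
open scoped Classical

noncomputable section

theorem q_le_two {p : Par} (hp : Good p) {i : ℕ} {st : St} (hI : Inv p i st) {l : Finset ℕ}
    (hl : IsLine p l) (hil : i ∈ l) (hY : st.Y l ≤ p.y0) : q p i st ≤ 2 * st.P l i := by
  have hPl := hI.P_nn l i
  by_cases hq0 : q p i st = 0
  · rw [hq0]; linarith
  · have hq' : p.K * st.P ∅ i ≤ p.cap ∧ q p i st = st.P ∅ i := by
      unfold q at hq0 ⊢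
      split_ifs at hq0 ⊢ with h
      · exact ⟨h.1, rfl⟩
      · exact absurd rfl hq0
    have hphi2 : st.phi l ≤ 2 :=
      (hI.I3 l hl hY).trans ((Real.exp_le_exp.2 (by linarith)).trans hp.y0_le)
    rcases hI.I1 l i hl hil (le_refl _) hq'.1 with h0 | ⟨_, h2⟩
    · exact absurd (hq'.2.trans h0) hq0
    · rw [hq'.2]
      nlinarith

/-- the increment of the accumulated hazard -/
def dl (p : Par) (x v : ℕ) (st : St) : ℝ :=
  if half st (p.L x v) ∧ p.K * st.P ∅ v ≤ p.cap ∧ st.Y (p.L x v) ≤ p.y0 then q p x st else 0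

theorem Ex_Pa {p : Par} (hp : Good p) (v i : ℕ) :
    Ex p i (fun st => st.P ∅ v * st.a v) =
      ∑ x ∈ range i, Ex p x (fun st => st.P ∅ v * dl p x v st) := by
  induction i with
  | zero => show _ * (0:ℝ) = _; simp
  | succ i ih =>
    rw [sum_range_succ, ← ih, Ex_succ, ← Ex_add]
    congr 1
    funext st
    have h1 := av_P hp i st ∅ v
    unfold av at h1 ⊢; beta_reduce at h1 ⊢
    have ha : ∀ b, (step p i b st).a v = st.a v + dl p i v st := by
      intro b
      show (if half st (p.L i v) ∧ p.K * st.P ∅ v ≤ p.cap ∧ st.Y (p.L i v) ≤ p.y0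
        then st.a v + q p i st else st.a v) = _
      unfold dl
      split_ifs
      · rfl
      · ring
    rw [ha, ha]
    calc _ = (q p i st * (step p i true st).P ∅ v + (1 - q p i st) * (step p i false st).P ∅ v) *
          (st.a v + dl p i v st) := by ring
      _ = _ := by rw [h1]; ring

theorem Ex_z {p : Par} (hp : Good p) {Q : ℝ}
    (hQ : ∀ u v i, u < p.m → v < p.m → u ≠ v → i ≤ u → i ≤ v → cod p i u v ≤ Q)
    {l : Finset ℕ} (hl : IsLine p l) {z x v : ℕ} (hz : z ∈ l) (hx : x ∈ l) (hv : v ∈ l)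
    (hzx : z < x) (hxv : x < v) :
    Ex p x (fun st => ind ({z} ⊆ st.S) * (st.P l x * st.P l v)) ≤
      2 * (1 / p.K) ^ 3 + 312 * G p ^ 6 * Q := by
  have hG := G_nonneg hp
  have hxm := line_lt hp hl hx
  have h1 := Ex_pair hp hl hx hv (by omega) (Z := {z}) (i0 := z + 1) (i := x)
    (by simpa using hz) (by simp) (by omega) (le_refl _) hxv.le
  have h2 := hQ x v x hxm (line_lt hp hl hv) (by omega) (le_refl _) hxv.le
  have h3 := mul_le_mul_of_nonneg_left h2
    (by positivity : (0:ℝ) ≤ 24 * G p ^ (({z} : Finset ℕ).card + 5))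
  have h4 : Ex p (z + 1) (fun st => ind ({z} ⊆ st.S) * (st.P l x * st.P l v)) ≤
      2 * Ex p z (fun st => st.P l z * st.P l x * st.P l v) := by
    rw [Ex_succ, ← Ex_cmul]
    refine Ex_mono hp (by omega) fun st _ hI => ?_
    have hPx := hI.P_nn l x
    have hPv := hI.P_nn l v
    have hPz := hI.P_nn l z
    have e1 : ∀ b w, (step p z b st).P l w = st.P l w := by
      intro b w
      rw [step_P, if_neg (fun h => h.1 hz)]
    have hzS : z ∉ st.S := fun h => by simpa using hI.S_sub h
    have e2 : ind ({z} ⊆ (step p z true st).S) = 1 := by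
      apply ind_true
      show {z} ⊆ (if true then insert z st.S else st.S)
      simp
    have e3 : ind ({z} ⊆ (step p z false st).S) = 0 := by
      apply ind_false
      show ¬ ({z} ⊆ (if false then insert z st.S else st.S))
      simpa using hzS
    unfold av; beta_reduce
    rw [e1, e1, e1, e1, e2, e3]
    have hq : q p z st ≤ 2 * st.P l z := by
      by_cases hY : st.Y l ≤ p.y0
      · exact q_le_two hp hI hl hz hY
      · have : q p z st = 0 := by
          unfold q
          rw [if_neg]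
          intro h
          apply hY
          have := h.2 x hxm (by omega)
          rwa [line_eq hp hl hx hz (by omega)] at this
        rw [this]; linarith
    have := mul_le_mul_of_nonneg_right hq (mul_nonneg hPx hPv)
    linarith
  have h5 := Ex_triple hp hl hz hx hv (by omega) (by omega) (by omega) (le_refl z) hzx.le
    (by omega)
  have hzm := line_lt hp hl hz
  have hvm := line_lt hp hl hv
  have c1 := hQ z x z hzm hxm (by omega) (le_refl _) hzx.le
  have c2 := hQ z v z hzm hvm (by omega) (le_refl _) (by omega)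
  have c3 := hQ x v z hxm hvm (by omega) hzx.le (by omega)
  have h6 := mul_le_mul_of_nonneg_left (add_le_add (add_le_add c1 c2) c3)
    (by positivity : (0:ℝ) ≤ 48 * G p ^ 6)
  rw [card_singleton] at h1 h3
  have h7 : Ex p z (fun st => st.P l z * st.P l x * st.P l v) ≤
      (1 / p.K) ^ 3 + 48 * G p ^ 6 * (Q + Q + Q) := by linarith
  have h8 := h4.trans (mul_le_mul_of_nonneg_left h7 (by norm_num : (0:ℝ) ≤ 2))
  refine h1.trans ((add_le_add h8 h3).trans (le_of_eq ?_))
  ring

theorem Ex_dl {p : Par} (hp : Good p) {Q : ℝ} (hQ0 : 0 ≤ Q)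
    (hQ : ∀ u v i, u < p.m → v < p.m → u ≠ v → i ≤ u → i ≤ v → cod p i u v ≤ Q)
    {x v : ℕ} (hxv : x < v) (hv : v < p.m) :
    Ex p x (fun st => st.P ∅ v * dl p x v st) ≤
      4 * cnt (p.L x v) x * (2 * (1 / p.K) ^ 3 + 312 * G p ^ 6 * Q) := by
  have hxm : x < p.m := by omega
  set l := p.L x v with hlv
  have hl : IsLine p l := isLine_L hxm hv (by omega)
  have hm := hp.mem x v hxm hv (by omega)
  have h1 : Ex p x (fun st => st.P ∅ v * dl p x v st) ≤
      Ex p x (fun st => 4 * ∑ z ∈ l ∩ range x, ind ({z} ⊆ st.S) * (st.P l x * st.P l v)) := by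
    refine Ex_mono hp hxm.le fun st _ hI => ?_
    have hPx := hI.P_nn l x
    have hPv := hI.P_nn l v
    have hP0 := hI.P_nn ∅ v
    have hnn : 0 ≤ 4 * ∑ z ∈ l ∩ range x, ind ({z} ⊆ st.S) * (st.P l x * st.P l v) :=
      mul_nonneg (by norm_num) (sum_nonneg fun z _ => mul_nonneg (ind_nonneg _)
        (mul_nonneg hPx hPv))
    unfold dl
    split_ifs with hc
    · rw [← hlv] at hc
      obtain ⟨hh, hcap, hY⟩ := hc
      have hphi2 : st.phi l ≤ 2 :=
        (hI.I3 l hl hY).trans ((Real.exp_le_exp.2 (by linarith)).trans hp.y0_le)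
      have hq := q_le_two hp hI hl hm.1 hY
      have hq0 : 0 ≤ q p x st := q_nonneg_of hI.P_nn
      have hPv2 : st.P ∅ v ≤ 2 * st.P l v := by
        rcases hI.I1 l v hl hm.2 hxv.le hcap with h0 | ⟨_, h2⟩
        · rw [h0]; linarith
        · nlinarith
      obtain ⟨z, hz⟩ := card_pos.1 (by unfold half at hh; omega : 0 < (st.S ∩ l).card)
      rw [mem_inter] at hz
      have hz' : z ∈ l ∩ range x := mem_inter.2 ⟨hz.2, hI.S_sub hz.1⟩
      have h3 : st.P l x * st.P l v ≤
          ∑ z ∈ l ∩ range x, ind ({z} ⊆ st.S) * (st.P l x * st.P l v) := by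
        have h4 := single_le_sum (f := fun z => ind ({z} ⊆ st.S) * (st.P l x * st.P l v))
          (s := l ∩ range x) (fun z _ => mul_nonneg (ind_nonneg _) (mul_nonneg hPx hPv)) hz'
        have h5 : ind ({z} ⊆ st.S) = 1 := ind_true (by simpa using hz.1)
        simp only [h5, one_mul] at h4
        exact h4
      have h6 : st.P ∅ v * q p x st ≤ (2 * st.P l v) * (2 * st.P l x) :=
        mul_le_mul hPv2 hq hq0 (by linarith)
      linarith
    · rw [mul_zero]; exact hnn
  refine h1.trans ?_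
  rw [Ex_cmul, Ex_sum]
  have h2 : ∑ z ∈ l ∩ range x, Ex p x (fun st => ind ({z} ⊆ st.S) * (st.P l x * st.P l v)) ≤
      ∑ _z ∈ l ∩ range x, (2 * (1 / p.K) ^ 3 + 312 * G p ^ 6 * Q) := by
    refine sum_le_sum fun z hz => ?_
    rw [mem_inter, mem_range] at hz
    exact Ex_z hp hQ hl hz.1 hm.1 hm.2 hz.2 hxv
  rw [sum_const, nsmul_eq_mul] at h2
  have h3 : ((l ∩ range x).card : ℝ) = cnt l x := rfl
  rw [h3] at h2
  linarith

/-- lower bound for the probability that `v` is chosen -/
theorem prob_lower {p : Par} (hp : Good p) (hcap1 : 1 < p.cap) {Q s δ D N : ℝ} (hQ0 : 0 ≤ Q)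
    (hs0 : 0 ≤ s)
    (hQ : ∀ u v i, u < p.m → v < p.m → u ≠ v → i ≤ u → i ≤ v → cod p i u v ≤ Q)
    (hs : ∀ l, IsLine p l → (l.card : ℝ) ≤ s) (hδ : 0 < δ)
    (hsK : s / p.K + δ ≤ p.y0) {v : ℕ} (hv : v < p.m)
    (hD : ∑ x ∈ range v, cnt (p.L x v) v ≤ D)
    (hN : ∑ x ∈ range v, cnt (p.L x v) x ≤ N) :
    1 / p.K - 2 * G p * ((2 * G p / p.y0) ^ 2 * D *
        ((1 / δ ^ 2) * (s ^ 2 * (24 * G p ^ 5 * Q) + s * (2 * G p / p.K))))
      - (2 / Real.log p.cap) * (4 * N * (2 * (1 / p.K) ^ 3 + 312 * G p ^ 6 * Q))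
      ≤ Ex p v (q p v) := by
  have hK := hp.K_pos
  have hG := G_nonneg hp
  have hlog : 0 < Real.log p.cap := Real.log_pos hcap1
  have hb := Ex_bad hp hQ0 hs0 hQ hs hδ hsK hv hD
  have ha : Ex p v (fun st => st.P ∅ v * st.a v) ≤
      4 * N * (2 * (1 / p.K) ^ 3 + 312 * G p ^ 6 * Q) := by
    rw [Ex_Pa hp]
    have hE : 0 ≤ 2 * (1 / p.K) ^ 3 + 312 * G p ^ 6 * Q := by positivity
    calc ∑ x ∈ range v, Ex p x (fun st => st.P ∅ v * dl p x v st)
        ≤ ∑ x ∈ range v, 4 * cnt (p.L x v) x * (2 * (1 / p.K) ^ 3 + 312 * G p ^ 6 * Q) :=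
          sum_le_sum fun x hx => Ex_dl hp hQ0 hQ (by simpa using hx) hv
      _ = 4 * (∑ x ∈ range v, cnt (p.L x v) x) * (2 * (1 / p.K) ^ 3 + 312 * G p ^ 6 * Q) := by
          rw [mul_sum, sum_mul]
      _ ≤ _ := by
          apply mul_le_mul_of_nonneg_right _ hE
          linarith
  have hmain : Ex p v (fun st => st.P ∅ v) ≤ Ex p v (fun st => q p v st +
      (2 * G p * ind (bad p v st) + (2 / Real.log p.cap) * (st.P ∅ v * st.a v))) := by
    refine Ex_mono hp hv.le fun st _ hI => ?_
    have hP0 := hI.P_nn ∅ v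
    have hPG := hI.P_le ∅ v
    have hq0 : 0 ≤ q p v st := q_nonneg_of hI.P_nn
    have ha0 := hI.a_nn v
    have hterm : 0 ≤ (2 / Real.log p.cap) * (st.P ∅ v * st.a v) := by positivity
    by_cases hbad : bad p v st
    · rw [ind_true hbad]; linarith
    · rw [ind_false hbad, mul_zero, zero_add]
      have hall : ∀ j, j < p.m → j ≠ v → st.Y (p.L j v) ≤ p.y0 := by
        intro j hj hjv
        by_contra h
        exact hbad ⟨j, hj, hjv, not_le.1 h⟩
      by_cases hc : p.K * st.P ∅ v ≤ p.cap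
      · have : q p v st = st.P ∅ v := by unfold q; rw [if_pos ⟨hc, hall⟩]
        rw [this]; linarith
      · have h2 := hI.I2 v (le_refl _) hv hall
        rw [not_le] at hc
        have h3 : Real.log p.cap ≤ 2 * st.a v := by
          have h4 : p.cap ≤ Real.exp (2 * st.a v) := hc.le.trans h2
          have h5 := Real.log_le_log (by linarith) h4
          rwa [Real.log_exp] at h5
        have h6 : st.P ∅ v ≤ (2 / Real.log p.cap) * (st.P ∅ v * st.a v) := by
          rw [div_mul_eq_mul_div, le_div_iff₀ hlog]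
          nlinarith
        linarith
  rw [Ex_P hp, Ex_add, Ex_add, Ex_cmul, Ex_cmul] at hmain
  have h7 := mul_le_mul_of_nonneg_left hb (by positivity : (0:ℝ) ≤ 2 * G p)
  have h8 := mul_le_mul_of_nonneg_left ha (by positivity : (0:ℝ) ≤ 2 / Real.log p.cap)
  have h9 : Ex p v (fun st => q p v st) = Ex p v (q p v) := rfl
  rw [h9] at hmain
  linarith

/-- probability that `v ∈ S` at a later time -/
theorem Ex_mem {p : Par} (hp : Good p) {v i : ℕ} (hvi : v < i) (him : i ≤ p.m) :
    Ex p i (fun st => ind ({v} ⊆ st.S)) = Ex p v (q p v) := by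
  induction i, hvi using Nat.le_induction with
  | base =>
    rw [show v.succ = v + 1 from rfl, Ex_succ]
    refine Ex_congr hp (by omega) fun st _ hI => ?_
    have hzS : v ∉ st.S := fun h => by simpa using hI.S_sub h
    have e2 : ind ({v} ⊆ (step p v true st).S) = 1 := by
      apply ind_true
      show {v} ⊆ (if true then insert v st.S else st.S)
      simp
    have e3 : ind ({v} ⊆ (step p v false st).S) = 0 := by
      apply ind_false
      show ¬ ({v} ⊆ (if false then insert v st.S else st.S))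
      simpa using hzS
    unfold av; beta_reduce
    rw [e2, e3]; ring
  | succ i hvi ih =>
    rw [← ih (by omega), Ex_succ]
    refine Ex_congr hp (by omega) fun st _ hI => ?_
    have hiv : i ∉ ({v} : Finset ℕ) := by rw [mem_singleton]; omega
    unfold av; beta_reduce
    rw [step_ind p true st hiv, step_ind p false st hiv]; ring

/-- existence of a good weighted independent set -/
theorem exists_set {p : Par} (hp : Good p) {c : ℝ} (hc : ∀ v, v < p.m → c ≤ Ex p v (q p v))
    (w : ℕ → ℝ) (hw : ∀ v, 0 ≤ w v) :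
    ∃ S : Finset ℕ, S ⊆ range p.m ∧ (∀ l, IsLine p l → (S ∩ l).card ≤ 2) ∧
      c * ∑ v ∈ range p.m, w v ≤ ∑ v ∈ S, w v := by
  obtain ⟨st, hr, hle⟩ := exists_ge hp (le_refl p.m)
    (fun st => ∑ v ∈ range p.m, w v * ind ({v} ⊆ st.S))
  have hI := reach_inv hp hr (le_refl _)
  refine ⟨st.S, hI.S_sub, fun l hl => (hI.I5 l hl).1, ?_⟩
  have h1 : ∑ v ∈ range p.m, w v * ind ({v} ⊆ st.S) = ∑ v ∈ st.S, w v := by
    rw [← sum_subset hI.S_sub (f := fun v => w v * ind ({v} ⊆ st.S))]
    · refine sum_congr rfl fun v hv => ?_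
      rw [ind_true (by simpa using hv), mul_one]
    · intro v _ hv
      rw [ind_false (by simpa using hv), mul_zero]
  rw [h1] at hle
  refine le_trans ?_ hle
  rw [Ex_sum, mul_sum]
  refine sum_le_sum fun v hv => ?_
  rw [mem_range] at hv
  rw [Ex_cmul, Ex_mem hp hv (le_refl _), mul_comm]
  exact mul_le_mul_of_nonneg_left (hc v hv) (hw v)

end

end Pool.Agent.Helper60.GP
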