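import Mathlib

/-!
# A sequential random process on a linear space

Vertices `0, …, m-1`, lines `L x y`.  In a fixed order every vertex joins the random set `S` with a
martingale probability `q`.  See `GPMain.lean` for the result.
-/

set_option autoImplicit false

namespace Pool.Agent.Helper60.GP

open Finset
open scoped Classical

noncomputable section

/-- state of the process -/
structure St where
  S : Finset ℕ
  P : Finset ℕ → ℕ → ℝ
  phi : Finset ℕ → ℝ
  Y : Finset ℕ → ℝ
  a : ℕ → ℝ

/-- parameters -/
structure Par where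
  m : ℕ
  L : ℕ → ℕ → Finset ℕ
  K : ℝ
  cap : ℝ
  y0 : ℝ

def init (p : Par) : St :=
  ⟨∅, fun _ _ => 1 / p.K, fun _ => 1, fun _ => 0, fun _ => 0⟩

/-- exactly one point of the line has been chosen -/
def half (st : St) (l : Finset ℕ) : Prop := (st.S ∩ l).card = 1

def q (p : Par) (i : ℕ) (st : St) : ℝ :=
  if p.K * st.P ∅ i ≤ p.cap ∧ ∀ j, j < p.m → j ≠ i → st.Y (p.L j i) ≤ p.y0 then st.P ∅ i else 0

/-- the multiplicative factor of `P E v` at step `i` is non trivial -/
def act (p : Par) (i : ℕ) (st : St) (E : Finset ℕ) (v : ℕ) : Prop :=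
  i ∉ E ∧ p.K * st.P E v ≤ p.cap ∧ half st (p.L i v)

def fac (p : Par) (i : ℕ) (b : Bool) (st : St) : ℝ :=
  if b then 0 else 1 / (1 - q p i st)

def step (p : Par) (i : ℕ) (b : Bool) (st : St) : St where
  S := if b then insert i st.S else st.S
  P := fun E v => if act p i st E v then st.P E v * fac p i b st else st.P E v
  phi := fun l => if i ∈ l ∧ half st l then st.phi l * fac p i b st else st.phi l
  Y := fun l => if i ∈ l then st.Y l + st.P l i else st.Y l
  a := fun v => if half st (p.L i v) ∧ p.K * st.P ∅ v ≤ p.cap ∧ st.Y (p.L i v) ≤ p.y0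
    then st.a v + q p i st else st.a v

inductive Reach (p : Par) : ℕ → St → Prop
  | zero : Reach p 0 (init p)
  | tt {i : ℕ} {st : St} : Reach p i st → q p i st ≠ 0 → Reach p (i + 1) (step p i true st)
  | ff {i : ℕ} {st : St} : Reach p i st → Reach p (i + 1) (step p i false st)

/-- the hypotheses on the linear space and on the parameters -/
structure Good (p : Par) : Prop where
  mem : ∀ x y, x < p.m → y < p.m → x ≠ y → x ∈ p.L x y ∧ y ∈ p.L x y
  sub : ∀ x y, p.L x y ⊆ range p.m
  symm : ∀ x y, p.L x y = p.L y x
  uniq : ∀ x y z, x < p.m → y < p.m → x ≠ y → z ∈ p.L x y → z ≠ x → p.L x z = p.L x y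
  K_pos : 0 < p.K
  cap_ge : 1 ≤ p.cap
  G_le : p.cap / p.K ≤ 1 / 2
  y0_pos : 0 < p.y0
  y0_le : Real.exp (4 * p.y0) ≤ 2

def IsLine (p : Par) (l : Finset ℕ) : Prop := ∃ x y, x < p.m ∧ y < p.m ∧ x ≠ y ∧ l = p.L x y

def G (p : Par) : ℝ := p.cap / p.K

section basic

variable {p : Par} (hp : Good p)
include hp

theorem G_pos : 0 < G p := div_pos (by linarith [hp.cap_ge]) hp.K_pos

theorem G_le' : G p ≤ 1 / 2 := hp.G_le

theorem G_nonneg : 0 ≤ G p := (G_pos hp).le

theorem le_G_of {x : ℝ} (h : p.K * x ≤ p.cap) : x ≤ G p := by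
  unfold G; rw [le_div_iff₀ hp.K_pos]; linarith

theorem line_eq {l : Finset ℕ} (hl : IsLine p l) {a b : ℕ} (ha : a ∈ l) (hb : b ∈ l)
    (hab : a ≠ b) : p.L a b = l := by
  obtain ⟨x, y, hx, hy, hxy, rfl⟩ := hl
  have ham : a < p.m := by simpa using hp.sub x y ha
  by_cases hax : a = x
  · subst hax
    exact hp.uniq _ _ _ hx hy hxy hb (Ne.symm hab)
  · have h1 : p.L x a = p.L x y := hp.uniq _ _ _ hx hy hxy ha hax
    have h2 : p.L a x = p.L x y := by rw [hp.symm, h1]
    have hb' : b ∈ p.L a x := by rw [h2]; exact hb
    rw [hp.uniq a x b ham hx hax hb' (Ne.symm hab), h2]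

omit hp in
theorem isLine_L {x y : ℕ} (hx : x < p.m) (hy : y < p.m) (hxy : x ≠ y) : IsLine p (p.L x y) :=
  ⟨x, y, hx, hy, hxy, rfl⟩

theorem line_lt {l : Finset ℕ} (hl : IsLine p l) {a : ℕ} (ha : a ∈ l) : a < p.m := by
  obtain ⟨x, y, hx, hy, hxy, rfl⟩ := hl
  simpa using hp.sub x y ha

end basic

/-- invariants of reachable states -/
structure Inv (p : Par) (i : ℕ) (st : St) : Prop where
  S_sub : st.S ⊆ range i
  P_nn : ∀ E v, 0 ≤ st.P E v
  P_le : ∀ E v, st.P E v ≤ 2 * G p
  Y_nn : ∀ l, 0 ≤ st.Y l
  phi_nn : ∀ l, 0 ≤ st.phi l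
  a_nn : ∀ v, 0 ≤ st.a v
  I1 : ∀ l v, IsLine p l → v ∈ l → i ≤ v → p.K * st.P ∅ v ≤ p.cap →
    st.P ∅ v = 0 ∨ (1 ≤ st.phi l ∧ st.P ∅ v ≤ st.phi l * st.P l v)
  I3 : ∀ l, IsLine p l → st.Y l ≤ p.y0 → st.phi l ≤ Real.exp (4 * st.Y l)
  I2 : ∀ v, i ≤ v → v < p.m → (∀ j, j < p.m → j ≠ v → st.Y (p.L j v) ≤ p.y0) →
    p.K * st.P ∅ v ≤ Real.exp (2 * st.a v)
  I4 : ∀ l, st.Y l ≤ 2 * G p * ((l ∩ range i).card : ℝ)
  I5 : ∀ l, IsLine p l → (st.S ∩ l).card ≤ 2 ∧ ((st.S ∩ l).card = 2 →
    ∀ v, v ∈ l → i ≤ v → st.P ∅ v = 0 ∨ p.cap < p.K * st.P ∅ v)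

theorem q_nonneg_of {p : Par} {i : ℕ} {st : St} (h : ∀ E v, 0 ≤ st.P E v) : 0 ≤ q p i st := by
  unfold q; split_ifs
  · exact h _ _
  · exact le_refl _

theorem q_le_G_of {p : Par} (hp : Good p) {i : ℕ} {st : St} : q p i st ≤ G p := by
  unfold q; split_ifs with h
  · exact le_G_of hp h.1
  · exact G_nonneg hp

theorem one_sub_q_pos {p : Par} (hp : Good p) {i : ℕ} {st : St} : 1 / 2 ≤ 1 - q p i st := by
  have := q_le_G_of hp (i := i) (st := st)
  have := G_le' hp
  linarith

theorem inv_one_sub_le_exp {x : ℝ} (h0 : 0 ≤ x) (h1 : x ≤ 1 / 2) :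
    1 / (1 - x) ≤ Real.exp (2 * x) := by
  have h2 : 1 / (1 - x) ≤ 1 + 2 * x := by
    rw [div_le_iff₀ (by linarith)]; nlinarith
  have h3 := Real.add_one_le_exp (2 * x)
  linarith

theorem inv_init {p : Par} (hp : Good p) : Inv p 0 (init p) := by
  have hK := hp.K_pos
  have h1K : 0 ≤ 1 / p.K := by positivity
  have hle : 1 / p.K ≤ G p := by
    unfold G
    exact div_le_div_of_nonneg_right hp.cap_ge hK.le
  have hG := G_pos hp
  constructor
  · simp [init]
  · intro E v; exact h1K
  · intro E v; show 1 / p.K ≤ _; linarith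
  · intro l; exact le_refl _
  · intro l; exact zero_le_one
  · intro l; exact le_refl _
  · intro l v _ _ _ _
    right
    refine ⟨le_refl _, ?_⟩
    show 1 / p.K ≤ 1 * (1 / p.K)
    linarith
  · intro l _ _
    show (1 : ℝ) ≤ Real.exp (4 * 0)
    simp
  · intro v _ _ _
    show p.K * (1 / p.K) ≤ Real.exp (2 * 0)
    rw [mul_one_div_cancel hK.ne']; simp
  · intro l
    show (0 : ℝ) ≤ _
    positivity
  · intro l _
    constructor
    · show (∅ ∩ l : Finset ℕ).card ≤ 2; simp
    · intro h
      exfalso
      have : ((init p).S ∩ l).card = 0 := by simp [init]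
      omega

theorem fac_true {p : Par} {i : ℕ} {st : St} : fac p i true st = 0 := by simp [fac]

theorem fac_false {p : Par} {i : ℕ} {st : St} : fac p i false st = 1 / (1 - q p i st) := by
  simp [fac]

theorem one_le_fac_false {p : Par} (hp : Good p) {i : ℕ} {st : St}
    (h : ∀ E v, 0 ≤ st.P E v) : 1 ≤ fac p i false st := by
  rw [fac_false, le_div_iff₀ (by linarith [one_sub_q_pos hp (i := i) (st := st)])]
  linarith [q_nonneg_of (p := p) (i := i) h]

theorem fac_nonneg {p : Par} (hp : Good p) {i : ℕ} {b : Bool} {st : St} : 0 ≤ fac p i b st := by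
  unfold fac; split_ifs
  · exact le_refl _
  · have := one_sub_q_pos hp (i := i) (st := st)
    positivity

theorem fac_le_two {p : Par} (hp : Good p) {i : ℕ} {b : Bool} {st : St} : fac p i b st ≤ 2 := by
  unfold fac; split_ifs
  · norm_num
  · have := one_sub_q_pos hp (i := i) (st := st)
    rw [div_le_iff₀ (by linarith)]; linarith

theorem inv_step {p : Par} (hp : Good p) {i : ℕ} {st : St} (hI : Inv p i st) (him : i < p.m)
    {b : Bool} (hb : b = true → q p i st ≠ 0) : Inv p (i + 1) (step p i b st) := by
  have hK := hp.K_pos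
  have hG := G_pos hp
  have hQ0 : 0 ≤ q p i st := q_nonneg_of hI.P_nn
  have hQG : q p i st ≤ G p := q_le_G_of hp
  have hQ2 : q p i st ≤ 1 / 2 := hQG.trans (G_le' hp)
  have hf0 : 0 ≤ fac p i b st := fac_nonneg hp
  have hf2 : fac p i b st ≤ 2 := fac_le_two hp
  have hYmono : ∀ l, st.Y l ≤ (step p i b st).Y l := by
    intro l
    show st.Y l ≤ (if i ∈ l then st.Y l + st.P l i else st.Y l)
    split_ifs
    · linarith [hI.P_nn l i]
    · exact le_refl _
  have hinS : i ∉ st.S := fun h => by simpa using hI.S_sub h
  constructor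
  · -- S_sub
    show (if b then insert i st.S else st.S) ⊆ range (i + 1)
    have h1 : st.S ⊆ range (i + 1) := hI.S_sub.trans (range_subset_range.2 (Nat.le_succ i))
    split_ifs
    · exact insert_subset (by simp) h1
    · exact h1
  · -- P_nn
    intro E v
    show 0 ≤ (if act p i st E v then st.P E v * fac p i b st else st.P E v)
    split_ifs
    · exact mul_nonneg (hI.P_nn _ _) hf0
    · exact hI.P_nn _ _
  · -- P_le
    intro E v
    show (if act p i st E v then st.P E v * fac p i b st else st.P E v) ≤ _
    split_ifs with h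
    · have h1 : st.P E v ≤ G p := le_G_of hp h.2.1
      have := mul_le_mul h1 hf2 hf0 hG.le
      linarith
    · exact hI.P_le _ _
  · -- Y_nn
    intro l
    exact (hI.Y_nn l).trans (hYmono l)
  · -- phi_nn
    intro l
    show 0 ≤ (if i ∈ l ∧ half st l then st.phi l * fac p i b st else st.phi l)
    split_ifs
    · exact mul_nonneg (hI.phi_nn _) hf0
    · exact hI.phi_nn _
  · -- a_nn
    intro v
    show 0 ≤ (if half st (p.L i v) ∧ p.K * st.P ∅ v ≤ p.cap ∧ st.Y (p.L i v) ≤ p.y0
      then st.a v + q p i st else st.a v)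
    split_ifs
    · linarith [hI.a_nn v]
    · exact hI.a_nn v
  · -- I1
    intro l v hl hv hiv hcap
    have hiv' : i ≠ v := by omega
    change p.K * (if act p i st ∅ v then st.P ∅ v * fac p i b st else st.P ∅ v) ≤ p.cap at hcap
    show (if act p i st ∅ v then st.P ∅ v * fac p i b st else st.P ∅ v) = 0 ∨
      (1 ≤ (if i ∈ l ∧ half st l then st.phi l * fac p i b st else st.phi l) ∧
      (if act p i st ∅ v then st.P ∅ v * fac p i b st else st.P ∅ v) ≤
      (if i ∈ l ∧ half st l then st.phi l * fac p i b st else st.phi l) *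
      (if act p i st l v then st.P l v * fac p i b st else st.P l v))
    by_cases hold : p.K * st.P ∅ v ≤ p.cap
    · have hIH := hI.I1 l v hl hv (by omega) hold
      by_cases hil : i ∈ l
      · have hL : p.L i v = l := line_eq hp hl hil hv hiv'
        have hact : ¬ act p i st l v := fun h => h.1 hil
        rw [if_neg hact]
        by_cases hh : half st l
        · have hact2 : act p i st ∅ v := ⟨by simp, hold, by rw [hL]; exact hh⟩
          rw [if_pos hact2, if_pos ⟨hil, hh⟩]
          rcases b with _ | _
          · have hf1 := one_le_fac_false hp (i := i) hI.P_nn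
            rcases hIH with h0 | ⟨h1, h2⟩
            · left; rw [h0, zero_mul]
            · right
              constructor
              · nlinarith
              · have := mul_le_mul_of_nonneg_right h2 hf0
                linarith
          · left; rw [fac_true, mul_zero]
        · have hact2 : ¬ act p i st ∅ v := fun h => hh (by rw [← hL]; exact h.2.2)
          rw [if_neg hact2, if_neg (fun h => hh h.2)]
          exact hIH
      · have hphi : ¬ (i ∈ l ∧ half st l) := fun h => hil h.1
        rw [if_neg hphi]
        by_cases hh : half st (p.L i v)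
        · have hact2 : act p i st ∅ v := ⟨by simp, hold, hh⟩
          rw [if_pos hact2] at hcap ⊢
          rcases b with _ | _
          · have hf1 := one_le_fac_false hp (i := i) hI.P_nn
            rcases hIH with h0 | ⟨h1, h2⟩
            · left; rw [h0, zero_mul]
            · right
              refine ⟨h1, ?_⟩
              by_cases hcl : p.K * st.P l v ≤ p.cap
              · have hact3 : act p i st l v := ⟨hil, hcl, hh⟩
                rw [if_pos hact3]
                have := mul_le_mul_of_nonneg_right h2 hf0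
                linarith
              · have hact3 : ¬ act p i st l v := fun h => hcl h.2.1
                rw [if_neg hact3]
                rw [not_le] at hcl
                have h3 : st.P ∅ v * fac p i false st ≤ st.P l v := by
                  have : p.K * (st.P ∅ v * fac p i false st) ≤ p.K * st.P l v := by linarith
                  exact le_of_mul_le_mul_left this hK
                have h4 : st.P l v ≤ st.phi l * st.P l v := by
                  nlinarith [hI.P_nn l v]
                linarith
          · left; rw [fac_true, mul_zero]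
        · have hact2 : ¬ act p i st ∅ v := fun h => hh h.2.2
          have hact3 : ¬ act p i st l v := fun h => hh h.2.2
          rw [if_neg hact2, if_neg hact3]
          exact hIH
    · have hact2 : ¬ act p i st ∅ v := fun h => hold h.2.1
      rw [if_neg hact2] at hcap
      exact absurd hcap hold
  · -- I3
    intro l hl hY
    have hYo : st.Y l ≤ p.y0 := (hYmono l).trans hY
    have hIH := hI.I3 l hl hYo
    change (if i ∈ l then st.Y l + st.P l i else st.Y l) ≤ p.y0 at hY
    show (if i ∈ l ∧ half st l then st.phi l * fac p i b st else st.phi l) ≤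
      Real.exp (4 * (if i ∈ l then st.Y l + st.P l i else st.Y l))
    by_cases hil : i ∈ l
    · rw [if_pos hil] at hY ⊢
      have hPl := hI.P_nn l i
      have hbase : st.phi l ≤ Real.exp (4 * (st.Y l + st.P l i)) :=
        hIH.trans (Real.exp_le_exp.2 (by linarith))
      by_cases hh : half st l
      · rw [if_pos ⟨hil, hh⟩]
        rcases b with _ | _
        · have hphi2 : st.phi l ≤ 2 := hIH.trans ((Real.exp_le_exp.2 (by linarith)).trans hp.y0_le)
          have h2Q : 2 * q p i st ≤ 4 * st.P l i := by
            by_cases hq0 : q p i st = 0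
            · rw [hq0]; linarith
            · have hq' : p.K * st.P ∅ i ≤ p.cap ∧ q p i st = st.P ∅ i := by
                unfold q at hq0 ⊢
                split_ifs at hq0 ⊢ with h
                · exact ⟨h.1, rfl⟩
                · exact absurd rfl hq0
              rcases hI.I1 l i hl hil (le_refl _) hq'.1 with h0 | ⟨h1, h2⟩
              · exact absurd (hq'.2.trans h0) hq0
              · rw [hq'.2]
                nlinarith
          rw [fac_false]
          have h3 := inv_one_sub_le_exp hQ0 hQ2
          calc st.phi l * (1 / (1 - q p i st)) ≤ Real.exp (4 * st.Y l) * Real.exp (2 * q p i st) :=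
                mul_le_mul hIH h3 (by
                  have := one_sub_q_pos hp (i := i) (st := st)
                  positivity) (Real.exp_nonneg _)
            _ = Real.exp (4 * st.Y l + 2 * q p i st) := by rw [← Real.exp_add]
            _ ≤ _ := Real.exp_le_exp.2 (by linarith)
        · rw [fac_true, mul_zero]; exact Real.exp_nonneg _
      · rw [if_neg (fun h => hh h.2)]; exact hbase
    · rw [if_neg hil]
      rw [if_neg (fun h => hil h.1)]
      exact hIH
  · -- I2
    intro v hiv hvm hY
    have hiv' : i ≠ v := by omega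
    have hYo : ∀ j, j < p.m → j ≠ v → st.Y (p.L j v) ≤ p.y0 :=
      fun j hj hjv => (hYmono _).trans (hY j hj hjv)
    have hIH := hI.I2 v (by omega) hvm hYo
    show p.K * (if act p i st ∅ v then st.P ∅ v * fac p i b st else st.P ∅ v) ≤
      Real.exp (2 * (if half st (p.L i v) ∧ p.K * st.P ∅ v ≤ p.cap ∧ st.Y (p.L i v) ≤ p.y0
      then st.a v + q p i st else st.a v))
    by_cases hact : act p i st ∅ v
    · have hc : half st (p.L i v) ∧ p.K * st.P ∅ v ≤ p.cap ∧ st.Y (p.L i v) ≤ p.y0 :=
        ⟨hact.2.2, hact.2.1, hYo i him hiv'⟩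
      rw [if_pos hact, if_pos hc]
      rcases b with _ | _
      · rw [fac_false]
        have h3 := inv_one_sub_le_exp hQ0 hQ2
        calc p.K * (st.P ∅ v * (1 / (1 - q p i st)))
            = (p.K * st.P ∅ v) * (1 / (1 - q p i st)) := by ring
          _ ≤ Real.exp (2 * st.a v) * Real.exp (2 * q p i st) :=
              mul_le_mul hIH h3 (by
                have := one_sub_q_pos hp (i := i) (st := st)
                positivity) (Real.exp_nonneg _)
          _ = Real.exp (2 * (st.a v + q p i st)) := by rw [← Real.exp_add]; ring_nf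
      · rw [fac_true, mul_zero, mul_zero]; exact Real.exp_nonneg _
    · rw [if_neg hact]
      refine hIH.trans (Real.exp_le_exp.2 ?_)
      split_ifs <;> linarith
  · -- I4
    intro l
    have hIH := hI.I4 l
    show (if i ∈ l then st.Y l + st.P l i else st.Y l) ≤ 2 * G p * ((l ∩ range (i + 1)).card : ℝ)
    split_ifs with hil
    · have h1 : l ∩ range (i + 1) = insert i (l ∩ range i) := by
        ext x
        simp only [mem_inter, mem_range, mem_insert]
        constructor
        · rintro ⟨h1, h2⟩
          rcases Nat.lt_succ_iff_lt_or_eq.1 h2 with h3 | h3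
          · right; exact ⟨h1, h3⟩
          · left; exact h3
        · rintro (h | ⟨h1, h2⟩)
          · subst h; exact ⟨hil, by omega⟩
          · exact ⟨h1, by omega⟩
      have h2 : i ∉ l ∩ range i := by simp
      rw [h1, card_insert_of_notMem h2]
      push_cast
      have := hI.P_le l i
      linarith
    · refine hIH.trans ?_
      have : (l ∩ range i).card ≤ (l ∩ range (i + 1)).card :=
        card_le_card (inter_subset_inter_left (range_subset_range.2 (Nat.le_succ i)))
      have h3 : ((l ∩ range i).card : ℝ) ≤ ((l ∩ range (i + 1)).card : ℝ) := by exact_mod_cast this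
      exact mul_le_mul_of_nonneg_left h3 (by linarith)
  · -- I5
    intro l hl
    have hIH := hI.I5 l hl
    show ((if b then insert i st.S else st.S) ∩ l).card ≤ 2 ∧
      (((if b then insert i st.S else st.S) ∩ l).card = 2 → ∀ v, v ∈ l → i + 1 ≤ v →
      (if act p i st ∅ v then st.P ∅ v * fac p i b st else st.P ∅ v) = 0 ∨
      p.cap < p.K * (if act p i st ∅ v then st.P ∅ v * fac p i b st else st.P ∅ v))
    have hkeep : ∀ v, v ∈ l → i + 1 ≤ v → (st.S ∩ l).card = 2 →
        ((if act p i st ∅ v then st.P ∅ v * fac p i b st else st.P ∅ v) = 0 ∨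
        p.cap < p.K * (if act p i st ∅ v then st.P ∅ v * fac p i b st else st.P ∅ v)) := by
      intro v hv hiv hc
      rcases hIH.2 hc v hv (by omega) with h0 | h1
      · left; rw [h0]; simp
      · have hact : ¬ act p i st ∅ v := fun h => absurd h.2.1 (not_le.2 h1)
        rw [if_neg hact]; right; exact h1
    by_cases hil : i ∈ l
    · rcases b with _ | _
      · simp only [Bool.false_eq_true, if_false]
        refine ⟨hIH.1, fun hc v hv hiv => ?_⟩
        have := hkeep v hv hiv hc
        simpa using this
      · simp only [if_true]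
        have hq0 := hb rfl
        have hq' : p.K * st.P ∅ i ≤ p.cap ∧ q p i st = st.P ∅ i := by
          unfold q at hq0 ⊢
          split_ifs at hq0 ⊢ with h
          · exact ⟨h.1, rfl⟩
          · exact absurd rfl hq0
        have hne2 : (st.S ∩ l).card ≠ 2 := by
          intro hc
          rcases hIH.2 hc i hil (le_refl _) with h0 | h1
          · exact hq0 (hq'.2.trans h0)
          · exact absurd hq'.1 (not_le.2 h1)
        have hins : (insert i st.S) ∩ l = insert i (st.S ∩ l) := insert_inter_of_mem hil
        have hni : i ∉ st.S ∩ l := fun h => hinS (mem_inter.1 h).1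
        rw [hins, card_insert_of_notMem hni]
        have h2 := hIH.1
        refine ⟨by omega, fun hc v hv hiv => ?_⟩
        have hh : half st l := by unfold half; omega
        have hL : p.L i v = l := line_eq hp hl hil hv (by omega)
        by_cases hcv : p.K * st.P ∅ v ≤ p.cap
        · have hact : act p i st ∅ v := ⟨by simp, hcv, by rw [hL]; exact hh⟩
          rw [if_pos hact, fac_true, mul_zero]; left; rfl
        · have hact : ¬ act p i st ∅ v := fun h => hcv h.2.1
          rw [if_neg hact]; right; exact not_le.1 hcv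
    · have hsame : (if b then insert i st.S else st.S) ∩ l = st.S ∩ l := by
        rcases b with _ | _
        · simp
        · simp only [if_true]; exact insert_inter_of_notMem hil
      rw [hsame]
      exact ⟨hIH.1, fun hc v hv hiv => hkeep v hv hiv hc⟩

theorem reach_inv {p : Par} (hp : Good p) {i : ℕ} {st : St} (h : Reach p i st) (hi : i ≤ p.m) :
    Inv p i st := by
  induction h with
  | zero => exact inv_init hp
  | tt h hq ih => exact inv_step hp (ih (by omega)) (by omega) (fun _ => hq)
  | ff h ih => exact inv_step hp (ih (by omega)) (by omega) (by simp)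

end

end Pool.Agent.Helper60.GP
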