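import Mathlib

open Finset

namespace Pool.Agent.Helper60.Jum

noncomputable section

structure Setup (A : Type*) [AddCommGroup A] [Fintype A] [DecidableEq A] where
  c : A → A → ℝ
  ψ : A → ℝ
  Q : ℝ
  hA2 : ∀ x : A, x + x = 0
  c_add : ∀ x y z, c (x+y) z = c x z * c y z
  c_comm : ∀ x y, c x y = c y x
  c_sq : ∀ x y, c x y * c x y = 1
  c_sum : ∀ x, x ≠ 0 → ∑ b, c b x = 0
  ψ_sq : ∀ x, ψ x * ψ x = 1
  hQ : 8 ≤ Q
  hcard : (Fintype.card A : ℝ) = Q^3
  hW : ∀ a b, (a ≠ 0 ∨ b ≠ 0) → (∑ x, c b x * ψ x * ψ (x+a))^2 = 0 ∨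
    (∑ x, c b x * ψ x * ψ (x+a))^2 = Q^4

namespace Setup

variable {A : Type*} [AddCommGroup A] [Fintype A] [DecidableEq A] (S : Setup A)

lemma Qpos : 0 < S.Q := by linarith [S.hQ]

lemma c_add' (x y z : A) : S.c x (y + z) = S.c x y * S.c x z := by
  rw [S.c_comm, S.c_add, S.c_comm y, S.c_comm z]

lemma c_zero (z : A) : S.c 0 z = 1 := by
  have h := S.c_add 0 0 z
  rw [add_zero, S.c_sq] at h
  exact h

lemma c_zero' (z : A) : S.c z 0 = 1 := by rw [S.c_comm, S.c_zero]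

include S in
lemma add_eq_zero_iff' (x y : A) : x + y = 0 ↔ y = x := by
  constructor
  · intro h
    calc y = (x + x) + y := by rw [S.hA2, zero_add]
      _ = x + (x + y) := by abel
      _ = x := by rw [h, add_zero]
  · rintro rfl; exact S.hA2 y

def N : ℝ := S.Q^3

lemma Npos : 0 < S.N := pow_pos S.Qpos 3

lemma sum_c (x : A) : ∑ b, S.c b x = if x = 0 then S.N else 0 := by
  split_ifs with h
  · subst h
    simp [S.c_zero', S.hcard, N]
  · exact S.c_sum x h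

/-- the inner product matrix -/
def U (v w : A × A) : ℝ := ∑ x, (S.c v.2 x * S.ψ (x + v.1)) * (S.c w.2 x * S.ψ (x + w.1))

def W (v : A × A) : ℝ := ∑ x, S.c v.2 x * S.ψ x * S.ψ (x + v.1)

def E (v : A × A) : ℝ := (S.W v)^2

lemma U_eq (v w : A × A) : S.U v w = S.c (v.2 + w.2) v.1 * S.W (v + w) := by
  unfold U W
  rw [mul_sum, ← Equiv.sum_comp (Equiv.addRight v.1)]
  refine sum_congr rfl fun x _ => ?_
  simp only [Equiv.coe_addRight, Prod.fst_add, Prod.snd_add]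
  have h1 : x + v.1 + v.1 = x := by rw [add_assoc, S.hA2, add_zero]
  have h2 : x + v.1 + w.1 = x + (v.1 + w.1) := by abel
  rw [h1, h2, S.c_add' v.2, S.c_add' w.2, S.c_add v.2 w.2, S.c_add v.2 w.2]
  ring

lemma U_sq (v w : A × A) : (S.U v w)^2 = S.E (v + w) := by
  rw [U_eq, mul_pow, pow_two (S.c _ _), S.c_sq, one_mul, E]

lemma U_comm (v w : A × A) : S.U v w = S.U w v := by
  unfold U
  exact sum_congr rfl fun x _ => by ring

lemma W_zero : S.W 0 = S.N := by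
  unfold W
  simp only [Prod.snd_zero, Prod.fst_zero, add_zero, S.c_zero, one_mul, S.ψ_sq]
  simp [S.hcard, N]

lemma U_self (v : A × A) : S.U v v = S.N := by
  rw [U_eq]
  have : v + v = 0 := by
    ext <;> simp [S.hA2]
  rw [this, W_zero, S.hA2, S.c_zero, one_mul]

lemma E_zero : S.E 0 = S.N^2 := by rw [E, W_zero]

lemma E_val (v : A × A) (hv : v ≠ 0) : S.E v = 0 ∨ S.E v = S.Q^4 := by
  apply S.hW v.1 v.2
  by_contra h
  push Not at h
  exact hv (Prod.ext h.1 h.2)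

lemma E_nonneg (v : A × A) : 0 ≤ S.E v := sq_nonneg _

lemma E_sq (v : A × A) : S.E v^2 = S.Q^4 * S.E v + if v = 0 then S.N^4 - S.Q^4 * S.N^2 else 0 := by
  split_ifs with h
  · subst h
    rw [E_zero]; ring
  · rcases S.E_val v h with h1 | h1 <;> rw [h1] <;> ring

/-- the symplectic character -/
def h (ξ v : A × A) : ℝ := S.c v.1 ξ.2 * S.c v.2 ξ.1

lemma h_comm (ξ v : A × A) : S.h ξ v = S.h v ξ := by
  unfold h
  rw [S.c_comm v.1, S.c_comm v.2]; ring

lemma h_add (ξ v w : A × A) : S.h ξ (v + w) = S.h ξ v * S.h ξ w := by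
  unfold h
  simp only [Prod.fst_add, Prod.snd_add, S.c_add]
  ring

lemma h_sq (ξ v : A × A) : S.h ξ v * S.h ξ v = 1 := by
  unfold h
  calc _ = (S.c v.1 ξ.2 * S.c v.1 ξ.2) * (S.c v.2 ξ.1 * S.c v.2 ξ.1) := by ring
    _ = 1 := by rw [S.c_sq, S.c_sq, one_mul]

lemma h_zero (v : A × A) : S.h 0 v = 1 := by
  unfold h
  simp [S.c_zero']

lemma h_orth (ξ η : A × A) : ∑ v, S.h ξ v * S.h η v = if ξ = η then S.N^2 else 0 := by
  have key : ∀ v : A × A, S.h ξ v * S.h η v = S.c v.1 (ξ.2 + η.2) * S.c v.2 (ξ.1 + η.1) := by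
    intro v
    unfold h
    rw [S.c_add', S.c_add']; ring
  rw [sum_congr rfl fun v _ => key v, Fintype.sum_prod_type]
  simp only [← mul_sum, ← sum_mul]
  rw [S.sum_c, S.sum_c]
  simp only [S.add_eq_zero_iff']
  by_cases h1 : η.2 = ξ.2
  · by_cases h2 : η.1 = ξ.1
    · have h3 : ξ = η := Prod.ext h2.symm h1.symm
      rw [if_pos h1, if_pos h2, if_pos h3]; ring
    · have h3 : ξ ≠ η := fun h => h2 (by rw [h])
      rw [if_neg h2, if_neg h3]; ring
  · have h3 : ξ ≠ η := fun h => h1 (by rw [h])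
    rw [if_neg h1, if_neg h3]; ring

/-- self duality of the squared ambiguity function -/
lemma self_dual (ξ : A × A) : ∑ v, S.E v * S.h ξ v = S.N * S.E ξ := by
  obtain ⟨c', d⟩ := ξ
  have h1 : ∀ a b : A, S.E (a, b) * S.h (c', d) (a, b) =
      ∑ x, ∑ y, (S.ψ x * S.ψ (x + a) * S.ψ y * S.ψ (y + a) * S.c a d) * S.c b (x + c' + y) := by
    intro a b
    unfold E W h
    simp only
    rw [pow_two, sum_mul_sum, sum_mul]
    refine sum_congr rfl fun x _ => ?_
    rw [sum_mul]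
    refine sum_congr rfl fun y _ => ?_
    rw [S.c_add', S.c_add']
    ring
  rw [Fintype.sum_prod_type]
  simp only [h1]
  have h2 : ∀ a : A, ∑ b, ∑ x, ∑ y, (S.ψ x * S.ψ (x + a) * S.ψ y * S.ψ (y + a) * S.c a d) *
      S.c b (x + c' + y) = ∑ x, (S.ψ x * S.ψ (x + a) * S.ψ (x + c') * S.ψ (x + c' + a) * S.c a d)
        * S.N := by
    intro a
    rw [sum_comm]
    refine sum_congr rfl fun x _ => ?_
    rw [sum_comm]
    simp only [← mul_sum, S.sum_c]
    simp only [S.add_eq_zero_iff', mul_ite, mul_zero, sum_ite_eq', mem_univ, if_true]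
  simp only [h2]
  unfold E W
  simp only
  rw [pow_two, sum_mul_sum, sum_comm, mul_sum]
  refine sum_congr rfl fun x _ => ?_
  rw [mul_sum]
  conv_rhs => rw [← Equiv.sum_comp (Equiv.addLeft x)]
  refine sum_congr rfl fun a _ => ?_
  simp only [Equiv.coe_addLeft]
  rw [S.c_add' d x a, S.c_comm a d]
  have e1 : x + c' + a = x + a + c' := by abel
  rw [e1]
  have e2 := S.c_sq d x
  calc _ = S.ψ x * S.ψ (x + a) * S.ψ (x + c') * S.ψ (x + a + c') * S.c d a * S.N * 1 := by ring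
    _ = S.ψ x * S.ψ (x + a) * S.ψ (x + c') * S.ψ (x + a + c') * S.c d a * S.N *
        (S.c d x * S.c d x) := by rw [e2]
    _ = _ := by ring

lemma E_inv (v : A × A) : S.E v = S.N⁻¹ * ∑ ξ, S.E ξ * S.h ξ v := by
  have := S.self_dual v
  have h2 : ∑ ξ, S.E ξ * S.h ξ v = S.N * S.E v := by
    rw [← this]
    exact sum_congr rfl fun ξ _ => by rw [S.h_comm]
  rw [h2, ← mul_assoc, inv_mul_cancel₀ S.Npos.ne', one_mul]

def hat (f : A × A → ℝ) (ξ : A × A) : ℝ := ∑ v, f v * S.h ξ v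

lemma bilin (f g : A × A → ℝ) : ∑ v, ∑ w, f v * g w * S.E (v + w) =
    S.N⁻¹ * ∑ ξ, S.E ξ * (S.hat f ξ * S.hat g ξ) := by
  have h1 : ∀ v w : A × A, f v * g w * S.E (v + w) =
      ∑ ξ, S.N⁻¹ * (S.E ξ * ((f v * S.h ξ v) * (g w * S.h ξ w))) := by
    intro v w
    rw [S.E_inv (v + w), ← mul_assoc, mul_sum]
    refine sum_congr rfl fun ξ _ => ?_
    rw [S.h_add]; ring
  simp only [h1]
  have h2 : ∀ v : A × A, ∑ w, ∑ ξ, S.N⁻¹ * (S.E ξ * ((f v * S.h ξ v) * (g w * S.h ξ w))) =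
      ∑ ξ, S.N⁻¹ * (S.E ξ * ((f v * S.h ξ v) * S.hat g ξ)) := by
    intro v
    rw [sum_comm]
    refine sum_congr rfl fun ξ _ => ?_
    simp only [← mul_sum, hat]
  simp only [h2]
  rw [sum_comm, mul_sum]
  refine sum_congr rfl fun ξ _ => ?_
  simp only [← mul_sum, ← sum_mul, hat]

lemma parseval (f : A × A → ℝ) : ∑ ξ, S.hat f ξ ^ 2 = S.N^2 * ∑ v, f v ^ 2 := by
  have h1 : ∀ ξ, S.hat f ξ ^ 2 = ∑ v, ∑ w, f v * f w * (S.h v ξ * S.h w ξ) := by
    intro ξ
    rw [pow_two, hat, sum_mul_sum]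
    refine sum_congr rfl fun v _ => sum_congr rfl fun w _ => ?_
    rw [S.h_comm v, S.h_comm w]; ring
  simp only [h1]
  rw [sum_comm, mul_sum]
  refine sum_congr rfl fun v _ => ?_
  rw [sum_comm]
  simp only [← mul_sum, S.h_orth]
  simp only [mul_ite, mul_zero, sum_ite_eq, mem_univ, if_true]
  ring

lemma U_mul (v z : A × A) : ∑ w, S.U v w * S.U w z = S.N^2 * S.U v z := by
  have h1 : ∀ w, S.U v w * S.U w z = ∑ x, ∑ y, ((S.c v.2 x * S.ψ (x + v.1)) *
      (S.c z.2 y * S.ψ (y + z.1))) * (S.c w.2 (x + y) * (S.ψ (x + w.1) * S.ψ (y + w.1))) := by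
    intro w
    unfold U
    rw [sum_mul_sum]
    refine sum_congr rfl fun x _ => sum_congr rfl fun y _ => ?_
    rw [S.c_add']; ring
  simp only [h1]
  rw [sum_comm]
  unfold U
  rw [mul_sum]
  refine sum_congr rfl fun x _ => ?_
  rw [sum_comm]
  have h2 : ∀ y, ∑ w : A × A, ((S.c v.2 x * S.ψ (x + v.1)) *
      (S.c z.2 y * S.ψ (y + z.1))) * (S.c w.2 (x + y) * (S.ψ (x + w.1) * S.ψ (y + w.1))) =
      if y = x then ((S.c v.2 x * S.ψ (x + v.1)) * (S.c z.2 y * S.ψ (y + z.1))) * S.N^2 else 0 := by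
    intro y
    rw [← mul_sum, Fintype.sum_prod_type]
    simp only
    have h3 : ∀ a : A, ∑ b, S.c b (x + y) * (S.ψ (x + a) * S.ψ (y + a)) =
        if y = x then S.N else 0 := by
      intro a
      rw [← sum_mul, S.sum_c]
      simp only [S.add_eq_zero_iff']
      split_ifs with h4
      · subst h4
        rw [S.ψ_sq, mul_one]
      · simp
    simp only [h3]
    split_ifs with h4
    · simp only [sum_const, card_univ, nsmul_eq_mul, S.hcard]
      unfold N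
      ring
    · simp
  simp only [h2, sum_ite_eq', mem_univ, if_true]
  ring

/-- codegree identity -/
lemma E_mul (v z : A × A) : ∑ w, S.E (v + w) * S.E (w + z) =
    S.Q^4 * S.N * S.E (v + z) + (S.N^4 - S.Q^4 * S.N^2) := by
  have h1 : ∀ w, S.E (v + w) * S.E (w + z) = ∑ ξ, ∑ η, (S.N⁻¹ * S.N⁻¹ * (S.E ξ * S.E η) *
      (S.h ξ v * S.h η z)) * (S.h ξ w * S.h η w) := by
    intro w
    rw [S.E_inv (v + w), S.E_inv (w + z)]
    calc _ = S.N⁻¹ * S.N⁻¹ * ((∑ ξ, S.E ξ * S.h ξ (v + w)) * ∑ ξ, S.E ξ * S.h ξ (w + z)) := by ring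
      _ = _ := by
        rw [sum_mul_sum, mul_sum]
        refine sum_congr rfl fun ξ _ => ?_
        rw [mul_sum]
        refine sum_congr rfl fun η _ => ?_
        rw [S.h_add, S.h_add]; ring
  simp only [h1]
  rw [sum_comm]
  have h2 : ∀ ξ, ∑ w, ∑ η, (S.N⁻¹ * S.N⁻¹ * (S.E ξ * S.E η) *
      (S.h ξ v * S.h η z)) * (S.h ξ w * S.h η w) = S.E ξ ^ 2 * S.h ξ (v + z) := by
    intro ξ
    rw [sum_comm]
    simp only [← mul_sum, S.h_orth]
    simp only [mul_ite, mul_zero, sum_ite_eq, mem_univ, if_true]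
    rw [S.h_add]
    have := S.Npos.ne'
    field_simp
  simp only [h2, S.E_sq, add_mul, sum_add_distrib, ite_mul, zero_mul, sum_ite_eq', mem_univ,
    if_true, S.h_zero, mul_one]
  congr 1
  have h3 := S.E_inv (v + z)
  have h4 : ∑ ξ, S.E ξ * S.h ξ (v + z) = S.N * S.E (v + z) := by
    rw [h3, ← mul_assoc, mul_inv_cancel₀ S.Npos.ne', one_mul]
  calc _ = S.Q^4 * ∑ ξ, S.E ξ * S.h ξ (v + z) := by
        rw [mul_sum]; exact sum_congr rfl fun _ _ => by ring
    _ = _ := by rw [h4]; ring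

end Setup

end

end Pool.Agent.Helper60.Jum
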