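import Pool.Agent.Helper60.JumAbs

open Finset

namespace Pool.Agent.Helper60.Jum

noncomputable section

/-- data of a signed graph with two-level codegrees -/
structure Signed (V : Type*) [Fintype V] [DecidableEq V] where
  s : V → V → ℝ
  kap : ℝ
  lam : ℝ
  val : ∀ v w, s v w = 0 ∨ s v w = 1 ∨ s v w = -1
  symm : ∀ v w, s v w = s w v
  diag : ∀ v, s v v = 0
  cod1 : ∀ v z, v ≠ z → ∑ w, s v w * s w z = kap * s v z
  cod2 : ∀ v z, s v z ≠ 0 → ∑ w, s v w ^ 2 * s w z ^ 2 = lam

namespace Signed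

variable {V : Type*} [Fintype V] [DecidableEq V] (S : Signed V)

def P (v w : V) : ℝ := (S.s v w ^ 2 - S.s v w) / 2

def K : ℝ := ∑ v, ∑ w, S.s v w ^ 2
def Sig : ℝ := ∑ v, ∑ w, S.s v w
def tau : ℝ := ∑ v, ∑ z, ∑ w, S.P v w * S.P w z * S.P v z

lemma P_val (v w : V) : S.P v w = if S.s v w = -1 then 1 else 0 := by
  unfold P
  rcases S.val v w with h | h | h <;> rw [h] <;> norm_num

lemma P_nonneg (v w : V) : 0 ≤ S.P v w := by
  rw [P_val]; split_ifs <;> norm_num

lemma P_symm (v w : V) : S.P v w = S.P w v := by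
  unfold P; rw [S.symm]

lemma cube (v w : V) : S.s v w ^ 3 = S.s v w := by
  rcases S.val v w with h | h | h <;> rw [h] <;> norm_num

/-- sum over triples, with the (v,z) pair outermost -/
lemma t1 : ∑ v, ∑ z, ∑ w, S.s v z ^ 2 * (S.s v w ^ 2 * S.s w z ^ 2) = S.lam * S.K := by
  unfold K
  rw [mul_sum]
  refine sum_congr rfl fun v _ => ?_
  rw [mul_sum]
  refine sum_congr rfl fun z _ => ?_
  rw [← mul_sum]
  by_cases h : S.s v z = 0
  · rw [h]; ring
  · rw [S.cod2 v z h]; ring

lemma t2 : ∑ v, ∑ z, ∑ w, S.s v z * (S.s v w ^ 2 * S.s w z ^ 2) = S.lam * S.Sig := by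
  unfold Sig
  rw [mul_sum]
  refine sum_congr rfl fun v _ => ?_
  rw [mul_sum]
  refine sum_congr rfl fun z _ => ?_
  rw [← mul_sum]
  by_cases h : S.s v z = 0
  · rw [h]; ring
  · rw [S.cod2 v z h]; ring

lemma t3 : ∑ v, ∑ z, ∑ w, S.s v z ^ 2 * (S.s v w * S.s w z) = S.kap * S.Sig := by
  unfold Sig
  rw [mul_sum]
  refine sum_congr rfl fun v _ => ?_
  rw [mul_sum]
  refine sum_congr rfl fun z _ => ?_
  rw [← mul_sum]
  by_cases h : v = z
  · subst h; rw [S.diag]; ring
  · rw [S.cod1 v z h]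
    calc _ = S.kap * S.s v z ^ 3 := by ring
      _ = _ := by rw [S.cube]

lemma t4 : ∑ v, ∑ z, ∑ w, S.s v z * (S.s v w * S.s w z) = S.kap * S.K := by
  unfold K
  rw [mul_sum]
  refine sum_congr rfl fun v _ => ?_
  rw [mul_sum]
  refine sum_congr rfl fun z _ => ?_
  rw [← mul_sum]
  by_cases h : v = z
  · subst h; rw [S.diag]; ring
  · rw [S.cod1 v z h]
    ring

/-- rotate the triple (v,z,w) -> exchange roles of z and w -/
lemma rot1 (f : ℝ → ℝ → ℝ → ℝ) :
    ∑ v, ∑ z, ∑ w, f (S.s v z) (S.s v w) (S.s w z) =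
      ∑ v, ∑ z, ∑ w, f (S.s v w) (S.s v z) (S.s w z) := by
  refine sum_congr rfl fun v _ => ?_
  rw [sum_comm]
  refine sum_congr rfl fun z _ => sum_congr rfl fun w _ => ?_
  rw [S.symm z w]

/-- exchange v and w-/
lemma rot2 (f : ℝ → ℝ → ℝ → ℝ) :
    ∑ v, ∑ z, ∑ w, f (S.s v z) (S.s v w) (S.s w z) =
      ∑ v, ∑ z, ∑ w, f (S.s w z) (S.s v w) (S.s v z) := by
  have h1 : ∀ v, ∑ z, ∑ w, f (S.s v z) (S.s v w) (S.s w z) =
    ∑ w, ∑ z, f (S.s v z) (S.s v w) (S.s w z) := fun v => sum_comm
  simp only [h1]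
  rw [sum_comm]
  refine sum_congr rfl fun w _ => ?_
  rw [sum_comm]
  refine sum_congr rfl fun z _ => sum_congr rfl fun v _ => ?_
  rw [S.symm v w]

lemma tau_eq : 8 * S.tau = (S.lam - S.kap) * (S.K - 3 * S.Sig) := by
  have e : ∀ v z w, 8 * (S.P v w * S.P w z * S.P v z) =
      S.s v z ^ 2 * (S.s v w ^ 2 * S.s w z ^ 2)
      - S.s v z ^ 2 * (S.s v w ^ 2 * S.s w z)
      - S.s v z ^ 2 * (S.s v w * S.s w z ^ 2)
      + S.s v z ^ 2 * (S.s v w * S.s w z)
      - S.s v z * (S.s v w ^ 2 * S.s w z ^ 2)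
      + S.s v z * (S.s v w ^ 2 * S.s w z)
      + S.s v z * (S.s v w * S.s w z ^ 2)
      - S.s v z * (S.s v w * S.s w z) := by
    intro v z w
    unfold P
    ring
  have h1 : ∑ v, ∑ z, ∑ w, S.s v z ^ 2 * (S.s v w ^ 2 * S.s w z) = S.lam * S.Sig := by
    rw [S.rot2 (fun a b c => a ^ 2 * (b ^ 2 * c)), ← S.t2]
    exact sum_congr rfl fun _ _ => sum_congr rfl fun _ _ => sum_congr rfl fun _ _ => by ring
  have h2 : ∑ v, ∑ z, ∑ w, S.s v z ^ 2 * (S.s v w * S.s w z ^ 2) = S.lam * S.Sig := by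
    rw [S.rot1 (fun a b c => a ^ 2 * (b * c ^ 2)), ← S.t2]
    exact sum_congr rfl fun _ _ => sum_congr rfl fun _ _ => sum_congr rfl fun _ _ => by ring
  have h3 : ∑ v, ∑ z, ∑ w, S.s v z * (S.s v w ^ 2 * S.s w z) = S.kap * S.Sig := by
    rw [S.rot1 (fun a b c => a * (b ^ 2 * c)), ← S.t3]
    exact sum_congr rfl fun _ _ => sum_congr rfl fun _ _ => sum_congr rfl fun _ _ => by ring
  have h4 : ∑ v, ∑ z, ∑ w, S.s v z * (S.s v w * S.s w z ^ 2) = S.kap * S.Sig := by
    rw [S.rot2 (fun a b c => a * (b * c ^ 2)), ← S.t3]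
    exact sum_congr rfl fun _ _ => sum_congr rfl fun _ _ => sum_congr rfl fun _ _ => by ring
  unfold tau
  simp only [mul_sum, e, sum_add_distrib, sum_sub_distrib]
  rw [S.t1, S.t2, S.t3, S.t4, h1, h2, h3, h4]
  ring

lemma cod_neg (v z : V) (h : S.s v z = -1) : ∑ w, S.P v w * S.P w z ≤ (S.lam - S.kap) / 2 := by
  have hne : v ≠ z := by
    rintro rfl
    rw [S.diag] at h
    norm_num at h
  have h1 : ∀ w, S.P v w * S.P w z ≤
      (S.s v w ^ 2 * S.s w z ^ 2 + S.s v w * S.s w z) / 2 := by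
    intro w
    unfold P
    rcases S.val v w with h1 | h1 | h1 <;> rcases S.val w z with h2 | h2 | h2 <;>
      rw [h1, h2] <;> norm_num
  calc _ ≤ ∑ w, (S.s v w ^ 2 * S.s w z ^ 2 + S.s v w * S.s w z) / 2 := sum_le_sum fun w _ => h1 w
    _ = (∑ w, S.s v w ^ 2 * S.s w z ^ 2 + ∑ w, S.s v w * S.s w z) / 2 := by
      rw [← sum_div, sum_add_distrib]
    _ = _ := by
      rw [S.cod2 v z (by rw [h]; norm_num), S.cod1 v z hne, h]; ring

lemma lam_kap_nonneg_of (h : ∃ v z, S.s v z = -1) : 0 ≤ S.lam - S.kap := by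
  obtain ⟨v, z, h⟩ := h
  have := S.cod_neg v z h
  have h2 : 0 ≤ ∑ w, S.P v w * S.P w z :=
    sum_nonneg fun w _ => mul_nonneg (S.P_nonneg _ _) (S.P_nonneg _ _)
  linarith

/-- the graph of negative edges -/
def H : SimpleGraph V where
  Adj v w := S.s v w = -1
  symm := ⟨fun v w h => by rw [← S.symm]; exact h⟩
  loopless := ⟨fun v h => by rw [S.diag] at h; norm_num at h⟩

/-- the graph of nonzero entries -/
def G : SimpleGraph V where
  Adj v w := S.s v w ≠ 0
  symm := ⟨fun v w h => by rw [← S.symm]; exact h⟩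
  loopless := ⟨fun v h => by simp [S.diag] at h⟩

lemma H_le_G : S.H ≤ S.G := by
  intro v w h
  have h' : S.s v w = -1 := h
  show S.s v w ≠ 0
  rw [h']; norm_num

lemma P_eq_adj [DecidableRel S.H.Adj] (v w : V) : S.P v w = if S.H.Adj v w then 1 else 0 := by
  rw [P_val]
  congr 1

lemma tau_le (hlk : 0 ≤ S.lam - S.kap) : S.tau ≤ (S.lam - S.kap) / 2 * S.K := by
  unfold tau K
  rw [mul_sum]
  refine sum_le_sum fun v _ => ?_
  rw [mul_sum]
  refine sum_le_sum fun z _ => ?_
  rw [← sum_mul, P_val S v z]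
  split_ifs with h
  · rw [mul_one]
    calc _ ≤ _ := S.cod_neg v z h
      _ = _ := by rw [h]; ring
  · rw [mul_zero]; positivity

/-- number of triangles is at most tau -/
lemma triangles_le (T : Finset (Finset V)) (hT : ∀ t ∈ T, S.H.IsNClique 3 t) :
    (T.card : ℝ) ≤ S.tau := by
  classical
  have hex : ∀ t : {t // t ∈ T}, ∃ q : V × V × V,
      (S.s q.1 q.2.1 = -1 ∧ S.s q.2.1 q.2.2 = -1 ∧ S.s q.1 q.2.2 = -1 ∧
        t.1 = {q.1, q.2.1, q.2.2}) := by
    intro t
    obtain ⟨a, b, c, hab, hac, hbc, hh⟩ := SimpleGraph.is3Clique_iff.1 (hT t.1 t.2)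
    exact ⟨(a, b, c), hab, hbc, hac, hh⟩
  choose q hq using hex
  have hinj : Function.Injective q := by
    intro t t' h
    apply Subtype.ext
    rw [(hq t).2.2.2, (hq t').2.2.2, h]
  have h1 : T.card = (T.attach.image q).card := by
    rw [card_image_of_injective _ hinj, card_attach]
  have h2 : ((T.attach.image q).card : ℝ) ≤ ∑ r : V × V × V, S.P r.1 r.2.1 * S.P r.2.1 r.2.2 *
      S.P r.1 r.2.2 := by
    rw [card_eq_sum_ones, Nat.cast_sum]
    calc _ ≤ ∑ r ∈ T.attach.image q, S.P r.1 r.2.1 * S.P r.2.1 r.2.2 * S.P r.1 r.2.2 := by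
          refine sum_le_sum fun r hr => ?_
          obtain ⟨t, ht, rfl⟩ := mem_image.1 hr
          obtain ⟨e1, e2, e3, _⟩ := hq t
          rw [P_val, P_val, P_val, e1, e2, e3]
          norm_num
      _ ≤ _ := sum_le_univ_sum_of_nonneg fun r =>
          mul_nonneg (mul_nonneg (S.P_nonneg _ _) (S.P_nonneg _ _)) (S.P_nonneg _ _)
  rw [h1]
  refine h2.trans (le_of_eq ?_)
  rw [Fintype.sum_prod_type]
  unfold tau
  refine sum_congr rfl fun v _ => ?_
  rw [Fintype.sum_prod_type, sum_comm]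

/-- an edge set meeting all triangles is large -/
lemma cover (F : Finset (Sym2 V)) (hF : (S.H.deleteEdges F).CliqueFree 3)
    (hlk : 0 ≤ S.lam - S.kap) : S.tau ≤ 3 * (S.lam - S.kap) * F.card := by
  classical
  let φ : V → V → ℝ := fun v w => if s(v, w) ∈ F then 1 else 0
  have hφ0 : ∀ v w, 0 ≤ φ v w := by
    intro v w; simp only [φ]; split_ifs <;> norm_num
  have hφs : ∀ v w, φ v w = φ w v := by
    intro v w; simp only [φ, Sym2.eq_swap]
  have h1 : ∀ v z w, S.P v w * S.P w z * S.P v z ≤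
      S.P v w * S.P w z * S.P v z * φ v z + S.P v w * S.P w z * S.P v z * φ v w +
      S.P v w * S.P w z * S.P v z * φ w z := by
    intro v z w
    have hnn : 0 ≤ S.P v w * S.P w z * S.P v z :=
      mul_nonneg (mul_nonneg (S.P_nonneg _ _) (S.P_nonneg _ _)) (S.P_nonneg _ _)
    by_cases hc : S.s v w = -1 ∧ S.s w z = -1 ∧ S.s v z = -1
    · obtain ⟨a1, a2, a3⟩ := hc
      have : s(v, w) ∈ F ∨ s(w, z) ∈ F ∨ s(v, z) ∈ F := by
        by_contra hcon
        push Not at hcon
        obtain ⟨b1, b2, b3⟩ := hcon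
        apply hF {v, w, z}
        rw [SimpleGraph.is3Clique_triple_iff]
        refine ⟨?_, ?_, ?_⟩
        · rw [SimpleGraph.deleteEdges_adj]; exact ⟨a1, b1⟩
        · rw [SimpleGraph.deleteEdges_adj]; exact ⟨a3, b3⟩
        · rw [SimpleGraph.deleteEdges_adj]; exact ⟨a2, b2⟩
      have hone : 1 ≤ φ v z + φ v w + φ w z := by
        rcases this with h | h | h
        · have : φ v w = 1 := if_pos h
          linarith [hφ0 v z, hφ0 w z]
        · have : φ w z = 1 := if_pos h
          linarith [hφ0 v z, hφ0 v w]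
        · have : φ v z = 1 := if_pos h
          linarith [hφ0 v w, hφ0 w z]
      nlinarith
    · have : S.P v w * S.P w z * S.P v z = 0 := by
        rw [P_val, P_val, P_val]
        by_contra hne
        apply hc
        refine ⟨?_, ?_, ?_⟩
        · by_contra h; rw [if_neg h] at hne; simp at hne
        · by_contra h; rw [if_neg h] at hne; simp at hne
        · by_contra h; simp [if_neg h] at hne
      rw [this]; simp
  -- the main sum
  have hmain : ∑ v, ∑ z, ∑ w, S.P v w * S.P w z * S.P v z * φ v z ≤ (S.lam - S.kap) * F.card := by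
    have h2 : ∀ v z, ∑ w, S.P v w * S.P w z * S.P v z * φ v z ≤
        (S.lam - S.kap) / 2 * (if s(v, z) ∈ F ∧ v ≠ z then 1 else 0) := by
      intro v z
      have : ∑ w, S.P v w * S.P w z * S.P v z * φ v z =
          (∑ w, S.P v w * S.P w z) * (S.P v z * φ v z) := by
        rw [sum_mul]; exact sum_congr rfl fun _ _ => by ring
      rw [this, P_val S v z]
      by_cases h : S.s v z = -1
      · have hne : v ≠ z := by
          rintro rfl
          rw [S.diag] at h
          norm_num at h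
        rw [if_pos h, one_mul]
        by_cases hf : s(v, z) ∈ F
        · rw [if_pos ⟨hf, hne⟩]
          have : φ v z = 1 := if_pos hf
          rw [this, mul_one, mul_one]
          exact S.cod_neg v z h
        · have : φ v z = 0 := if_neg hf
          rw [this, mul_zero]
          split_ifs <;> first | positivity | simp
      · rw [if_neg h, zero_mul, mul_zero]
        split_ifs <;> first | positivity | simp
    calc _ ≤ ∑ v, ∑ z, (S.lam - S.kap) / 2 * (if s(v, z) ∈ F ∧ v ≠ z then 1 else 0) :=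
          sum_le_sum fun v _ => sum_le_sum fun z _ => h2 v z
      _ = (S.lam - S.kap) / 2 * ∑ q : V × V, (if s(q.1, q.2) ∈ F ∧ q.1 ≠ q.2 then 1 else 0) := by
          rw [Fintype.sum_prod_type, mul_sum]
          exact sum_congr rfl fun _ _ => by rw [mul_sum]
      _ ≤ (S.lam - S.kap) / 2 * (2 * F.card) := by
          apply mul_le_mul_of_nonneg_left _ (by linarith)
          rw [← sum_filter, sum_const, nsmul_eq_mul, mul_one]
          have h3 : (univ.filter fun q : V × V => s(q.1, q.2) ∈ F ∧ q.1 ≠ q.2).card ≤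
              2 * F.card := by
            apply card_le_mul_card_image_of_maps_to (f := fun q : V × V => s(q.1, q.2))
              (n := 2)
            · intro q hq
              exact (mem_filter.1 hq).2.1
            · intro e he
              induction e using Sym2.inductionOn with
              | hf a b =>
                calc _ ≤ ({(a, b), (b, a)} : Finset (V × V)).card := by
                      apply card_le_card
                      intro q hq
                      have h4 := (mem_filter.1 hq).2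
                      rw [Sym2.eq_iff] at h4
                      rw [mem_insert, mem_singleton]
                      rcases h4 with h4 | h4
                      · left; exact Prod.ext h4.1 h4.2
                      · right; exact Prod.ext h4.1 h4.2
                  _ ≤ 2 := card_le_two
          exact_mod_cast h3
      _ = _ := by ring
  have hs1 : ∑ v, ∑ z, ∑ w, S.P v w * S.P w z * S.P v z * φ v w =
      ∑ v, ∑ z, ∑ w, S.P v w * S.P w z * S.P v z * φ v z := by
    refine sum_congr rfl fun v _ => ?_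
    rw [sum_comm]
    refine sum_congr rfl fun z _ => sum_congr rfl fun w _ => ?_
    rw [S.P_symm z w]; ring
  have hs2 : ∑ v, ∑ z, ∑ w, S.P v w * S.P w z * S.P v z * φ w z =
      ∑ v, ∑ z, ∑ w, S.P v w * S.P w z * S.P v z * φ v z := by
    have h1 : ∀ v, ∑ z, ∑ w, S.P v w * S.P w z * S.P v z * φ w z =
      ∑ w, ∑ z, S.P v w * S.P w z * S.P v z * φ w z := fun v => sum_comm
    simp only [h1]
    rw [sum_comm]
    refine sum_congr rfl fun w _ => ?_
    rw [sum_comm]
    refine sum_congr rfl fun z _ => sum_congr rfl fun v _ => ?_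
    rw [S.P_symm v w]; ring
  have htot : S.tau ≤ 3 * ((S.lam - S.kap) * F.card) := by
    calc S.tau ≤ ∑ v, ∑ z, ∑ w, (S.P v w * S.P w z * S.P v z * φ v z +
          S.P v w * S.P w z * S.P v z * φ v w + S.P v w * S.P w z * S.P v z * φ w z) :=
          sum_le_sum fun v _ => sum_le_sum fun z _ => sum_le_sum fun w _ => h1 v z w
      _ = (∑ v, ∑ z, ∑ w, S.P v w * S.P w z * S.P v z * φ v z) +
          (∑ v, ∑ z, ∑ w, S.P v w * S.P w z * S.P v z * φ v w) +
          (∑ v, ∑ z, ∑ w, S.P v w * S.P w z * S.P v z * φ w z) := by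
          simp only [sum_add_distrib]
      _ ≤ _ := by rw [hs1, hs2]; linarith
  linarith

end Signed

end

end Pool.Agent.Helper60.Jum
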