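import Pool.Agent.Helper60.JumAbs

open Finset

namespace Pool.Agent.Helper60.Jum

noncomputable section

lemma exists_chi (F : Type*) [Field F] [CharP F 2] : ∃ χ : F → ℝ,
    (∀ x y, χ (x + y) = χ x * χ y) ∧ (∀ x, χ x * χ x = 1) ∧ ∃ u, χ u = -1 := by
  let _ := ZMod.algebra F 2
  obtain ⟨L, hL⟩ : ∃ L : Module.Dual (ZMod 2) F, L 1 ≠ 0 := by
    by_contra h
    push Not at h
    exact one_ne_zero ((Module.forall_dual_apply_eq_zero_iff (ZMod 2) (1 : F)).1 h)
  have hsgn : ∀ a b : ZMod 2, (if a + b = 0 then (1 : ℝ) else -1) =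
      (if a = 0 then 1 else -1) * (if b = 0 then 1 else -1) := by
    intro a b
    have h01 : ∀ a : ZMod 2, a = 0 ∨ a = 1 := by decide
    have h10 : (1 : ZMod 2) ≠ 0 := by decide
    have h11 : (1 : ZMod 2) + 1 = 0 := by decide
    rcases h01 a with rfl | rfl <;> rcases h01 b with rfl | rfl
    · rw [add_zero, if_pos rfl, one_mul]
    · rw [zero_add, if_neg h10, if_pos rfl, one_mul]
    · rw [add_zero, if_neg h10, if_pos rfl, mul_one]
    · rw [h11, if_neg h10, if_pos rfl]; norm_num
  refine ⟨fun x => if L x = 0 then 1 else -1, ?_, ?_, 1, if_neg hL⟩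
  · intro x y
    simp only [map_add]
    exact hsgn _ _
  · intro x
    show (if L x = 0 then (1 : ℝ) else -1) * (if L x = 0 then 1 else -1) = 1
    split_ifs <;> norm_num

section
variable {F : Type*} [Field F] [Fintype F] [DecidableEq F]

lemma sum_char_zero {G : Type*} [AddCommGroup G] [Fintype G] (g : G → ℝ)
    (hg : ∀ x y, g (x + y) = g x * g y) (u : G) (hu : g u ≠ 1) : ∑ x, g x = 0 := by
  have h1 : ∑ x, g x = (∑ x, g x) * g u := by
    rw [sum_mul]
    conv_lhs => rw [← Equiv.sum_comp (Equiv.addRight u)]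
    exact sum_congr rfl fun x _ => by simp [hg]
  have h2 : (∑ x, g x) * (g u - 1) = 0 := by linarith
  rcases mul_eq_zero.1 h2 with h | h
  · exact h
  · exact absurd (by linarith) hu

/-- the dot product -/
def dot (x y : F × F × F) : F := x.1 * y.1 + x.2.1 * y.2.1 + x.2.2 * y.2.2

def f3 (x : F × F × F) : F := x.1 * x.2.1 * x.2.2

def cross (a y : F × F × F) : F × F × F :=
  (a.2.1 * y.2.2 + a.2.2 * y.2.1, a.1 * y.2.2 + a.2.2 * y.1, a.1 * y.2.1 + a.2.1 * y.1)

def sm (a : F × F × F) (t : F) : F × F × F := (t * a.1, t * a.2.1, t * a.2.2)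

lemma sm_inj {a : F × F × F} (ha : a ≠ 0) : Function.Injective (sm a) := by
  intro t u h
  simp only [sm, Prod.mk.injEq] at h
  obtain ⟨h1, h2, h3⟩ := h
  by_contra hne
  apply ha
  have key : ∀ z : F, t * z = u * z → z = 0 := by
    intro z hz
    have : (t - u) * z = 0 := by rw [sub_mul, hz, sub_self]
    rcases mul_eq_zero.1 this with h | h
    · exact absurd (sub_eq_zero.1 h) hne
    · exact h
  ext
  · exact key _ h1
  · exact key _ h2
  · exact key _ h3

variable [CharP F 2]

lemma two0 : (2 : F) = 0 := by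
  have := CharP.cast_eq_zero F 2
  exact_mod_cast this

lemma cross_sm (a : F × F × F) (t : F) : cross a (sm a t) = 0 := by
  have h2 := two0 (F := F)
  ext
  · simp only [cross, sm, Prod.fst_zero]
    linear_combination (a.2.1 * t * a.2.2) * h2
  · simp only [cross, sm, Prod.fst_zero, Prod.snd_zero]
    linear_combination (a.1 * t * a.2.2) * h2
  · simp only [cross, sm, Prod.snd_zero]
    linear_combination (a.1 * t * a.2.1) * h2

lemma cross_zero {a y : F × F × F} (ha : a ≠ 0) (h : cross a y = 0) : ∃ t, y = sm a t := by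
  have h2 := two0 (F := F)
  have e1 : a.2.1 * y.2.2 + a.2.2 * y.2.1 = 0 := congrArg (fun z => z.1) h
  have e2 : a.1 * y.2.2 + a.2.2 * y.1 = 0 := congrArg (fun z => z.2.1) h
  have e3 : a.1 * y.2.1 + a.2.1 * y.1 = 0 := congrArg (fun z => z.2.2) h
  by_cases c1 : a.1 = 0
  · by_cases c2 : a.2.1 = 0
    · have c3 : a.2.2 ≠ 0 := by
        intro c3
        apply ha
        ext <;> assumption
      refine ⟨y.2.2 / a.2.2, ?_⟩
      ext
      · simp only [sm]
        rw [c1] at e2 ⊢
        simp only [zero_mul, zero_add] at e2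
        rcases mul_eq_zero.1 e2 with h | h
        · exact absurd h c3
        · rw [h]; simp
      · simp only [sm]
        rw [c2] at e1 ⊢
        simp only [zero_mul, zero_add] at e1
        rcases mul_eq_zero.1 e1 with h | h
        · exact absurd h c3
        · rw [h]; simp
      · simp only [sm]
        field_simp
    · refine ⟨y.2.1 / a.2.1, ?_⟩
      ext
      · simp only [sm]
        field_simp
        linear_combination e3 - (a.1 * y.2.1) * h2
      · simp only [sm]
        field_simp
      · simp only [sm]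
        field_simp
        linear_combination e1 - (a.2.2 * y.2.1) * h2
  · refine ⟨y.1 / a.1, ?_⟩
    ext
    · simp only [sm]
      field_simp
    · simp only [sm]
      field_simp
      linear_combination e3 - (a.2.1 * y.1) * h2
    · simp only [sm]
      field_simp
      linear_combination e2 - (a.2.2 * y.1) * h2

lemma d2_f (x a y : F × F × F) : f3 x + f3 (x + a) + f3 (x + y) + f3 (x + y + a) =
    dot x (cross a y) + (f3 a + f3 y + f3 (a + y)) := by
  have h2 := two0 (F := F)
  simp only [f3, dot, cross, Prod.fst_add, Prod.snd_add]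
  linear_combination ((x.1 + a.1) * (x.2.1 + a.2.1) * (x.2.2 + a.2.2) +
    (x.1 + y.1) * (x.2.1 + y.2.1) * (x.2.2 + y.2.2) - a.1 * a.2.1 * a.2.2
    - y.1 * y.2.1 * y.2.2) * h2

lemma f3_line (a : F × F × F) (t : F) : f3 a + f3 (sm a t) + f3 (a + sm a t) =
    f3 a * (t + t ^ 2) := by
  have h2 := two0 (F := F)
  simp only [f3, sm, Prod.fst_add, Prod.snd_add]
  linear_combination (a.1 * a.2.1 * a.2.2 * (1 + t ^ 3 + t + t ^ 2)) * h2

lemma dot_sm (b a : F × F × F) (t : F) : dot b (sm a t) = t * dot b a := by
  simp only [dot, sm]; ring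

lemma dot_add (x y z : F × F × F) : dot (x + y) z = dot x z + dot y z := by
  simp only [dot, Prod.fst_add, Prod.snd_add]; ring

lemma dot_comm (x y : F × F × F) : dot x y = dot y x := by
  simp only [dot]; ring

variable (χ : F → ℝ) (hadd : ∀ x y, χ (x + y) = χ x * χ y) (hsq : ∀ x, χ x * χ x = 1)
  (hu : ∃ u, χ u = -1)

include hadd hu in
lemma sum_dot {z : F × F × F} (hz : z ≠ 0) : ∑ x, χ (dot x z) = 0 := by
  obtain ⟨u, hu⟩ := hu
  -- find x with dot x z = u
  have : ∃ x, dot x z = u := by
    by_cases c1 : z.1 = 0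
    · by_cases c2 : z.2.1 = 0
      · have c3 : z.2.2 ≠ 0 := by
          intro c3
          apply hz
          ext <;> assumption
        refine ⟨(0, 0, u / z.2.2), ?_⟩
        simp only [dot]
        field_simp
        ring
      · refine ⟨(0, u / z.2.1, 0), ?_⟩
        simp only [dot]
        field_simp
        ring
    · refine ⟨(u / z.1, 0, 0), ?_⟩
      simp only [dot]
      field_simp
      ring
  obtain ⟨x, hx⟩ := this
  apply sum_char_zero (fun x => χ (dot x z)) _ x
  · simp only [hx, hu]; norm_num
  · intro x y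
    simp only [dot_add, hadd]

include hadd hsq in
lemma chi_zero : χ 0 = 1 := by
  have h := hadd 0 0
  rw [add_zero, hsq] at h
  exact h

lemma card3 : (Fintype.card (F × F × F) : ℝ) = (Fintype.card F : ℝ)^3 := by
  simp only [Fintype.card_prod, Nat.cast_mul]; ring

include hadd hsq hu in
lemma W_case (a b : F × F × F) (hab : a ≠ 0 ∨ b ≠ 0) :
    (∑ x, χ (dot b x) * χ (f3 x) * χ (f3 (x + a)))^2 = 0 ∨
    (∑ x, χ (dot b x) * χ (f3 x) * χ (f3 (x + a)))^2 = (Fintype.card F : ℝ)^4 := by
  by_cases ha : a = 0
  · left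
    have hb : b ≠ 0 := by
      rcases hab with h | h
      · exact absurd ha h
      · exact h
    have : ∑ x, χ (dot b x) * χ (f3 x) * χ (f3 (x + a)) = 0 := by
      rw [← sum_dot χ hadd hu hb]
      refine sum_congr rfl fun x _ => ?_
      rw [ha, add_zero, mul_assoc, hsq, mul_one, dot_comm]
    rw [this]; norm_num
  · -- a ≠ 0
    let g : F → ℝ := fun t => χ (t * dot b a + f3 a * (t + t ^ 2))
    have hg : ∀ t u, g (t + u) = g t * g u := by
      intro t u
      simp only [g]
      rw [← hadd]
      congr 1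
      have h2 := two0 (F := F)
      linear_combination (f3 a * t * u) * h2
    have key : (∑ x, χ (dot b x) * χ (f3 x) * χ (f3 (x + a)))^2 =
        (Fintype.card F : ℝ)^3 * ∑ t, g t := by
      rw [pow_two, sum_mul_sum]
      have h1 : ∀ x : F × F × F, ∑ y, χ (dot b x) * χ (f3 x) * χ (f3 (x + a)) *
          (χ (dot b y) * χ (f3 y) * χ (f3 (y + a))) =
          ∑ y, χ (dot b y + (f3 a + f3 y + f3 (a + y))) * χ (dot x (cross a y)) := by
        intro x
        conv_lhs => rw [← Equiv.sum_comp (Equiv.addLeft x)]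
        refine sum_congr rfl fun y _ => ?_
        simp only [Equiv.coe_addLeft]
        have e1 : dot b (x + y) = dot b x + dot b y := by
          rw [dot_comm, dot_add, dot_comm x, dot_comm y]
        have e2 : χ (f3 x) * χ (f3 (x + a)) * χ (f3 (x + y)) * χ (f3 (x + y + a)) =
            χ (dot x (cross a y)) * χ (f3 a + f3 y + f3 (a + y)) := by
          rw [← hadd, ← hadd, ← hadd, ← hadd, d2_f]
        calc _ = (χ (dot b x) * χ (dot b x)) * χ (dot b y) *
              (χ (f3 x) * χ (f3 (x + a)) * χ (f3 (x + y)) * χ (f3 (x + y + a))) := by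
              rw [e1, hadd]; ring
          _ = χ (dot b y) * (χ (dot x (cross a y)) * χ (f3 a + f3 y + f3 (a + y))) := by
              rw [hsq, e2, one_mul]
          _ = _ := by rw [hadd (dot b y)]; ring
      simp only [h1]
      rw [sum_comm]
      have h3 : ∀ y : F × F × F, ∑ x, χ (dot b y + (f3 a + f3 y + f3 (a + y))) *
          χ (dot x (cross a y)) = if cross a y = 0 then
            (Fintype.card F : ℝ)^3 * χ (dot b y + (f3 a + f3 y + f3 (a + y))) else 0 := by
        intro y
        rw [← mul_sum]
        split_ifs with h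
        · rw [h]
          have : ∀ x : F × F × F, χ (dot x 0) = 1 := by
            intro x
            have : dot x 0 = 0 := by simp [dot]
            rw [this, chi_zero χ hadd hsq]
          simp only [this, sum_const, card_univ, nsmul_eq_mul, mul_one]
          rw [card3]; ring
        · rw [sum_dot χ hadd hu h, mul_zero]
      simp only [h3]
      rw [← sum_filter]
      have himg : (univ.filter fun y : F × F × F => cross a y = 0) = univ.image (sm a) := by
        ext y
        simp only [mem_filter, mem_univ, true_and, mem_image]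
        constructor
        · intro h
          obtain ⟨t, ht⟩ := cross_zero ha h
          exact ⟨t, ht.symm⟩
        · rintro ⟨t, rfl⟩
          exact cross_sm a t
      rw [himg, sum_image (fun t _ u _ h => sm_inj ha h), mul_sum]
      refine sum_congr rfl fun t _ => ?_
      simp only [g]
      rw [f3_line, dot_sm]
    rw [key]
    by_cases h : ∀ t, g t = 1
    · right
      simp only [h, sum_const, card_univ, nsmul_eq_mul, mul_one]
      ring
    · left
      push Not at h
      obtain ⟨u, hu⟩ := h
      rw [sum_char_zero g hg u hu, mul_zero]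

/-- the concrete setup -/
def fieldSetup (h8 : 8 ≤ (Fintype.card F : ℝ)) : Setup (F × F × F) where
  c x y := χ (dot x y)
  ψ x := χ (f3 x)
  Q := Fintype.card F
  hA2 x := by
    have h2 := two0 (F := F)
    ext
    · simp only [Prod.fst_add, Prod.fst_zero]; linear_combination x.1 * h2
    · simp only [Prod.fst_add, Prod.snd_add, Prod.fst_zero, Prod.snd_zero]
      linear_combination x.2.1 * h2
    · simp only [Prod.snd_add, Prod.snd_zero]; linear_combination x.2.2 * h2
  c_add x y z := by rw [dot_add, hadd]
  c_comm x y := by rw [dot_comm]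
  c_sq x y := hsq _
  c_sum x hx := sum_dot χ hadd hu hx
  ψ_sq x := hsq _
  hQ := h8
  hcard := card3
  hW a b hab := W_case χ hadd hsq hu a b hab

end

theorem exists_setup (l : ℕ) (hl : 3 ≤ l) : ∃ (A : Type) (_ : AddCommGroup A) (_ : Fintype A)
    (_ : DecidableEq A) (S : Setup A), S.Q = 2 ^ l := by
  classical
  have : Fact (Nat.Prime 2) := ⟨Nat.prime_two⟩
  let F := GaloisField 2 l
  letI : Fintype F := Fintype.ofFinite F
  have hc : Fintype.card F = 2 ^ l := by
    rw [← Nat.card_eq_fintype_card]
    exact GaloisField.card 2 l (by omega)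
  obtain ⟨χ, h1, h2, h3⟩ := exists_chi F
  have h8 : 8 ≤ (Fintype.card F : ℝ) := by
    rw [hc]
    push_cast
    calc (8 : ℝ) = 2 ^ 3 := by norm_num
      _ ≤ 2 ^ l := pow_le_pow_right₀ (by norm_num) hl
  refine ⟨F × F × F, inferInstance, inferInstance, inferInstance,
    fieldSetup χ h1 h2 h3 h8, ?_⟩
  show (Fintype.card F : ℝ) = 2 ^ l
  rw [hc]; push_cast; rfl

end

end Pool.Agent.Helper60.Jum
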