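import Pool.Agent.Helper60.JumComb
import Pool.Agent.Helper60.JumField

open Finset

namespace Pool.Agent.Helper60.Jum

noncomputable section

namespace Setup

variable {A : Type*} [AddCommGroup A] [Fintype A] [DecidableEq A] (S : Setup A)

def sg (v w : A × A) : ℝ := if v = w then 0 else S.U v w / S.Q^2

include S in
lemma vadd_eq_zero (v w : A × A) : v + w = 0 ↔ v = w := by
  constructor
  · intro h
    have h1 := (S.add_eq_zero_iff' v.1 w.1).1 (congrArg Prod.fst h)
    have h2 := (S.add_eq_zero_iff' v.2 w.2).1 (congrArg Prod.snd h)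
    exact Prod.ext h1.symm h2.symm
  · rintro rfl
    ext <;> simp [S.hA2]

lemma U_eq_sg (v w : A × A) : S.U v w = S.Q^2 * S.sg v w + if v = w then S.N else 0 := by
  unfold sg
  have := S.Qpos
  split_ifs with h
  · subst h; rw [U_self]; ring
  · field_simp; ring

lemma sg_val (v w : A × A) : S.sg v w = 0 ∨ S.sg v w = 1 ∨ S.sg v w = -1 := by
  have hQ := S.Qpos
  unfold sg
  split_ifs with h
  · left; rfl
  · have h1 : v + w ≠ 0 := fun h' => h ((S.vadd_eq_zero v w).1 h')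
    rcases S.E_val _ h1 with h2 | h2
    · rw [← S.U_sq] at h2
      left
      have : S.U v w = 0 := by simpa using h2
      rw [this, zero_div]
    · rw [← S.U_sq] at h2
      have h3 : (S.U v w - S.Q^2) * (S.U v w + S.Q^2) = 0 := by
        linear_combination h2
      rcases mul_eq_zero.1 h3 with h4 | h4
      · right; left
        rw [show S.U v w = S.Q^2 by linarith]
        field_simp
      · right; right
        rw [show S.U v w = -S.Q^2 by linarith]
        field_simp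

lemma sg_symm (v w : A × A) : S.sg v w = S.sg w v := by
  unfold sg
  rw [S.U_comm]
  by_cases h : v = w
  · rw [if_pos h, if_pos h.symm]
  · rw [if_neg h, if_neg (Ne.symm h)]

lemma sg_diag (v : A × A) : S.sg v v = 0 := if_pos rfl

lemma E_eq_sg (v w : A × A) : S.E (v + w) = S.Q^4 * S.sg v w ^ 2 +
    if v = w then S.N^2 else 0 := by
  rw [← S.U_sq, S.U_eq_sg]
  split_ifs with h
  · subst h; rw [sg_diag]; ring
  · ring

lemma ssum (v z : A × A) : S.Q^4 * ∑ w, S.sg v w * S.sg w z =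
    S.N^2 * S.U v z - 2 * S.Q^2 * S.N * S.sg v z - if v = z then S.N^2 else 0 := by
  have h := S.U_mul v z
  have h1 : ∀ w, S.U v w * S.U w z = S.Q^4 * (S.sg v w * S.sg w z) +
      (if v = w then S.Q^2 * S.N * S.sg w z else 0) +
      (if w = z then S.Q^2 * S.N * S.sg v w else 0) +
      (if v = w then (if w = z then S.N^2 else 0) else 0) := by
    intro w
    rw [S.U_eq_sg v w, S.U_eq_sg w z]
    split_ifs <;> ring
  simp only [h1, sum_add_distrib, ← mul_sum, sum_ite_eq, sum_ite_eq', mem_univ, if_true] at h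
  linarith

lemma ssum2 (v z : A × A) : S.Q^8 * ∑ w, S.sg v w ^ 2 * S.sg w z ^ 2 =
    S.Q^4 * S.N * S.E (v + z) + (S.N^4 - S.Q^4 * S.N^2) - 2 * S.Q^4 * S.N^2 * S.sg v z ^ 2
     - if v = z then S.N^4 else 0 := by
  have h := S.E_mul v z
  have h1 : ∀ w, S.E (v + w) * S.E (w + z) = S.Q^8 * (S.sg v w ^ 2 * S.sg w z ^ 2) +
      (if v = w then S.Q^4 * S.N^2 * S.sg w z ^ 2 else 0) +
      (if w = z then S.Q^4 * S.N^2 * S.sg v w ^ 2 else 0) +
      (if v = w then (if w = z then S.N^4 else 0) else 0) := by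
    intro w
    rw [S.E_eq_sg v w, S.E_eq_sg w z]
    split_ifs <;> ring
  simp only [h1, sum_add_distrib, ← mul_sum, sum_ite_eq, sum_ite_eq', mem_univ, if_true] at h
  linarith

def toSigned : Signed (A × A) where
  s := S.sg
  kap := S.Q^4 - 2 * S.Q
  lam := S.Q^4 + S.Q^3 - 3 * S.Q^2
  val := S.sg_val
  symm := S.sg_symm
  diag := S.sg_diag
  cod1 v z hvz := by
    have h := S.ssum v z
    rw [if_neg hvz, S.U_eq_sg, if_neg hvz] at h
    have hQ := S.Qpos
    have hQ4 : S.Q^4 ≠ 0 := by positivity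
    apply mul_left_cancel₀ hQ4
    rw [h]; unfold N; ring
  cod2 v z hvz := by
    have hne : v ≠ z := by
      rintro rfl
      exact hvz (S.sg_diag v)
    have h := S.ssum2 v z
    have h1 : S.sg v z ^ 2 = 1 := by
      rcases S.sg_val v z with h | h | h
      · exact absurd h hvz
      · rw [h]; norm_num
      · rw [h]; norm_num
    rw [if_neg hne, S.E_eq_sg, if_neg hne, h1] at h
    have hQ := S.Qpos
    have hQ4 : S.Q^8 ≠ 0 := by positivity
    apply mul_left_cancel₀ hQ4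
    rw [h]; unfold N; ring

lemma deg (v : A × A) : ∑ w, S.sg v w ^ 2 = S.Q^5 - S.Q^2 := by
  have h := S.ssum v v
  rw [S.U_self, S.sg_diag, if_pos rfl] at h
  have h1 : ∑ w, S.sg v w * S.sg w v = ∑ w, S.sg v w ^ 2 :=
    sum_congr rfl fun w _ => by rw [S.sg_symm w v]; ring
  rw [h1] at h
  have hQ := S.Qpos
  have hQ4 : S.Q^4 ≠ 0 := by positivity
  apply mul_left_cancel₀ hQ4
  rw [h]; unfold N; ring

lemma cardV : (Fintype.card (A × A) : ℝ) = S.Q^6 := by
  rw [Fintype.card_prod, Nat.cast_mul, S.hcard]; ring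

lemma K_eq : S.toSigned.K = S.Q^11 - S.Q^8 := by
  show ∑ v, ∑ w, S.sg v w ^ 2 = _
  simp only [S.deg, sum_const, card_univ, nsmul_eq_mul, S.cardV]
  ring

lemma Sig_le : S.toSigned.Sig ≤ S.Q^10 := by
  show ∑ v, ∑ w, S.sg v w ≤ _
  have hQ := S.Qpos
  have h1 : ∑ v, ∑ w, S.U v w = S.Q^2 * (∑ v, ∑ w, S.sg v w) + S.N^3 := by
    simp only [S.U_eq_sg, sum_add_distrib, ← mul_sum, sum_ite_eq, mem_univ, if_true]
    simp only [sum_const, card_univ, nsmul_eq_mul, S.cardV]
    unfold N; ring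
  -- Cauchy-Schwarz
  set S0 := ∑ v, ∑ w, S.U v w with hS0
  have h2 : ∑ v, (∑ w, S.U v w)^2 = S.N^2 * S0 := by
    have : ∀ v, (∑ w, S.U v w)^2 = ∑ w, ∑ z, S.U w v * S.U v z := by
      intro v
      rw [pow_two, sum_mul_sum]
      exact sum_congr rfl fun w _ => sum_congr rfl fun z _ => by rw [S.U_comm v w]
    simp only [this]
    rw [sum_comm, hS0, mul_sum]
    refine sum_congr rfl fun w _ => ?_
    rw [sum_comm, mul_sum]
    exact sum_congr rfl fun z _ => S.U_mul w z
  have h3 : S0^2 ≤ S.N^2 * (S.N^2 * S0) := by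
    rw [← h2, hS0]
    have := sq_sum_le_card_mul_sum_sq (s := (univ : Finset (A × A))) (f := fun v => ∑ w, S.U v w)
    rw [card_univ, S.cardV] at this
    calc _ ≤ _ := this
      _ = _ := by unfold N; ring
  have h4 : S0 ≤ S.N^4 := by
    by_contra hcon
    push Not at hcon
    have hN : 0 < S.N^4 := pow_pos S.Npos 4
    nlinarith
  have h5 : S.Q^2 * (∑ v, ∑ w, S.sg v w) ≤ S.Q^2 * S.Q^10 := by
    have e1 : S.N^4 = S.Q^12 := by unfold N; ring
    have e2 : 0 < S.N^3 := pow_pos S.Npos 3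
    have e3 : S.Q^2 * S.Q^10 = S.Q^12 := by ring
    rw [e3, ← e1]
    linarith
  exact le_of_mul_le_mul_left h5 (by positivity)

/-- jumbledness -/
lemma jum (X Y : Finset (A × A)) : |∑ v ∈ X, ∑ w ∈ Y, S.sg v w ^ 2 - X.card * Y.card / S.Q| ≤
    (S.Q^3 + S.Q^2) * Real.sqrt (X.card * Y.card) := by
  have hQ := S.Qpos
  have hN := S.Npos
  let f : A × A → ℝ := fun v => if v ∈ X then 1 else 0
  let g : A × A → ℝ := fun v => if v ∈ Y then 1 else 0
  have hb := S.bilin f g
  have e1 : ∑ v, ∑ w, f v * g w * S.E (v + w) = ∑ v ∈ X, ∑ w ∈ Y, S.E (v + w) := by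
    have : ∀ v, ∑ w, f v * g w * S.E (v + w) = if v ∈ X then ∑ w ∈ Y, S.E (v + w) else 0 := by
      intro v
      simp only [f, g]
      split_ifs with h
      · simp only [one_mul, ite_mul, zero_mul]
        rw [← sum_filter]
        exact sum_congr (by ext; simp) fun _ _ => rfl
      · simp
    simp only [this]
    rw [← sum_filter]
    exact sum_congr (by ext; simp) fun _ _ => rfl
  have e2 : ∑ v ∈ X, ∑ w ∈ Y, S.E (v + w) = S.Q^4 * (∑ v ∈ X, ∑ w ∈ Y, S.sg v w ^ 2) +
      S.N^2 * (X ∩ Y).card := by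
    simp only [S.E_eq_sg, sum_add_distrib, ← mul_sum]
    congr 1
    simp only [sum_ite_eq]
    rw [← sum_filter, sum_const, nsmul_eq_mul, mul_comm, filter_mem_eq_inter]
  have hf0 : S.hat f 0 = X.card := by
    unfold hat
    simp only [S.h_zero, mul_one, f]
    rw [← sum_filter, sum_const, nsmul_eq_mul, mul_one]
    congr 2
    ext; simp
  have hg0 : S.hat g 0 = Y.card := by
    unfold hat
    simp only [S.h_zero, mul_one, g]
    rw [← sum_filter, sum_const, nsmul_eq_mul, mul_one]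
    congr 2
    ext; simp
  have hf2 : ∑ v, f v ^ 2 = X.card := by
    have : ∀ v, f v ^ 2 = if v ∈ X then 1 else 0 := by
      intro v; simp only [f]; split_ifs <;> norm_num
    simp only [this]
    rw [← sum_filter, sum_const, nsmul_eq_mul, mul_one]
    congr 2
    ext; simp
  have hg2 : ∑ v, g v ^ 2 = Y.card := by
    have : ∀ v, g v ^ 2 = if v ∈ Y then 1 else 0 := by
      intro v; simp only [g]; split_ifs <;> norm_num
    simp only [this]
    rw [← sum_filter, sum_const, nsmul_eq_mul, mul_one]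
    congr 2
    ext; simp
  -- split off the zero frequency
  set R := ∑ ξ ∈ univ.erase (0 : A × A), S.E ξ * (S.hat f ξ * S.hat g ξ) with hR
  have e3 : ∑ ξ, S.E ξ * (S.hat f ξ * S.hat g ξ) = R + S.N^2 * (X.card * Y.card) := by
    rw [← sum_erase_add _ _ (mem_univ (0 : A × A)), hf0, hg0, S.E_zero]
  set r := Real.sqrt (X.card * Y.card) with hr
  have hCS : ∑ ξ, |S.hat f ξ| * |S.hat g ξ| ≤ S.N^2 * r := by
    calc _ ≤ Real.sqrt (∑ ξ, |S.hat f ξ| ^ 2) * Real.sqrt (∑ ξ, |S.hat g ξ| ^ 2) :=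
          Real.sum_mul_le_sqrt_mul_sqrt _ _ _
      _ = Real.sqrt (S.N^2 * X.card) * Real.sqrt (S.N^2 * Y.card) := by
          simp only [sq_abs, S.parseval, hf2, hg2]
      _ = S.N^2 * r := by
          rw [← Real.sqrt_mul (by positivity), hr]
          rw [show S.N^2 * (X.card : ℝ) * (S.N^2 * Y.card) = (S.N^2)^2 * (X.card * Y.card) by ring]
          rw [Real.sqrt_mul (by positivity), Real.sqrt_sq (by positivity)]
  have hRb : |R| ≤ S.Q^4 * (S.N^2 * r) := by
    calc |R| ≤ ∑ ξ ∈ univ.erase (0 : A × A), |S.E ξ * (S.hat f ξ * S.hat g ξ)| :=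
          abs_sum_le_sum_abs _ _
      _ ≤ ∑ ξ ∈ univ.erase (0 : A × A), S.Q^4 * (|S.hat f ξ| * |S.hat g ξ|) := by
          refine sum_le_sum fun ξ hξ => ?_
          rw [abs_mul, abs_mul]
          apply mul_le_mul_of_nonneg_right _ (by positivity)
          rcases S.E_val ξ (ne_of_mem_erase hξ) with h | h
          · rw [h, abs_zero]; positivity
          · rw [h, abs_of_nonneg (by positivity)]
      _ ≤ ∑ ξ, S.Q^4 * (|S.hat f ξ| * |S.hat g ξ|) :=
          sum_le_sum_of_subset_of_nonneg (erase_subset _ _) fun _ _ _ => by positivity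
      _ = S.Q^4 * ∑ ξ, (|S.hat f ξ| * |S.hat g ξ|) := by rw [mul_sum]
      _ ≤ _ := mul_le_mul_of_nonneg_left hCS (by positivity)
  have hcap : ((X ∩ Y).card : ℝ) ≤ r := by
    rw [hr]
    apply Real.le_sqrt_of_sq_le
    have h1 : ((X ∩ Y).card : ℝ) ≤ X.card := by exact_mod_cast card_le_card inter_subset_left
    have h2 : ((X ∩ Y).card : ℝ) ≤ Y.card := by exact_mod_cast card_le_card inter_subset_right
    rw [pow_two]
    exact mul_le_mul h1 h2 (by positivity) (by positivity)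
  have hr0 : 0 ≤ r := Real.sqrt_nonneg _
  rw [e1, e2, e3] at hb
  set e := ∑ v ∈ X, ∑ w ∈ Y, S.sg v w ^ 2 with he
  have hNe : S.N = S.Q^3 := rfl
  have hkey : e - X.card * Y.card / S.Q = (S.Q^7)⁻¹ * R - S.Q^2 * (X ∩ Y).card := by
    have hb2 : S.Q^4 * e = S.N⁻¹ * (R + S.N^2 * (X.card * Y.card)) - S.N^2 * (X ∩ Y).card := by
      linarith
    have h4 : S.Q^4 ≠ 0 := by positivity
    apply mul_left_cancel₀ h4
    rw [mul_sub, hb2, hNe]
    field_simp
    ring
  rw [hkey]
  have hR2 : |(S.Q^7)⁻¹ * R| ≤ S.Q^3 * r := by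
    rw [abs_mul, abs_of_nonneg (by positivity : (0:ℝ) ≤ (S.Q^7)⁻¹)]
    calc _ ≤ (S.Q^7)⁻¹ * (S.Q^4 * (S.N^2 * r)) := mul_le_mul_of_nonneg_left hRb (by positivity)
      _ = _ := by rw [hNe]; field_simp
  have h5 : |S.Q^2 * ((X ∩ Y).card : ℝ)| ≤ S.Q^2 * r := by
    rw [abs_of_nonneg (by positivity)]
    exact mul_le_mul_of_nonneg_left hcap (by positivity)
  calc _ ≤ |(S.Q^7)⁻¹ * R| + |S.Q^2 * ((X ∩ Y).card : ℝ)| := abs_sub _ _
    _ ≤ _ := by linarith

end Setup

/-- transport along an equivalence -/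
def Signed.transport {V V' : Type*} [Fintype V] [DecidableEq V] [Fintype V'] [DecidableEq V']
    (S : Signed V) (e : V' ≃ V) : Signed V' where
  s i j := S.s (e i) (e j)
  kap := S.kap
  lam := S.lam
  val v w := S.val _ _
  symm v w := S.symm _ _
  diag v := S.diag _
  cod1 v z hvz := by
    rw [Equiv.sum_comp e (fun w => S.s (e v) w * S.s w (e z))]
    exact S.cod1 _ _ (fun h => hvz (e.injective h))
  cod2 v z hvz := by
    rw [Equiv.sum_comp e (fun w => S.s (e v) w ^ 2 * S.s w (e z) ^ 2)]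
    exact S.cod2 _ _ hvz

/-- summary of the construction -/
theorem construction (l : ℕ) (hl : 3 ≤ l) : ∃ (n : ℕ) (S : Signed (Fin n)) (Q : ℝ),
    Q = 2 ^ l ∧ (n : ℝ) = Q^6 ∧ S.kap = Q^4 - 2 * Q ∧ S.lam = Q^4 + Q^3 - 3 * Q^2 ∧
    S.K = Q^11 - Q^8 ∧ S.Sig ≤ Q^10 ∧
    ∀ X Y : Finset (Fin n), |∑ v ∈ X, ∑ w ∈ Y, S.s v w ^ 2 - X.card * Y.card / Q| ≤
      (Q^3 + Q^2) * Real.sqrt (X.card * Y.card) := by
  obtain ⟨A, _, _, _, S, hS⟩ := exists_setup l hl
  let e : Fin (Fintype.card (A × A)) ≃ A × A := (Fintype.equivFin (A × A)).symm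
  refine ⟨Fintype.card (A × A), S.toSigned.transport e, S.Q, hS, S.cardV, rfl, rfl, ?_, ?_, ?_⟩
  · rw [← S.K_eq]
    show ∑ i, ∑ j, S.sg (e i) (e j) ^ 2 = ∑ v, ∑ w, S.sg v w ^ 2
    rw [← Equiv.sum_comp e]
    exact sum_congr rfl fun i _ => Equiv.sum_comp e (fun w => S.sg (e i) w ^ 2)
  · refine le_trans (le_of_eq ?_) S.Sig_le
    show ∑ i, ∑ j, S.sg (e i) (e j) = ∑ v, ∑ w, S.sg v w
    rw [← Equiv.sum_comp e (fun v => ∑ w, S.sg v w)]
    exact sum_congr rfl fun i _ => Equiv.sum_comp e (fun w => S.sg (e i) w)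
  · intro X Y
    have h := S.jum (X.map e.toEmbedding) (Y.map e.toEmbedding)
    rw [card_map, card_map, sum_map] at h
    simp only [sum_map] at h
    exact h

end

end Pool.Agent.Helper60.Jum
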